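import Pool.Agent.T6.H7.QS.Defs

/-!
Project QS, module AR0: the areas of the quadrants with apex at the centre of the regular polygon.
-/

set_option autoImplicit false

namespace Pool.Agent.T6.H7.QS

open MeasureTheory Set Pool.V11275.Quad Pool.Agent.Helper717.Hull1 Pool.Agent.Helper717.Hull2
open scoped Real

namespace ModAr0

theorem tan_abs_le {w g : ℝ} (hw : w < π / 2) (hg : |g| ≤ w) : |Real.tan g| ≤ Real.tan w := by
  have h := abs_le.1 hg
  have hm := Real.strictMonoOn_tan.monotoneOn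
  have hw0 : 0 ≤ w := (abs_nonneg g).trans hg
  have hπ := Real.pi_pos
  rw [abs_le]
  constructor
  · rw [← Real.tan_neg]
    exact hm ⟨by linarith, by linarith⟩ ⟨by linarith [h.1], by linarith [h.2]⟩ h.1
  · exact hm ⟨by linarith [h.1], by linarith [h.2]⟩ ⟨by linarith, by linarith⟩ h.2

theorem w_pos {m : ℕ} (hm : 5 ≤ m) : 0 < π / m := by
  have : (0 : ℝ) < m := by exact_mod_cast (by omega : 0 < m)
  exact div_pos Real.pi_pos this

theorem w_lt {m : ℕ} (hm : 5 ≤ m) : π / m < π / 2 := by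
  have : (5 : ℝ) ≤ m := by exact_mod_cast hm
  have hπ := Real.pi_pos
  rw [div_lt_div_iff₀ (by linarith) (by norm_num)]
  nlinarith

theorem zero_int (h5 : StmtHrep) {m : ℕ} (hm : 5 ≤ m) (ho : Odd m) :
    (0 : E2) ∈ interior (P1 m) :=
  (h5 m (by omega) ho).2.2.1 (Metric.mem_ball_self one_pos)

/-- the ray from the centre -/
theorem rho_eq (h4 : StmtRay) (h5 : StmtHrep) {m : ℕ} (hm : 5 ≤ m) (ho : Odd m) (j : ℤ) (d : ℝ)
    (hd : |(2 * j + 1) * (π / m) - d| ≤ π / m) :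
    rho (P1 m) 0 d = 1 / Real.cos ((2 * j + 1) * (π / m) - d) := by
  have hw := w_pos hm
  have hw2 := w_lt hm
  have hc : 0 < Real.cos ((2 * j + 1) * (π / m) - d) := by
    have := abs_le.1 hd
    exact Real.cos_pos_of_mem_Ioo ⟨by linarith [this.1], by linarith [this.2]⟩
  have h0 : ∀ a : E2, dot a 0 = 0 := fun a => by simp [dot]
  have := h4 m (by omega) ho 0 (zero_int h5 hm ho) j d ((2 * j + 1) * (π / m) - d) (by ring) hc
    (by
      rw [h0, h0, sub_zero, one_mul, zero_sub, abs_neg]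
      exact tan_abs_le hw2 hd)
  rw [this, h0, sub_zero]

theorem rho_cont (h2 : StmtRhoC) (h5 : StmtHrep) {m : ℕ} (hm : 5 ≤ m) (ho : Odd m) :
    Continuous fun τ : ℝ => rho (P1 m) 0 τ ^ 2 / 2 := by
  have hb : Body (P1 m) := (h5 m (by omega) ho).2.1
  have h : Continuous fun τ : ℝ => rho (P1 m) 0 τ := by
    have h3 := h2 (P1 m) hb
    rw [← continuousOn_univ]
    exact h3.comp (f := fun τ : ℝ => ((0 : E2), τ)) (by fun_prop)
      (fun τ _ => ⟨zero_int h5 hm ho, mem_univ _⟩)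
  fun_prop

/-- the integral inside of one sector -/
theorem sector (h4 : StmtRay) (h5 : StmtHrep) {m : ℕ} (hm : 5 ≤ m) (ho : Odd m) (j : ℤ)
    (a b : ℝ) (hab : a ≤ b) (ha : 2 * j * (π / m) ≤ a) (hb : b ≤ 2 * (j + 1) * (π / m)) :
    ∫ τ in a..b, rho (P1 m) 0 τ ^ 2 / 2 =
      (Real.tan (b - (2 * j + 1) * (π / m)) - Real.tan (a - (2 * j + 1) * (π / m))) / 2 := by
  have hw := w_pos hm
  have hw2 := w_lt hm
  have hmem : ∀ τ ∈ uIcc a b, |(2 * j + 1) * (π / m) - τ| ≤ π / m := by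
    intro τ hτ
    rw [uIcc_of_le hab] at hτ
    rw [abs_le]
    constructor
    · have := hτ.2; nlinarith
    · have := hτ.1; nlinarith
  have hcos : ∀ τ ∈ uIcc a b, 0 < Real.cos (τ - (2 * j + 1) * (π / m)) := by
    intro τ hτ
    have := abs_le.1 (hmem τ hτ)
    exact Real.cos_pos_of_mem_Ioo ⟨by linarith [this.2], by linarith [this.1]⟩
  have hval : ∀ τ ∈ uIcc a b, rho (P1 m) 0 τ ^ 2 / 2 =
      (1 / Real.cos (τ - (2 * j + 1) * (π / m)) ^ 2) / 2 := by
    intro τ hτ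
    rw [rho_eq h4 h5 hm ho j τ (hmem τ hτ), ← Real.cos_neg ((2 * j + 1) * (π / m) - τ), neg_sub,
      div_pow, one_pow]
  rw [intervalIntegral.integral_congr hval]
  have hd : ∀ τ ∈ uIcc a b, HasDerivAt (fun τ => Real.tan (τ - (2 * j + 1) * (π / m)) / 2)
      ((1 / Real.cos (τ - (2 * j + 1) * (π / m)) ^ 2) / 2) τ := by
    intro τ hτ
    have h1 := (Real.hasDerivAt_tan (hcos τ hτ).ne').comp_sub_const τ ((2 * j + 1) * (π / m))
    exact h1.div_const 2
  rw [intervalIntegral.integral_eq_sub_of_hasDerivAt hd]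
  · ring
  · apply ContinuousOn.intervalIntegrable
    apply ContinuousOn.div_const
    apply ContinuousOn.div continuousOn_const
    · fun_prop
    · intro τ hτ
      exact pow_ne_zero _ (hcos τ hτ).ne'

/-- the primitive at the vertices -/
theorem prim (h2 : StmtRhoC) (h4 : StmtRay) (h5 : StmtHrep) {m : ℕ} (hm : 5 ≤ m) (ho : Odd m)
    (i : ℕ) : ∫ τ in (0 : ℝ)..(2 * i * (π / m)), rho (P1 m) 0 τ ^ 2 / 2 =
      i * Real.tan (π / m) := by
  have hw := w_pos hm
  have hc := rho_cont h2 h5 hm ho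
  induction i with
  | zero => simp
  | succ i ih =>
    rw [← intervalIntegral.integral_add_adjacent_intervals
      (hc.intervalIntegrable 0 (2 * i * (π / m))) (hc.intervalIntegrable _ _), ih]
    have h1 := sector h4 h5 hm ho i (2 * i * (π / m)) (2 * (i + 1 : ℕ) * (π / m))
      (by push_cast; nlinarith) (by push_cast; exact le_rfl) (by push_cast; exact le_rfl)
    rw [h1]
    have e1 : 2 * ((i + 1 : ℕ) : ℝ) * (π / m) - (2 * ((i : ℤ) : ℝ) + 1) * (π / m) = π / m := by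
      push_cast; ring
    have e2 : 2 * (i : ℝ) * (π / m) - (2 * ((i : ℤ) : ℝ) + 1) * (π / m) = -(π / m) := by
      push_cast; ring
    rw [e1, e2, Real.tan_neg]
    push_cast
    ring

theorem prim' (h2 : StmtRhoC) (h4 : StmtRay) (h5 : StmtHrep) {m : ℕ} (hm : 5 ≤ m) (ho : Odd m)
    (i : ℕ) (g t : ℝ) (hg : |g| ≤ π / m) (ht : t = (2 * i + 1) * (π / m) - g) :
    ∫ τ in (0 : ℝ)..t, rho (P1 m) 0 τ ^ 2 / 2 =
      i * Real.tan (π / m) + (Real.tan (π / m) - Real.tan g) / 2 := by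
  have hc := rho_cont h2 h5 hm ho
  have hg' := abs_le.1 hg
  rw [← intervalIntegral.integral_add_adjacent_intervals
      (hc.intervalIntegrable 0 (2 * i * (π / m))) (hc.intervalIntegrable _ _),
      prim h2 h4 h5 hm ho i]
  have h1 := sector h4 h5 hm ho i (2 * i * (π / m)) t
      (by rw [ht]; linarith [hg'.2]) (by push_cast; exact le_rfl)
      (by rw [ht]; push_cast; linarith [hg'.1])
  rw [h1]
  have e1 : t - (2 * ((i : ℤ) : ℝ) + 1) * (π / m) = -g := by
    rw [ht]; push_cast; ring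
  have e2 : 2 * (i : ℝ) * (π / m) - (2 * ((i : ℤ) : ℝ) + 1) * (π / m) = -(π / m) := by
    push_cast; ring
  rw [e1, e2, Real.tan_neg, Real.tan_neg]
  ring

/-- the area of a quadrant -/
theorem fval (h2 : StmtRhoC) (h3 : StmtPol) (h4 : StmtRay) (h5 : StmtHrep) {m : ℕ} (hm : 5 ≤ m)
    (ho : Odd m) (i j : ℕ) (g g' t : ℝ) (hg : |g| ≤ π / m) (hg' : |g'| ≤ π / m)
    (ht : t = (2 * i + 1) * (π / m) - g) (ht' : t + π / 2 = (2 * j + 1) * (π / m) - g') :
    f (P1 m) 0 t = ((j : ℝ) - i) * Real.tan (π / m) + (Real.tan g - Real.tan g') / 2 ∧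
      f (P1 m) 0 t = q0 m g g' := by
  have hw := w_pos hm
  have hc := rho_cont h2 h5 hm ho
  have hval : f (P1 m) 0 t =
      ((j : ℝ) - i) * Real.tan (π / m) + (Real.tan g - Real.tan g') / 2 := by
    rw [h3 (P1 m) (h5 m (by omega) ho).2.1 0 (zero_int h5 hm ho) t]
    have h6 := intervalIntegral.integral_add_adjacent_intervals (μ := volume)
      (hc.intervalIntegrable 0 t) (hc.intervalIntegrable t (t + π / 2))
    rw [prim' h2 h4 h5 hm ho i g t hg ht,
      prim' h2 h4 h5 hm ho j g' (t + π / 2) hg' ht'] at h6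
    linarith
  refine ⟨hval, ?_⟩
  rw [hval]
  unfold q0
  have h7 : ((j : ℝ) - i) = (g' - g + π / 2) / (2 * (π / m)) := by
    rw [eq_div_iff (by positivity)]
    linarith
  rw [h7]
  generalize Real.tan (π / m) = T at *
  generalize Real.tan g = T1
  generalize Real.tan g' = T2
  field_simp
  ring

end ModAr0

open ModAr0 in
theorem ar0 (h1 : StmtRho) (h2 : StmtRhoC) (h3 : StmtPol) (h4 : StmtRay) (h5 : StmtHrep) :
    StmtAr0 := by
  intro m hm ho θ hθ0 hθ1
  have hw := w_pos hm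
  have hmw : (m : ℝ) * (π / m) = π := by
    have : (0 : ℝ) < m := by exact_mod_cast (by omega : 0 < m)
    field_simp
  set w : ℝ := π / m with hwdef
  have hπ : π / 2 = m * w / 2 := by rw [hmw]
  have hπ' : π = m * w := hmw.symm
  -- the bounds of the angles
  have b0 : |gam0 m θ| ≤ w := by
    unfold gam0; rw [abs_le]; constructor <;> linarith
  have b1 : |gam1 m θ| ≤ w := by
    unfold gam1; split_ifs <;> rw [abs_le] <;> constructor <;> linarith
  have b2 : |gam2 m θ| ≤ w := by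
    unfold gam2; rw [abs_le]; constructor <;> linarith
  have b3 : |gam3 m θ| ≤ w := by
    unfold gam3; split_ifs <;> rw [abs_le] <;> constructor <;> linarith
  -- the sectors
  obtain ⟨j1, j2, j3, e1, e2, e3⟩ : ∃ j1 j2 j3 : ℕ,
      θ + π / 2 = (2 * j1 + 1) * w - gam1 m θ ∧ θ + π = (2 * j2 + 1) * w - gam2 m θ ∧
      θ + 3 * (π / 2) = (2 * j3 + 1) * w - gam3 m θ := by
    rcases Nat.odd_mod_four_iff.1 (Nat.odd_iff.1 ho) with h | h
    · obtain ⟨q, hq⟩ : ∃ q, m = 4 * q + 1 := ⟨m / 4, by omega⟩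
      have hqr : (m : ℝ) = 4 * q + 1 := by exact_mod_cast hq
      refine ⟨q, 2 * q, 3 * q, ?_, ?_, ?_⟩
      · unfold gam1; rw [if_pos h, ← hwdef, hπ, hqr]; ring
      · unfold gam2; rw [hπ', hqr]; push_cast; ring
      · unfold gam3; rw [if_pos h, ← hwdef, hπ, hqr]; push_cast; ring
    · obtain ⟨q, hq⟩ : ∃ q, m = 4 * q + 3 := ⟨m / 4, by omega⟩
      have hqr : (m : ℝ) = 4 * q + 3 := by exact_mod_cast hq
      have hn : ¬ m % 4 = 1 := by omega
      refine ⟨q, 2 * q + 1, 3 * q + 2, ?_, ?_, ?_⟩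
      · unfold gam1; rw [if_neg hn, ← hwdef, hπ, hqr]; ring
      · unfold gam2; rw [hπ', hqr]; push_cast; ring
      · unfold gam3; rw [if_neg hn, ← hwdef, hπ, hqr]; push_cast; ring
  have e0 : θ = (2 * ((0 : ℕ) : ℝ) + 1) * w - gam0 m θ := by
    unfold gam0; simp only [← hwdef]; push_cast; ring
  have e4 : θ + 3 * (π / 2) + π / 2 = (2 * (m : ℝ) + 1) * w - gam0 m θ := by
    unfold gam0; simp only [← hwdef]; linarith
  have f0 := fval h2 h3 h4 h5 hm ho 0 j1 _ _ θ b0 b1 e0 e1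
  have f1 := fval h2 h3 h4 h5 hm ho j1 j2 _ _ (θ + π / 2) b1 b2 e1 (by rw [← e2]; ring)
  have f2 := fval h2 h3 h4 h5 hm ho j2 j3 _ _ (θ + π) b2 b3 e2 (by rw [← e3]; ring)
  have f3 := fval h2 h3 h4 h5 hm ho j3 m _ _ (θ + 3 * (π / 2)) b3 b0 e3 e4
  refine ⟨f0.2, f1.2, f2.2, ?_⟩
  -- the total area
  have hb : Body (P1 m) := (h5 m (by omega) ho).2.1
  have hu : u θ ≠ 0 := by
    intro h
    have c0 : Real.cos θ = 0 := by simpa [u] using congrArg (fun x : E2 => x 0) h
    have s0 : Real.sin θ = 0 := by simpa [u] using congrArg (fun x : E2 => x 1) h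
    have := Real.sin_sq_add_cos_sq θ
    rw [c0, s0] at this
    norm_num at this
  have r1 : rot (u θ) = u (θ + π / 2) := by
    apply ext2 <;> simp [u, Real.cos_add_pi_div_two, Real.sin_add_pi_div_two]
  have r2 : -u θ = u (θ + π) := by
    apply ext2 <;> simp [u, Real.cos_add_pi, Real.sin_add_pi]
  have r3 : -u (θ + π / 2) = u (θ + 3 * (π / 2)) := by
    have : θ + 3 * (π / 2) = (θ + π / 2) + π := by ring
    rw [this]
    apply ext2 <;> simp [u, Real.cos_add_pi, Real.sin_add_pi]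
  have hv := vol_quads (P1 m) 0 (u θ) hu
  rw [r1, r2, r3] at hv
  have hfin : ∀ v : E2, volume (P1 m ∩ quad 0 v) ≠ ⊤ := fun v =>
    ne_top_of_le_ne_top hb.comp.measure_lt_top.ne (measure_mono inter_subset_left)
  have hM : M (P1 m) = f (P1 m) 0 θ + f (P1 m) 0 (θ + π / 2) + f (P1 m) 0 (θ + π) +
      f (P1 m) 0 (θ + 3 * (π / 2)) := by
    unfold M mu f Measure.real
    rw [Measure.restrict_apply_univ, hv,
      ENNReal.toReal_add (ENNReal.add_ne_top.2 ⟨ENNReal.add_ne_top.2 ⟨hfin _, hfin _⟩, hfin _⟩)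
        (hfin _),
      ENNReal.toReal_add (ENNReal.add_ne_top.2 ⟨hfin _, hfin _⟩) (hfin _),
      ENNReal.toReal_add (hfin _) (hfin _)]
  rw [hM, f0.1, f1.1, f2.1, f3.1]
  push_cast
  ring

end Pool.Agent.T6.H7.QS
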