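import Pool.Agent.T6.H7.QS.Defs

/-!
# Module AREA of project QS (MP_79dd7e_co): closeness of all areas
-/

set_option autoImplicit false

namespace Pool.Agent.T6.H7.QS.ModAREA

open MeasureTheory Set Pool.V11275.Quad Pool.Agent.Helper717.Hull1 Pool.Agent.Helper717.Hull2
open Pool.Agent.T6.H7.QS
open scoped Real ENNReal Pointwise

theorem real_smul (P : Set E2) (r : ℝ) (_hr : 0 ≤ r) :
    volume.real (r • P) = r ^ 2 * volume.real P := by
  unfold Measure.real
  rw [Measure.addHaar_smul, ENNReal.toReal_mul, ENNReal.toReal_ofReal (abs_nonneg _)]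
  congr 1
  have h : Module.finrank ℝ E2 = 2 := by
    show Module.finrank ℝ (EuclideanSpace ℝ (Fin 2)) = 2
    simp
  rw [h, abs_of_nonneg (by positivity)]

theorem main {P : Set E2} (hP : Body P) (h0 : (0 : E2) ∈ interior P) {R : Set E2} (_hR : Body R)
    {a : ℝ} (ha : 0 ≤ a) (ha1 : a < 1) (h1 : ∀ x ∈ P, (1 - a) • x ∈ R)
    (h2 : ∀ x ∈ R, ∃ y ∈ P, x = (1 + a) • y) (S : Set E2) :
    |volume.real (R ∩ S) - volume.real (P ∩ S)| ≤ 4 * a * volume.real P := by
  have h0P : (0 : E2) ∈ P := interior_subset h0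
  have cA : IsCompact ((1 - a) • P) := hP.comp.smul (1 - a)
  have cB : IsCompact ((1 + a) • P) := hP.comp.smul (1 + a)
  have AR : (1 - a) • P ⊆ R := by
    rintro _ ⟨x, hx, rfl⟩; exact h1 x hx
  have RB : R ⊆ (1 + a) • P := by
    intro x hx
    obtain ⟨y, hy, rfl⟩ := h2 x hx
    exact ⟨y, hy, rfl⟩
  have AP : (1 - a) • P ⊆ P := by
    rintro _ ⟨x, hx, rfl⟩
    exact hP.conv.smul_mem_of_zero_mem h0P hx ⟨by linarith, by linarith⟩
  have PB : P ⊆ (1 + a) • P := by
    intro x hx
    refine ⟨(1 + a)⁻¹ • x, ?_, ?_⟩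
    · refine hP.conv.smul_mem_of_zero_mem h0P hx ⟨by positivity, ?_⟩
      exact inv_le_one_of_one_le₀ (by linarith)
    · show (1 + a) • (1 + a)⁻¹ • x = x
      rw [smul_smul, mul_inv_cancel₀ (by linarith), one_smul]
  have fB : volume ((1 + a) • P) ≠ ∞ := cB.measure_lt_top.ne
  have fAS : volume (((1 - a) • P ∩ S) ∪ (((1 + a) • P) \ ((1 - a) • P))) ≠ ∞ := by
    refine ne_top_of_le_ne_top fB (measure_mono ?_)
    apply union_subset
    · exact (inter_subset_left.trans AP).trans PB
    · exact sdiff_subset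
  have fBS : volume ((1 + a) • P ∩ S) ≠ ∞ := ne_top_of_le_ne_top fB (measure_mono inter_subset_left)
  have key : volume.real ((1 + a) • P ∩ S) ≤
      volume.real ((1 - a) • P ∩ S) + volume.real (((1 + a) • P) \ ((1 - a) • P)) := by
    refine le_trans (measureReal_mono ?_ fAS) (measureReal_union_le _ _)
    rintro x ⟨hx, hs⟩
    by_cases hA : x ∈ (1 - a) • P
    · exact Or.inl ⟨hA, hs⟩
    · exact Or.inr ⟨hx, hA⟩
  have e1 : volume.real (((1 + a) • P) \ ((1 - a) • P)) =
      volume.real ((1 + a) • P) - volume.real ((1 - a) • P) :=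
    measureReal_sdiff (AP.trans PB) cA.isClosed.measurableSet
      fB
  rw [e1, real_smul P (1 + a) (by linarith), real_smul P (1 - a) (by linarith)] at key
  have mono : ∀ X Y : Set E2, X ⊆ Y → Y ⊆ (1 + a) • P →
      volume.real (X ∩ S) ≤ volume.real (Y ∩ S) := by
    intro X Y hXY hY
    exact measureReal_mono (inter_subset_inter_left S hXY)
      (ne_top_of_le_ne_top fB (measure_mono (inter_subset_left.trans hY)))
  have m1 := mono _ _ AR RB
  have m2 := mono _ _ RB le_rfl
  have m3 := mono _ _ AP PB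
  have m4 := mono _ _ PB le_rfl
  rw [abs_le]
  constructor <;> nlinarith

end Pool.Agent.T6.H7.QS.ModAREA

namespace Pool.Agent.T6.H7.QS

open MeasureTheory Set

/-- Module AREA: closeness of all areas. -/
theorem area : StmtArea := by
  intro P hP h0 η hη
  have hV : 0 ≤ volume.real P := measureReal_nonneg
  refine ⟨η / (4 * volume.real P + 1), by positivity, ?_⟩
  rintro R hR ⟨a, ha, had, ha1, h1, h2⟩ S _
  refine lt_of_le_of_lt (ModAREA.main hP h0 hR ha ha1 h1 h2 S) ?_
  rw [lt_div_iff₀ (by positivity)] at had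
  nlinarith

end Pool.Agent.T6.H7.QS
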