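import Pool.Agent.T6.H7.QS.Defs

set_option autoImplicit false

/-! Project QS: the facts for directions in `[0, π / (2 m))`. -/

namespace Pool.Agent.T6.H7.QS

open MeasureTheory Set Pool.V11275.Quad Pool.Agent.Helper717.Hull1 Pool.Agent.Helper717.Hull2
open scoped Real

namespace BaseM

lemma w_pos {m : ℕ} (hm : 5 ≤ m) : 0 < π / m := by
  have : (0 : ℝ) < m := by exact_mod_cast (by omega : 0 < m)
  exact div_pos Real.pi_pos this

lemma w_le {m : ℕ} (hm : 5 ≤ m) : π / m ≤ π / 5 := by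
  have h5 : (5 : ℝ) ≤ m := by exact_mod_cast hm
  exact div_le_div_of_nonneg_left Real.pi_pos.le (by norm_num) h5

lemma half_eq {m : ℕ} (hm : 5 ≤ m) : π / (2 * m) = π / m / 2 := by
  have : (m : ℝ) ≠ 0 := by
    have : (0 : ℝ) < m := by exact_mod_cast (by omega : 0 < m)
    exact this.ne'
  field_simp

lemma sg_cases (m : ℕ) : sg m = 1 ∨ sg m = -1 := by
  unfold sg
  split_ifs
  · exact Or.inl rfl
  · exact Or.inr rfl

theorem baseC (h1 : StmtForm) (h2 : StmtBisF) (h3 : StmtIneq) (h4 : StmtHF) :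
    ∀ m : ℕ, 5 ≤ m → Odd m → BaseC m := by
  intro m hm ho θ hθ hθ2
  rw [half_eq hm] at hθ2
  have hw := w_pos hm
  have hw5 := w_le hm
  obtain ⟨hint, -⟩ := h1 m hm ho θ hθ.le hθ2.le _ _ rfl rfl
  obtain ⟨hb, hf⟩ := h2 m hm ho θ hθ.le hθ2.le
  refine ⟨Oc m θ, hint, hb, ?_⟩
  have e := h3 (π / m) θ (π / m / 2 - θ) hw hw5 hθ (by linarith) (by ring)
  obtain ⟨hA, -⟩ := h4 (π / m) θ (π / m / 2 - θ) hw hw5 hθ.le (by linarith) (by ring)
  obtain ⟨hB, -⟩ := h4 (π / m) (π / m / 2 - θ) θ hw hw5 (by linarith) hθ.le (by ring)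
  have hAB : 0 ≤ h (π / m) (π / m / 2 - θ) * h (π / m) θ := mul_nonneg hA hB
  have hs : -(sg m * Ad m θ * Bd m θ) ≤ h (π / m) (π / m / 2 - θ) * h (π / m) θ := by
    unfold Ad Bd
    rcases sg_cases m with h5 | h5 <;> rw [h5]
    · linarith
    · linarith
  have hf' : f (P1 m) (Oc m θ) θ - M (P1 m) / 4 < 0 := by
    rw [hf]
    unfold Ad Bd at hs ⊢
    linarith
  linarith

theorem baseB (h1 : StmtForm) (h2 : StmtBisF) (h4 : StmtHF) (h5 : StmtRays) (h6 : StmtNde) :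
    ∀ m : ℕ, 5 ≤ m → Odd m → BaseB m := by
  intro m hm ho
  have hw := w_pos hm
  have hw5 := w_le hm
  have hpi := Real.pi_pos
  obtain ⟨hint, -⟩ := h1 m hm ho 0 le_rfl (by linarith) _ _ rfl rfl
  obtain ⟨hb, hf⟩ := h2 m hm ho 0 le_rfl (by linarith)
  obtain ⟨hA0, -, hA1, -⟩ := h4 (π / m) 0 (π / m / 2) hw hw5 le_rfl (by linarith) (by ring)
  rw [Real.sin_zero, zero_div] at hA1
  have hA : Ad m 0 = 0 := by
    unfold Ad
    rw [sub_zero]
    exact le_antisymm hA1 hA0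
  obtain ⟨hB0, hB1, -, -⟩ := h4 (π / m) (π / m / 2) 0 hw hw5 (by linarith) le_rfl (by ring)
  have hs : 0 < Real.sin (π / m / 2) := Real.sin_pos_of_pos_of_lt_pi (by linarith) (by linarith)
  have hc : 0 < Real.cos (π / m / 2) := Real.cos_pos_of_mem_Ioo ⟨by linarith, by linarith⟩
  have hcw : 0 < Real.cos (π / m) := Real.cos_pos_of_mem_Ioo ⟨by linarith, by linarith⟩
  have hsc := Real.sin_sq_add_cos_sq (π / m / 2)
  have hB2 : h (π / m) 0 ^ 2 + 2 * h (π / m) 0 / Real.sin (π / m / 2) =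
      Real.sin (π / m / 2) ^ 2 / Real.cos (π / m) := by
    rw [Real.cos_zero] at hB1
    rw [mul_one] at hB1
    rw [hB1]
    congr 1
    linarith
  have hO : Oc m 0 = (sg m * Bd m 0) • u 0 + (0 : ℝ) • u (0 + π / 2) := by
    unfold Oc
    rw [hA, neg_zero]
  refine ⟨Oc m 0, ⟨hint, hb, ?_⟩, ?_⟩
  · rw [hA, Real.sin_zero] at hf
    simp at hf
    linarith
  · obtain ⟨-, r0, r1, r2, r3⟩ := h5 m hm ho 0 le_rfl (by linarith) (Bd m 0) 0
      (by unfold Bd; exact hB0) le_rfl (by rw [hA, neg_zero]) le_rfl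
    rw [← hO] at r0 r1 r2 r3
    unfold ND
    rw [zero_add] at r1 r2 r3 ⊢
    rw [zero_add, zero_add]
    rw [r0, r1, r2, r3]
    have key := h6 (π / m) (h (π / m) 0) (sg m) hw hw5 hB0 hB2 (sg_cases m)
    have e0 : gam0 m 0 = π / m := by unfold gam0; ring
    have e2 : gam2 m 0 = 0 := by unfold gam2; ring
    rw [e0, e2, Real.cos_zero, Real.sin_zero]
    have hB : Bd m 0 = h (π / m) 0 := rfl
    rw [hB]
    set B := h (π / m) 0 with hBdef
    have hL : (1 - sg m * B * Real.cos (π / m) - 0 * Real.sin (π / m)) / Real.cos (π / m) *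
        ((1 + sg m * B * 1 + 0 * 0) / 1) = (1 / Real.cos (π / m) - sg m * B) * (1 + sg m * B) := by
      field_simp
      ring
    rw [hL]
    have hR : (1 + sg m * B * Real.sin (gam1 m 0) - 0 * Real.cos (gam1 m 0)) / Real.cos (gam1 m 0) *
        ((1 - sg m * B * Real.sin (gam3 m 0) + 0 * Real.cos (gam3 m 0)) / Real.cos (gam3 m 0)) =
        ((1 + B * Real.sin (π / m / 2)) / Real.cos (π / m / 2)) ^ 2 := by
      unfold gam1 gam3 sg
      split_ifs
      · rw [sub_zero, add_zero, Real.sin_neg, Real.cos_neg]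
        field_simp
        ring
      · rw [sub_zero, add_zero, Real.sin_neg, Real.cos_neg]
        field_simp
        ring
    rw [hR]
    exact key.ne'

end BaseM

end Pool.Agent.T6.H7.QS
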