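import Pool.Agent.T6.H7.QS.Defs

set_option autoImplicit false

/-!
Project QS, module BISF: the cross with centre `Oc` bisects, and the area of its first quadrant.
-/

namespace Pool.Agent.T6.H7.QS

open MeasureTheory Set Pool.V11275.Quad Pool.Agent.Helper717.Hull1 Pool.Agent.Helper717.Hull2
open scoped Real

theorem BisF_aux {ω θ β : ℝ} (h : θ + β = ω / 2) :
    Real.cos β ^ 2 - Real.cos (ω / 2) ^ 2 = Real.sin θ * Real.sin (ω - θ) := by
  have e1 : θ = ω / 2 - β := by linarith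
  have e2 : ω - θ = ω / 2 + β := by linarith
  rw [e2, e1, Real.sin_sub, Real.sin_add]
  have h1 := Real.sin_sq_add_cos_sq β
  have h2 := Real.sin_sq_add_cos_sq (ω / 2)
  have h3 : Real.sin β ^ 2 = 1 - Real.cos β ^ 2 := by linarith
  have h4 : Real.sin (ω / 2) ^ 2 = 1 - Real.cos (ω / 2) ^ 2 := by linarith
  linear_combination (-Real.cos β ^ 2) * h4 + Real.cos (ω / 2) ^ 2 * h3

/-- the first bracket -/
theorem BisF_br1 {ω θ β A : ℝ} (h : θ + β = ω / 2) (hS : Real.sin (ω / 2) ≠ 0)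
    (hω : Real.cos ω ≠ 0) (hc : Real.cos (ω - θ) ≠ 0)
    (hA : A ^ 2 + 2 * A * Real.cos β / Real.sin (ω / 2) =
      (Real.cos β ^ 2 - Real.cos (ω / 2) ^ 2) / Real.cos ω) :
    Real.sin (ω - θ) / Real.cos (ω - θ) + 2 * A / Real.cos (ω - θ) +
      A ^ 2 * (Real.sin (ω - θ) / Real.cos (ω - θ)) =
      Real.sin (ω - θ) * Real.cos θ / Real.cos ω -
        2 * A * Real.sin β / Real.sin (ω / 2) := by
  rw [BisF_aux h] at hA
  have e2 : Real.sin (ω / 2) =
      Real.sin (ω - θ) * Real.cos β - Real.cos (ω - θ) * Real.sin β := by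
    rw [← Real.sin_sub]; congr 1; linarith
  have e3 : Real.cos ω = Real.cos θ * Real.cos (ω - θ) - Real.sin θ * Real.sin (ω - θ) := by
    rw [← Real.cos_add]; congr 1; ring
  have hA' : A ^ 2 * Real.sin (ω / 2) * Real.cos ω + 2 * A * Real.cos β * Real.cos ω =
      Real.sin θ * Real.sin (ω - θ) * Real.sin (ω / 2) := by
    field_simp at hA
    linarith
  generalize Real.sin (ω / 2) = S at *
  generalize Real.sin (ω - θ) = s1 at *
  generalize Real.cos (ω - θ) = c1 at *
  generalize Real.cos ω = cw at *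
  field_simp
  linear_combination s1 * hA' + s1 * S * e3 + 2 * A * cw * e2

/-- the second bracket -/
theorem BisF_br2 {ω θ β A : ℝ} (h : θ + β = ω / 2) (hS : Real.sin (ω / 2) ≠ 0)
    (hω : Real.cos ω ≠ 0) (hc : Real.cos θ ≠ 0)
    (hA : A ^ 2 + 2 * A * Real.cos β / Real.sin (ω / 2) =
      (Real.cos β ^ 2 - Real.cos (ω / 2) ^ 2) / Real.cos ω) :
    Real.sin θ / Real.cos θ + 2 * A / Real.cos θ + A ^ 2 * (Real.sin θ / Real.cos θ) =
      Real.sin θ * Real.cos (ω - θ) / Real.cos ω +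
        2 * A * Real.sin β / Real.sin (ω / 2) := by
  rw [BisF_aux h] at hA
  have e2 : Real.sin (ω / 2) = Real.sin θ * Real.cos β + Real.cos θ * Real.sin β := by
    rw [← Real.sin_add, h]
  have e3 : Real.cos ω = Real.cos θ * Real.cos (ω - θ) - Real.sin θ * Real.sin (ω - θ) := by
    rw [← Real.cos_add]; congr 1; ring
  have hA' : A ^ 2 * Real.sin (ω / 2) * Real.cos ω + 2 * A * Real.cos β * Real.cos ω =
      Real.sin θ * Real.sin (ω - θ) * Real.sin (ω / 2) := by
    field_simp at hA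
    linarith
  generalize Real.sin (ω / 2) = S at *
  generalize Real.sin (ω - θ) = s1 at *
  generalize Real.cos (ω - θ) = c1 at *
  generalize Real.cos ω = cw at *
  field_simp
  linear_combination Real.sin θ * hA' + Real.sin θ * S * e3 + 2 * A * cw * e2

theorem BisF_q0 {m : ℕ} (hm : 0 < m) {g g' κ : ℝ} (h : g' - g = -(κ * (π / m))) :
    q0 m g g' = ((m / 2 - κ) * (Real.sin (π / m) / Real.cos (π / m)) -
      Real.sin g' / Real.cos g' + Real.sin g / Real.cos g) / 2 := by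
  unfold q0
  have hm' : (m : ℝ) ≠ 0 := by positivity
  have hpi := Real.pi_ne_zero
  have e : (g' - g + π / 2) * (Real.tan (π / m) / (π / m)) = (m / 2 - κ) * Real.tan (π / m) := by
    rw [h]
    generalize Real.tan (π / m) = T
    field_simp
    ring
  rw [e, Real.tan_eq_sin_div_cos, Real.tan_eq_sin_div_cos, Real.tan_eq_sin_div_cos]

theorem bisF (h1 : StmtForm) (h2 : StmtAr0) (h3 : StmtHF) : StmtBisF := by
  intro m hm hmo θ hθ hθ'
  have hpi := Real.pi_pos
  have hm0 : 0 < m := by omega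
  have hm' : (5 : ℝ) ≤ m := by exact_mod_cast hm
  obtain ⟨-, F0, F1, F2⟩ := h1 m hm hmo θ hθ hθ' _ _ rfl rfl
  obtain ⟨-, -, -, hM⟩ := h2 m hm hmo θ hθ hθ'
  have hω0 : 0 < π / m := by positivity
  have hω5 : π / m ≤ π / 5 := div_le_div_of_nonneg_left hpi.le (by norm_num) hm'
  obtain ⟨β, hβ⟩ : ∃ β : ℝ, β = π / m / 2 - θ := ⟨_, rfl⟩
  have hβ0 : 0 ≤ β := by linarith
  have hsum : θ + β = π / m / 2 := by linarith
  have hsum' : β + θ = π / m / 2 := by linarith
  have HA := (h3 (π / m) θ β hω0 hω5 hθ hβ0 hsum).2.1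
  have HB := (h3 (π / m) β θ hω0 hω5 hβ0 hθ hsum').2.1
  have eA : Ad m θ = h (π / m) β := by rw [hβ]; rfl
  have eB : Bd m θ = h (π / m) θ := rfl
  rw [← eA] at HA
  rw [← eB] at HB
  have g0 : gam0 m θ = π / m - θ := rfl
  have g2 : gam2 m θ = -θ := rfl
  have hS : Real.sin (π / m / 2) ≠ 0 :=
    (Real.sin_pos_of_pos_of_lt_pi (by linarith) (by linarith)).ne'
  have hcω : Real.cos (π / m) ≠ 0 := (Real.cos_pos_of_mem_Ioo ⟨by linarith, by linarith⟩).ne'
  have hcθ : Real.cos θ ≠ 0 := (Real.cos_pos_of_mem_Ioo ⟨by linarith, by linarith⟩).ne'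
  have hcβ : Real.cos β ≠ 0 := (Real.cos_pos_of_mem_Ioo ⟨by linarith, by linarith⟩).ne'
  have hcθ' : Real.cos (π / m - θ) ≠ 0 :=
    (Real.cos_pos_of_mem_Ioo ⟨by linarith, by linarith⟩).ne'
  have hcβ' : Real.cos (π / m - β) ≠ 0 :=
    (Real.cos_pos_of_mem_Ioo ⟨by linarith, by linarith⟩).ne'
  have A1 := BisF_br1 hsum hS hcω hcθ' HA
  have A2 := BisF_br2 hsum hS hcω hcθ HA
  have B1 := BisF_br1 hsum' hS hcω hcβ' HB
  have B2 := BisF_br2 hsum' hS hcω hcβ HB
  have s1 : Real.sin (π / m) / Real.cos (π / m) =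
      Real.sin (π / m - θ) * Real.cos θ / Real.cos (π / m) +
        Real.sin θ * Real.cos (π / m - θ) / Real.cos (π / m) := by
    rw [← add_div]
    congr 1
    rw [mul_comm (Real.sin θ), ← Real.sin_add]; congr 1; ring
  have s2 : Real.sin (π / m) / Real.cos (π / m) =
      Real.sin (π / m - β) * Real.cos β / Real.cos (π / m) +
        Real.sin β * Real.cos (π / m - β) / Real.cos (π / m) := by
    rw [← add_div]
    congr 1
    rw [mul_comm (Real.sin β), ← Real.sin_add]; congr 1; ring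
  have s3 : (Real.sin (π / m - θ) * Real.cos θ / Real.cos (π / m) -
      Real.sin β * Real.cos (π / m - β) / Real.cos (π / m)) -
      Real.sin (π / m) / Real.cos (π / m) / 2 =
      2 * (Real.sin (π / m / 2) * Real.sin β * Real.sin θ / Real.cos (π / m)) := by
    have e0 : π / m = 2 * θ + 2 * β := by linarith
    have e1 : Real.sin (π / m - θ) = Real.sin (θ + 2 * β) := by congr 1; linarith
    have e2 : Real.cos (π / m - β) = Real.cos (2 * θ + β) := by congr 1; linarith
    have e3 : Real.sin (π / m) = Real.sin (2 * θ + 2 * β) := by rw [← e0]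
    have e4 : Real.sin (π / m / 2) = Real.sin (θ + β) := by rw [hsum]
    have key : Real.sin (π / m - θ) * Real.cos θ - Real.sin β * Real.cos (π / m - β) -
        Real.sin (π / m) / 2 = 2 * (Real.sin (π / m / 2) * Real.sin β * Real.sin θ) := by
      rw [e1, e2, e3, e4, Real.sin_add θ (2 * β), Real.cos_add (2 * θ) β,
        Real.sin_add (2 * θ) (2 * β), Real.sin_add θ β, Real.sin_two_mul, Real.sin_two_mul,
        Real.cos_two_mul, Real.cos_two_mul]
      have p1 := Real.sin_sq_add_cos_sq θ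
      have p2 := Real.sin_sq_add_cos_sq β
      have p3 : Real.sin β ^ 2 = 1 - Real.cos β ^ 2 := by linarith
      have p4 : Real.sin θ ^ 2 = 1 - Real.cos θ ^ 2 := by linarith
      ring_nf
      simp only [p3, p4]
      ring
    have := congrArg (fun t => t / Real.cos (π / m)) key
    linear_combination this
  by_cases hm4 : m % 4 = 1
  · have g1 : gam1 m θ = β := by unfold gam1; rw [if_pos hm4, hβ]
    have g3 : gam3 m θ = -(π / m - β) := by unfold gam3; rw [if_pos hm4]; linarith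
    have hsg : sg m = 1 := by unfold sg; rw [if_pos hm4]
    rw [BisF_q0 hm0 (κ := 1 / 2) (by rw [g0, g1]; linarith), g0, g1, hsg] at F0
    rw [BisF_q0 hm0 (κ := 1 / 2) (by rw [g1, g2]; linarith), g1, g2, hsg] at F1
    rw [BisF_q0 hm0 (κ := 1 / 2) (by rw [g2, g3]; linarith), g2, g3, hsg] at F2
    rw [Real.sin_neg, Real.cos_neg] at F1
    rw [Real.sin_neg, Real.cos_neg, Real.sin_neg, Real.cos_neg] at F2
    rw [Real.tan_eq_sin_div_cos] at hM
    refine ⟨⟨?_, ?_⟩, ?_⟩
    · rw [F0, F1, hM]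
      linear_combination (1 / 2) * A1 + (1 / 2) * A2 - (1 / 2) * s1
    · rw [F1, F2, hM]
      linear_combination (1 / 2) * B1 + (1 / 2) * B2 - (1 / 2) * s2
    · rw [F0, hM, hsg, ← hβ]
      linear_combination (1 / 2) * A1 - (1 / 2) * B2 + (1 / 2) * s3
  · have g1 : gam1 m θ = -(π / m - β) := by unfold gam1; rw [if_neg hm4]; linarith
    have g3 : gam3 m θ = β := by unfold gam3; rw [if_neg hm4, hβ]
    have hsg : sg m = -1 := by unfold sg; rw [if_neg hm4]
    rw [BisF_q0 hm0 (κ := 3 / 2) (by rw [g0, g1]; linarith), g0, g1, hsg] at F0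
    rw [BisF_q0 hm0 (κ := -(1 / 2)) (by rw [g1, g2]; linarith), g1, g2, hsg] at F1
    rw [BisF_q0 hm0 (κ := -(1 / 2)) (by rw [g2, g3]; linarith), g2, g3, hsg] at F2
    rw [Real.sin_neg, Real.cos_neg] at F0
    rw [Real.sin_neg, Real.cos_neg, Real.sin_neg, Real.cos_neg] at F1
    rw [Real.sin_neg, Real.cos_neg] at F2
    rw [Real.tan_eq_sin_div_cos] at hM
    refine ⟨⟨?_, ?_⟩, ?_⟩
    · rw [F0, F1, hM]
      linear_combination (1 / 2) * A1 + (1 / 2) * A2 - (1 / 2) * s1
    · rw [F1, F2, hM]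
      linear_combination (-1 / 2) * B1 - (1 / 2) * B2 + (1 / 2) * s2
    · rw [F0, hM, hsg, ← hβ]
      linear_combination (1 / 2) * A1 + (1 / 2) * B1 + (1 / 2) * s3 - (1 / 2) * s2

end Pool.Agent.T6.H7.QS
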