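import Pool.Agent.T6.H7.QS.Defs

set_option autoImplicit false

/-! Project QS, module BR. -/

namespace Pool.Agent.T6.H7.QS.ModBr

open MeasureTheory Set Pool.V11275.Quad Pool.Agent.Helper717.Hull1 Pool.Agent.Helper717.Hull2
open Pool.Agent.T6.H7.QS
open scoped Real

lemma u_rot (t : ℝ) : u (t + π / 2) = rot (u t) := by
  apply ext2
  · simp [u, Real.cos_add_pi_div_two]
  · simp [u, Real.sin_add_pi_div_two]

lemma u_ne (t : ℝ) : u t ≠ 0 := by
  intro h
  have h0 : (u t) 0 = 0 := by rw [h]; rfl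
  have h1 : (u t) 1 = 0 := by rw [h]; rfl
  have := Real.cos_sq_add_sin_sq t
  simp only [u] at h0 h1
  have e0 : Real.cos t = 0 := h0
  have e1 : Real.sin t = 0 := h1
  rw [e0, e1] at this
  norm_num at this

lemma real_eq (R : Set E2) {S : Set E2} (hS : MeasurableSet S) :
    (mu R).real S = volume.real (R ∩ S) := by
  unfold mu
  rw [Measure.real, Measure.restrict_apply hS, inter_comm, Measure.real]

lemma M_eq (R : Set E2) : M R = volume.real R := by
  unfold M; rw [real_eq R MeasurableSet.univ, inter_univ]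

lemma f_eq (R : Set E2) (O : E2) (t : ℝ) : f R O t = (mu R).real (quad O (u t)) := by
  rw [real_eq R (quad_meas _ _ (u_ne t))]; rfl

lemma u_pi (t : ℝ) : u (t + π) = -(u t) := by
  rw [show t + π = t + π / 2 + π / 2 by ring, u_rot, u_rot, rot_rot]

lemma four (R : Set E2) (hR : Body R) (O v : E2) (hv : v ≠ 0)
    (h0 : volume (R ∩ quad O v) = volume R / 4)
    (h1 : volume (R ∩ quad O (rot v)) = volume R / 4)
    (h2 : volume (R ∩ quad O (-v)) = volume R / 4) (k : ℕ) :
    volume (R ∩ quad O (rot^[k] v)) = volume R / 4 := by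
  have hfin : volume R ≠ ⊤ := hR.comp.measure_lt_top.ne
  refine four_cases (fun w => volume (R ∩ quad O w) = volume R / 4) v h0 h1 h2 ?_ k
  have h := vol_quads R O v hv
  rw [h0, h1, h2] at h
  have hf3 : volume (R ∩ quad O (-rot v)) ≠ ⊤ :=
    (measure_mono_top' hfin)
  have h4 : volume R / 4 ≠ ⊤ := (ENNReal.div_lt_top hfin (by norm_num)).ne
  have e := congrArg ENNReal.toReal h
  rw [ENNReal.toReal_add (by simp [h4]) hf3, ENNReal.toReal_add (by simp [h4]) h4,
    ENNReal.toReal_add h4 h4, ENNReal.toReal_div] at e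
  have e4 : (4 : ENNReal).toReal = 4 := by norm_num
  rw [e4] at e
  rw [← ENNReal.toReal_eq_toReal_iff' hf3 h4, ENNReal.toReal_div, e4]
  linarith
where
  measure_mono_top' {R S : Set E2} (h : volume R ≠ ⊤) : volume (R ∩ S) ≠ ⊤ :=
    ne_top_of_le_ne_top h (measure_mono inter_subset_left)

lemma line_neg (P v : E2) : line P (-v) = line P v := by
  ext x
  constructor
  · rintro ⟨s, rfl⟩; exact ⟨-s, by simp⟩
  · rintro ⟨s, rfl⟩; exact ⟨-s, by simp⟩

lemma line_smul (P v : E2) {c : ℝ} (hc : 0 < c) : line P (c • v) = line P v := by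
  ext x
  constructor
  · rintro ⟨s, rfl⟩; exact ⟨s * c, by rw [smul_smul]⟩
  · rintro ⟨s, rfl⟩
    refine ⟨s / c, ?_⟩
    rw [smul_smul, div_mul_cancel₀ _ hc.ne']

lemma rot_smul (c : ℝ) (v : E2) : rot (c • v) = c • rot v := by
  apply ext2 <;> simp

lemma quad_smul (P v : E2) {c : ℝ} (hc : 0 < c) : quad P (c • v) = quad P v := by
  ext x
  constructor
  · rintro ⟨a, b, ha, hb, rfl⟩
    exact ⟨a * c, b * c, by positivity, by positivity, by rw [rot_smul, smul_smul, smul_smul]⟩
  · rintro ⟨a, b, ha, hb, rfl⟩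
    refine ⟨a / c, b / c, by positivity, by positivity, ?_⟩
    rw [rot_smul, smul_smul, smul_smul, div_mul_cancel₀ _ hc.ne', div_mul_cancel₀ _ hc.ne']

lemma iter_smul (c : ℝ) (v : E2) (k : ℕ) : rot^[k] (c • v) = c • rot^[k] v := by
  induction k with
  | zero => rfl
  | succ k ih => rw [Function.iterate_succ_apply', Function.iterate_succ_apply', ih, rot_smul]

/-- The cross of `v`. -/
def C (R : Set E2) (P : E2) (q : Set (Set E2)) (v : E2) : Prop :=
  q = {line P v, line P (rot v)} ∧ ∀ k : ℕ, volume (R ∩ quad P (rot^[k] v)) = volume R / 4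

lemma C_rot {R : Set E2} {P : E2} {q : Set (Set E2)} {v : E2} (h : C R P q v) :
    C R P q (rot v) := by
  refine ⟨?_, fun k => ?_⟩
  · rw [rot_rot, line_neg, pair_comm]; exact h.1
  · rw [← Function.iterate_succ_apply]; exact h.2 (k + 1)

lemma C_smul {R : Set E2} {P : E2} {q : Set (Set E2)} {v : E2} {c : ℝ} (hc : 0 < c)
    (h : C R P q (c • v)) : C R P q v := by
  refine ⟨?_, fun k => ?_⟩
  · rw [h.1, rot_smul, line_smul _ _ hc, line_smul _ _ hc]
  · have := h.2 k
    rw [iter_smul, quad_smul _ _ hc] at this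
    exact this

lemma C_good {R : Set E2} {P : E2} {q : Set (Set E2)} {v : E2} (hv : v ≠ 0) (h : C R P q v) :
    ∃ w : E2, C R P q w ∧ -(w 0) ≤ w 1 ∧ w 1 < w 0 := by
  have hab : v 0 + v 1 ≠ 0 ∨ v 0 - v 1 ≠ 0 := by
    by_contra hc
    push Not at hc
    apply hv
    apply ext2
    · simp; linarith [hc.1, hc.2]
    · simp; linarith [hc.1, hc.2]
  rcases lt_or_ge 0 (v 0 - v 1) with hb | hb
  · rcases lt_or_ge (v 0 + v 1) 0 with ha | ha
    · exact ⟨rot v, C_rot h, by simp; linarith, by simp; linarith⟩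
    · exact ⟨v, h, by linarith, by linarith⟩
  · rcases lt_or_ge 0 (v 0 + v 1) with ha | ha
    · exact ⟨rot (rot (rot v)), C_rot (C_rot (C_rot h)), by simp [rot_rot]; linarith,
        by simp [rot_rot]; linarith⟩
    · rcases hb.lt_or_eq with hb' | hb'
      · exact ⟨rot (rot v), C_rot (C_rot h), by simp [rot_rot]; linarith,
          by simp [rot_rot]; linarith⟩
      · rcases ha.lt_or_eq with ha' | ha'
        · exact ⟨rot v, C_rot h, by simp; linarith, by simp; linarith⟩
        · rcases hab with h1 | h1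
          · exact absurd ha' h1
          · exact absurd hb' h1

theorem br : StmtBr := by
  intro R hR
  refine ⟨?_, ?_⟩
  · rintro O t ⟨hO, ⟨hb1, hb2⟩, hf⟩
    rw [u_rot]
    refine ⟨O, u t, hO, u_ne t, rfl, ?_⟩
    apply four R hR O (u t) (u_ne t)
    · apply vol_of_real hR (quad_meas _ _ (u_ne t))
      rw [← f_eq]; exact hf
    · rw [← u_rot]
      apply vol_of_real hR (quad_meas _ _ (u_ne _))
      rw [← f_eq]; linarith
    · rw [← u_pi]
      apply vol_of_real hR (quad_meas _ _ (u_ne _))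
      rw [← f_eq]; linarith
  · rintro q ⟨P, v, hP, hv, hq, hk⟩
    obtain ⟨w, hw, hw1, hw2⟩ := C_good hv (⟨hq, hk⟩ : C R P q v)
    have hw0 : 0 < w 0 := by linarith
    set x := w 1 / w 0 with hx
    have hx1 : x < 1 := by rw [hx, div_lt_one hw0]; exact hw2
    have hx2 : -1 ≤ x := by rw [hx, le_div_iff₀ hw0]; linarith
    set t := Real.arctan x with ht
    have ht1 : t < π / 4 := by
      rw [ht, ← Real.arctan_one]; exact Real.arctan_strictMono hx1
    have ht2 : -(π / 4) ≤ t := by
      rw [ht, ← Real.arctan_one, ← Real.arctan_neg]; exact Real.arctan_strictMono.monotone hx2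
    have hs : 0 < Real.sqrt (1 + x ^ 2) := Real.sqrt_pos.2 (by positivity)
    have hwu : w = (w 0 * Real.sqrt (1 + x ^ 2)) • u t := by
      apply ext2
      · simp [u, ht, Real.cos_arctan]
        field_simp
      · simp [u, ht, Real.sin_arctan]
        field_simp
        rw [hx]; field_simp
    have hC : C R P q (u t) := by
      apply C_smul (c := w 0 * Real.sqrt (1 + x ^ 2)) (by positivity)
      rw [← hwu]; exact hw
    have hf : ∀ k : ℕ, ∀ s : ℝ, u s = rot^[k] (u t) → f R P s = M R / 4 := by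
      intro k s hs
      have := hC.2 k
      rw [← hs] at this
      unfold f
      rw [M_eq, Measure.real, this, ENNReal.toReal_div, Measure.real]
      norm_num
    have f0 := hf 0 t rfl
    have f1 := hf 1 (t + π / 2) (by rw [u_rot]; rfl)
    have f2 := hf 2 (t + π) (by
      rw [show t + π = t + π / 2 + π / 2 by ring, u_rot, u_rot]; rfl)
    refine ⟨P, t, ht2, ht1, ⟨hP, ⟨by rw [f0, f1]; ring, by rw [f1, f2]; ring⟩, f0⟩, ?_⟩
    rw [u_rot]; exact hC.1

end Pool.Agent.T6.H7.QS.ModBr

namespace Pool.Agent.T6.H7.QS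
theorem br : StmtBr := ModBr.br
end Pool.Agent.T6.H7.QS
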