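import Pool.Agent.T6.H7.QS.Defs

set_option autoImplicit false

/-! Project QS: polygons with close vertices are close. -/

namespace Pool.Agent.T6.H7.QS

open MeasureTheory Set Pool.V11275.Quad Pool.Agent.Helper717.Hull1 Pool.Agent.Helper717.Hull2
open scoped Real

theorem close7 : StmtClose := by
  intro m w h0 δ hδ hδ1
  obtain ⟨r, hr, hball⟩ := Metric.isOpen_iff.1 isOpen_interior 0 h0
  have hball' : Metric.ball (0 : E2) r ⊆ convexHull ℝ (range w) := hball.trans interior_subset
  set P := convexHull ℝ (range w) with hP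
  have hPc : Convex ℝ P := convex_convexHull ℝ _
  have hne : (range w).Nonempty := by
    by_contra h
    rw [not_nonempty_iff_eq_empty] at h
    rw [hP, h, convexHull_empty] at h0
    simp at h0
  have : Nonempty (Fin m) := range_nonempty_iff_nonempty.1 hne
  refine ⟨δ / 4 * r, by positivity, fun v hv =>
    ⟨δ / 2, by positivity, by linarith, by linarith, ?_, ?_⟩⟩
  · intro x hx
    by_contra hno
    have hRc : IsClosed (convexHull ℝ (range v)) :=
      ((finite_range v).isCompact_convexHull (𝕜 := ℝ)).isClosed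
    obtain ⟨f, u, hf1, hf2⟩ := geometric_hahn_banach_closed_point (convex_convexHull ℝ _) hRc hno
    obtain ⟨k0, hk0⟩ := Finite.exists_max (fun k => f (w k))
    have hS : ∀ y ∈ P, f y ≤ f (w k0) := by
      intro y hy
      have hsub : P ⊆ {y | f y ≤ f (w k0)} := by
        apply convexHull_min
        · rintro _ ⟨k, rfl⟩
          exact hk0 k
        · exact convex_halfSpace_le (LinearMap.isLinear (f : E2 →ₗ[ℝ] ℝ)) _
      exact hsub hy
    have h00 : 0 ≤ f (w k0) := by
      have := hS 0 (interior_subset h0)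
      simpa using this
    have hz : ‖w k0 - v k0‖ < δ / 4 * r := by
      rw [← dist_eq_norm, dist_comm]; exact hv k0
    have hmem : (4 / δ) • (w k0 - v k0) ∈ Metric.ball (0 : E2) r := by
      rw [mem_ball_zero_iff, norm_smul, Real.norm_of_nonneg (by positivity)]
      calc 4 / δ * ‖w k0 - v k0‖ < 4 / δ * (δ / 4 * r) :=
            mul_lt_mul_of_pos_left hz (by positivity)
        _ = r := by field_simp
    have h1 := hS _ (hball' hmem)
    rw [map_smul, smul_eq_mul, div_mul_eq_mul_div, div_le_iff₀ hδ, map_sub] at h1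
    have h2 : f (v k0) < f ((1 - δ / 2) • x) :=
      (hf1 _ (subset_convexHull ℝ _ ⟨k0, rfl⟩)).trans hf2
    rw [map_smul, smul_eq_mul] at h2
    have h3 := hS x hx
    have h4 : (1 - δ / 2) * f x ≤ (1 - δ / 2) * f (w k0) :=
      mul_le_mul_of_nonneg_left h3 (by linarith)
    nlinarith
  · intro x hx
    have hconv : Convex ℝ {x : E2 | ∃ y ∈ P, x = (1 + δ / 2) • y} := by
      rintro _ ⟨y, hy, rfl⟩ _ ⟨z, hz, rfl⟩ s t hs ht hst
      exact ⟨s • y + t • z, hPc hy hz hs ht hst, by module⟩
    have hsub : convexHull ℝ (range v) ⊆ {x : E2 | ∃ y ∈ P, x = (1 + δ / 2) • y} := by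
      apply convexHull_min _ hconv
      rintro _ ⟨k, rfl⟩
      have hd : 0 < 1 + δ / 2 := by linarith
      have hmem : (2 / δ) • (v k - w k) ∈ Metric.ball (0 : E2) r := by
        rw [mem_ball_zero_iff, norm_smul, Real.norm_of_nonneg (by positivity), ← dist_eq_norm]
        calc 2 / δ * dist (v k) (w k) < 2 / δ * (δ / 4 * r) :=
              mul_lt_mul_of_pos_left (hv k) (by positivity)
          _ = r / 2 := by field_simp; ring
          _ < r := by linarith
      refine ⟨(1 / (1 + δ / 2)) • w k + (δ / 2 / (1 + δ / 2)) • ((2 / δ) • (v k - w k)),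
        hPc (subset_convexHull ℝ _ ⟨k, rfl⟩) (hball' hmem) (by positivity) (by positivity)
          (by field_simp), ?_⟩
      rw [smul_add, smul_smul, smul_smul, smul_smul]
      have e1 : (1 + δ / 2) * (1 / (1 + δ / 2)) = 1 := by field_simp
      have e2 : (1 + δ / 2) * (δ / 2 / (1 + δ / 2)) * (2 / δ) = 1 := by field_simp
      rw [e1, e2]
      module
    exact hsub hx

end Pool.Agent.T6.H7.QS
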