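import Pool.Agent.T6.H7.QS.Defs

set_option autoImplicit false

/-! Project QS: from polygons with given vertices to the statement up to similarity. -/

namespace Pool.Agent.T6.H7.QS

open MeasureTheory Set Pool.V11275.Quad Pool.Agent.Helper717.Hull1 Pool.Agent.Helper717.Hull2
open scoped Real

namespace FinM

/-- A compact convex set with finitely many extreme points is their convex hull. -/
theorem eq_hull {R : Set E2} (hc : IsCompact R) (hv : Convex ℝ R) {m : ℕ} {v : Fin m → E2}
    (h : R.extremePoints ℝ = range v) : R = convexHull ℝ (range v) := by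
  have h1 := closure_convexHull_extremePoints hc hv
  rw [h] at h1
  have h2 : IsClosed (convexHull ℝ (range v)) :=
    ((finite_range v).isCompact_convexHull (𝕜 := ℝ)).isClosed
  rw [h2.closure_eq] at h1
  exact h1.symm

theorem final (hSim : StmtSim)
    (hmain : ∀ m : ℕ, 5 ≤ m → Odd m → ∃ ε : ℝ, 0 < ε ∧ ∀ v : Fin m → E2,
      (∀ k, dist (v k) (W m k) < ε) →
      {q | IsQuadrisection (convexHull ℝ (range v)) q}.encard = (m : ℕ∞))
    (m : ℕ) (hm : 5 ≤ m) (ho : Odd m) : ∃ ε : ℝ, 0 < ε ∧ ∀ R : Set E2, IsGon m R →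
      (∃ (c : ℝ) (U : E2 ≃ₗᵢ[ℝ] E2) (b : E2) (v : Fin m → E2), 0 < c ∧
        ((fun x => c • U x + b) '' R).extremePoints ℝ = range v ∧
        ∀ k : Fin m, dist (v k) (u (2 * π * (k : ℕ) / m)) < ε) →
      {q | IsQuadrisection R q}.encard = (m : ℕ∞) := by
  obtain ⟨ε0, hε0, H⟩ := hmain m hm ho
  have hm0 : (0 : ℝ) < m := by exact_mod_cast (by omega : 0 < m)
  have hpi := Real.pi_pos
  have hcos : 0 < Real.cos (π / m) := by
    apply Real.cos_pos_of_mem_Ioo
    have h5 : (5 : ℝ) ≤ m := by exact_mod_cast hm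
    have h1 : π / m ≤ π / 5 := div_le_div_of_nonneg_left hpi.le (by norm_num) h5
    have h2 : 0 < π / m := div_pos hpi hm0
    exact ⟨by linarith, by linarith⟩
  refine ⟨ε0 * Real.cos (π / m), mul_pos hε0 hcos, ?_⟩
  rintro R ⟨⟨V, hVf, hV⟩, -, -⟩ ⟨c, U, b, v, hc, hext, hclose⟩
  set κ : ℝ := 1 / Real.cos (π / m) with hκ
  have hκ0 : 0 < κ := one_div_pos.2 hcos
  have hcont : Continuous (fun x : E2 => c • U x + b) :=
    (U.continuous.const_smul c).add continuous_const
  have hRc : IsCompact R := by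
    rw [hV]; exact hVf.isCompact_convexHull (𝕜 := ℝ)
  have hRv : Convex ℝ R := by
    rw [hV]; exact convex_convexHull ℝ _
  have hR1c : IsCompact ((fun x : E2 => c • U x + b) '' R) := hRc.image hcont
  have hR1v : Convex ℝ ((fun x : E2 => c • U x + b) '' R) := by
    rintro _ ⟨x, hx, rfl⟩ _ ⟨y, hy, rfl⟩ s t hs ht hst
    refine ⟨s • x + t • y, hRv hx hy hs ht hst, ?_⟩
    simp only [map_add, map_smul]
    have e : b = (s + t) • b := by rw [hst, one_smul]
    nth_rewrite 1 [e]
    module
  have hR1 := eq_hull hR1c hR1v hext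
  have hR2 : (fun x : E2 => (κ * c) • U x + κ • b) '' R =
      convexHull ℝ (range fun k => κ • v k) := by
    have e1 : (fun x : E2 => (κ * c) • U x + κ • b) '' R =
        (fun y : E2 => κ • y) '' ((fun x : E2 => c • U x + b) '' R) := by
      rw [image_image]
      apply image_congr
      intro x _
      rw [smul_add, smul_smul]
    have e2 : (fun y : E2 => κ • y) '' convexHull ℝ (range v) =
        convexHull ℝ ((fun y : E2 => κ • y) '' range v) :=
      (LinearMap.image_convexHull (κ • (LinearMap.id : E2 →ₗ[ℝ] E2)) (range v))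
    rw [e1, hR1, e2, ← range_comp]
    rfl
  have hq := H (fun k => κ • v k) (fun k => by
    have e : W m k = κ • u (2 * π * (k : ℕ) / m) := rfl
    rw [e, dist_smul₀, Real.norm_of_nonneg hκ0.le]
    have := mul_lt_mul_of_pos_left (hclose k) hκ0
    calc κ * dist (v k) (u (2 * π * (k : ℕ) / m)) < κ * (ε0 * Real.cos (π / m)) := this
      _ = ε0 := by rw [hκ]; field_simp)
  rw [← hR2] at hq
  rw [← hq]
  exact (hSim R (κ * c) U (κ • b) (mul_pos hκ0 hc)).symm

end FinM

end Pool.Agent.T6.H7.QS
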