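import Pool.Agent.T6.H7.QS.Defs

set_option autoImplicit false

/-!
Project QS, module FORM: the quadrants of the bisecting cross.
-/

namespace Pool.Agent.T6.H7.QS

open MeasureTheory Set Pool.V11275.Quad Pool.Agent.Helper717.Hull1 Pool.Agent.Helper717.Hull2
open scoped Real

theorem Form_int (a b c z : ℝ) :
    ∫ s in (0 : ℝ)..z, (a + b * s) / c = (a * z + b * z ^ 2 / 2) / c := by
  rw [intervalIntegral.integral_div, intervalIntegral.integral_add, intervalIntegral.integral_const,
    intervalIntegral.integral_const_mul, integral_id]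
  · simp only [sub_zero, smul_eq_mul]
    ring
  · exact intervalIntegrable_const
  · exact (continuous_const.mul continuous_id).intervalIntegrable _ _

theorem Form_body {m : ℕ} (h0 : (0 : E2) ∈ interior (P1 m)) : Body (P1 m) :=
  ⟨convex_convexHull ℝ _, Set.Finite.isCompact_convexHull (𝕜 := ℝ) (Set.finite_range _), ⟨0, h0⟩⟩

theorem Form_sg (m : ℕ) : sg m = 1 ∨ sg m = -1 := by
  unfold sg
  split_ifs <;> simp

theorem Form_h_nonneg {ω ψ : ℝ} (hω : 0 < ω) (hω' : ω ≤ π / 5) (hψ : 0 ≤ ψ) (hψ' : ψ ≤ ω / 2) :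
    0 ≤ h ω ψ := by
  have hpi := Real.pi_pos
  unfold h
  have h1 : 0 < Real.cos ω := Real.cos_pos_of_mem_Ioo ⟨by linarith, by linarith⟩
  have h2 : 0 < Real.sin (ω / 2) := Real.sin_pos_of_pos_of_lt_pi (by linarith) (by linarith)
  have h3 : Real.cos (ω / 2) ≤ Real.cos ψ :=
    Real.cos_le_cos_of_nonneg_of_le_pi hψ (by linarith) hψ'
  have h4 : 0 < Real.cos (ω / 2) := Real.cos_pos_of_mem_Ioo ⟨by linarith, by linarith⟩
  have h5 : 0 ≤ (Real.cos ψ ^ 2 - Real.cos (ω / 2) ^ 2) / Real.cos ω := by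
    apply div_nonneg _ h1.le
    nlinarith
  rw [sub_nonneg]
  apply Real.le_sqrt_of_sq_le
  rw [div_pow]
  linarith

theorem Form_u_pi (t : ℝ) : u (t + π) = -u t := by
  unfold u
  apply ext2 <;> simp [Real.cos_add_pi, Real.sin_add_pi]

theorem form (h1 : StmtShU) (h2 : StmtShV) (h3 : StmtRays) (h4 : StmtAr0) : StmtForm := by
  intro m hm hmo θ hθ hθ' x y hx hy
  have hpi := Real.pi_pos
  have hm' : (5 : ℝ) ≤ m := by exact_mod_cast hm
  have hω : 0 < π / m := by positivity
  have hω5 : π / m ≤ π / 5 := div_le_div_of_nonneg_left hpi.le (by norm_num) hm'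
  have hA : 0 ≤ Ad m θ := Form_h_nonneg hω hω5 (by linarith) (by linarith)
  have hB : 0 ≤ Bd m θ := Form_h_nonneg hω hω5 hθ hθ'
  have hR := h3 m hm hmo θ hθ hθ'
  obtain ⟨a0, a1, a2, -⟩ := h4 m hm hmo θ hθ hθ'
  have hsg := Form_sg m
  have hss : sg m * sg m = 1 := by rcases hsg with h | h <;> rw [h] <;> norm_num
  -- rays from the points of the box
  have hbox : ∀ s z : ℝ, 0 ≤ sg m * s → sg m * s ≤ Bd m θ → -Ad m θ ≤ z → z ≤ 0 →
      s • u θ + z • u (θ + π / 2) ∈ interior (P1 m) ∧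
      rho (P1 m) (s • u θ + z • u (θ + π / 2)) θ =
        (1 - s * Real.cos (gam0 m θ) - z * Real.sin (gam0 m θ)) / Real.cos (gam0 m θ) ∧
      rho (P1 m) (s • u θ + z • u (θ + π / 2)) (θ + π / 2) =
        (1 + s * Real.sin (gam1 m θ) - z * Real.cos (gam1 m θ)) / Real.cos (gam1 m θ) ∧
      rho (P1 m) (s • u θ + z • u (θ + π / 2)) (θ + π) =
        (1 + s * Real.cos (gam2 m θ) + z * Real.sin (gam2 m θ)) / Real.cos (gam2 m θ) ∧
      rho (P1 m) (s • u θ + z • u (θ + π / 2)) (θ + 3 * (π / 2)) =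
        (1 - s * Real.sin (gam3 m θ) + z * Real.cos (gam3 m θ)) / Real.cos (gam3 m θ) := by
    intro s z k1 k2 k3 k4
    have := hR (sg m * s) z k1 k2 k3 k4
    rwa [← mul_assoc, hss, one_mul] at this
  have hx1 : sg m * x = Bd m θ := by rw [hx, ← mul_assoc, hss, one_mul]
  have hsx : ∀ s ∈ uIcc 0 x, 0 ≤ sg m * s ∧ sg m * s ≤ Bd m θ := by
    intro s hs
    rcases hsg with h | h <;> rw [h] at hx hx1 ⊢
    · rw [uIcc_of_le (by linarith)] at hs
      exact ⟨by linarith [hs.1], by linarith [hs.2]⟩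
    · rw [uIcc_of_ge (by linarith)] at hs
      exact ⟨by linarith [hs.2], by linarith [hs.1]⟩
  have hsx' : ∀ s ∈ uIcc 0 (-x), 0 ≤ sg m * (-s) ∧ sg m * (-s) ≤ Bd m θ := by
    intro s hs
    apply hsx
    rcases le_total 0 x with h | h
    · rw [uIcc_of_ge (by linarith)] at hs
      rw [uIcc_of_le h]
      exact ⟨by linarith [hs.2], by linarith [hs.1]⟩
    · rw [uIcc_of_le (by linarith)] at hs
      rw [uIcc_of_ge h]
      exact ⟨by linarith [hs.2], by linarith [hs.1]⟩
  have hsy : ∀ s ∈ uIcc 0 y, -Ad m θ ≤ s ∧ s ≤ 0 := by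
    intro s hs
    rw [uIcc_of_ge (by linarith)] at hs
    exact ⟨by linarith [hs.1], hs.2⟩
  have hsy' : ∀ s ∈ uIcc 0 (-y), -Ad m θ ≤ -s ∧ -s ≤ 0 := by
    intro s hs
    rw [uIcc_of_le (by linarith)] at hs
    exact ⟨by linarith [hs.2], by linarith [hs.1]⟩
  have hxB : 0 ≤ sg m * x ∧ sg m * x ≤ Bd m θ := ⟨by rw [hx1]; exact hB, hx1.le⟩
  have hyA : -Ad m θ ≤ y ∧ y ≤ 0 := ⟨by linarith, by linarith⟩
  have i0 : (0 : E2) ∈ interior (P1 m) := by
    have := (hbox 0 0 (by simp) (by simpa using hB) (by linarith) le_rfl).1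
    simpa using this
  have hBody := Form_body i0
  have hOc : Oc m θ = x • u θ + y • u (θ + π / 2) := by rw [hx, hy]; rfl
  have ix : x • u θ ∈ interior (P1 m) := by
    have := (hbox x 0 hxB.1 hxB.2 (by linarith) le_rfl).1
    simpa using this
  have iy : y • u (θ + π / 2) ∈ interior (P1 m) := by
    have := (hbox 0 y (by simp) (by simpa using hB) hyA.1 hyA.2).1
    simpa using this
  have ixy : x • u θ + y • u (θ + π / 2) ∈ interior (P1 m) :=
    (hbox x y hxB.1 hxB.2 hyA.1 hyA.2).1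
  have u1 : u (θ + π / 2 + π / 2) = -u θ := by
    rw [show θ + π / 2 + π / 2 = θ + π by ring, Form_u_pi]
  have u2 : u (θ + π) = -u θ := Form_u_pi θ
  have u3 : u (θ + π + π / 2) = -u (θ + π / 2) := by
    rw [show θ + π + π / 2 = θ + π / 2 + π by ring, Form_u_pi]
  have hc0 : Real.cos (gam0 m θ) ≠ 0 := by
    unfold gam0
    exact (Real.cos_pos_of_mem_Ioo ⟨by linarith, by linarith⟩).ne'
  have hc2 : Real.cos (gam2 m θ) ≠ 0 := by
    unfold gam2
    exact (Real.cos_pos_of_mem_Ioo ⟨by linarith, by linarith⟩).ne'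
  have hc1 : Real.cos (gam1 m θ) ≠ 0 := by
    unfold gam1
    split_ifs
    · exact (Real.cos_pos_of_mem_Ioo ⟨by linarith, by linarith⟩).ne'
    · exact (Real.cos_pos_of_mem_Ioo ⟨by linarith, by linarith⟩).ne'
  rw [hOc]
  refine ⟨ixy, ?_, ?_, ?_⟩
  · -- first quadrant
    have e1 := h1 (P1 m) hBody 0 θ x i0 (by rw [zero_add]; exact ix)
    have e2 := h2 (P1 m) hBody (x • u θ) θ y ix ixy
    have I1 : ∫ s in (0 : ℝ)..x, rho (P1 m) (0 + s • u θ) (θ + π / 2) =
        (1 * x + Real.sin (gam1 m θ) * x ^ 2 / 2) / Real.cos (gam1 m θ) := by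
      rw [← Form_int]
      apply intervalIntegral.integral_congr
      intro s hs
      have := (hbox s 0 (hsx s hs).1 (hsx s hs).2 (by linarith) le_rfl).2.2.1
      simp only [zero_smul, add_zero] at this
      simp only [zero_add]
      rw [this]
      ring
    have I2 : ∫ s in (0 : ℝ)..y, rho (P1 m) (x • u θ + s • u (θ + π / 2)) θ =
        ((1 - x * Real.cos (gam0 m θ)) * y + (-Real.sin (gam0 m θ)) * y ^ 2 / 2) /
          Real.cos (gam0 m θ) := by
      rw [← Form_int]
      apply intervalIntegral.integral_congr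
      intro s hs
      have := (hbox x s hxB.1 hxB.2 (hsy s hs).1 (hsy s hs).2).2.1
      simp only [this]
      ring
    rw [I1, zero_add] at e1
    rw [I2, e1] at e2
    rw [e2, a0]
    field_simp
    ring
  · -- second quadrant
    have e1 := h1 (P1 m) hBody 0 (θ + π / 2) y i0 (by rw [zero_add]; exact iy)
    have e2 := h2 (P1 m) hBody (y • u (θ + π / 2)) (θ + π / 2) (-x) iy (by
      rw [u1, smul_neg, neg_smul, neg_neg, add_comm]; exact ixy)
    have I1 : ∫ s in (0 : ℝ)..y, rho (P1 m) (0 + s • u (θ + π / 2)) (θ + π / 2 + π / 2) =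
        (1 * y + Real.sin (gam2 m θ) * y ^ 2 / 2) / Real.cos (gam2 m θ) := by
      rw [← Form_int]
      apply intervalIntegral.integral_congr
      intro s hs
      have := (hbox 0 s (by simp) (by simpa using hB) (hsy s hs).1 (hsy s hs).2).2.2.2.1
      simp only [zero_smul, zero_add] at this
      simp only [zero_add]
      rw [show θ + π / 2 + π / 2 = θ + π by ring, this]
      ring
    have I2 : ∫ s in (0 : ℝ)..(-x), rho (P1 m) (y • u (θ + π / 2) + s • u (θ + π / 2 + π / 2))
        (θ + π / 2) =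
        ((1 - y * Real.cos (gam1 m θ)) * (-x) + (-Real.sin (gam1 m θ)) * (-x) ^ 2 / 2) /
          Real.cos (gam1 m θ) := by
      rw [← Form_int]
      apply intervalIntegral.integral_congr
      intro s hs
      have := (hbox (-s) y (hsx' s hs).1 (hsx' s hs).2 hyA.1 hyA.2).2.2.1
      have e : y • u (θ + π / 2) + s • u (θ + π / 2 + π / 2) =
          (-s) • u θ + y • u (θ + π / 2) := by
        rw [u1, smul_neg, neg_smul, add_comm]
      simp only [e, this]
      ring
    rw [I1, zero_add] at e1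
    rw [I2, e1, u1, smul_neg, neg_smul, neg_neg, add_comm (y • u (θ + π / 2))] at e2
    rw [e2, a1]
    field_simp
    ring
  · -- third quadrant
    have e1 := h1 (P1 m) hBody 0 (θ + π) (-x) i0 (by
      rw [zero_add, u2, smul_neg, neg_smul, neg_neg]; exact ix)
    have e2 := h2 (P1 m) hBody (x • u θ) (θ + π) (-y) ix (by
      rw [u3, smul_neg, neg_smul, neg_neg]; exact ixy)
    have I1 : ∫ s in (0 : ℝ)..(-x), rho (P1 m) (0 + s • u (θ + π)) (θ + π + π / 2) =
        (1 * (-x) + Real.sin (gam3 m θ) * (-x) ^ 2 / 2) / Real.cos (gam3 m θ) := by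
      rw [← Form_int]
      apply intervalIntegral.integral_congr
      intro s hs
      have := (hbox (-s) 0 (hsx' s hs).1 (hsx' s hs).2 (by linarith) le_rfl).2.2.2.2
      simp only [zero_smul, add_zero] at this
      simp only [zero_add]
      rw [show θ + π + π / 2 = θ + 3 * (π / 2) by ring, u2, smul_neg, ← neg_smul, this]
      ring
    have I2 : ∫ s in (0 : ℝ)..(-y), rho (P1 m) (x • u θ + s • u (θ + π + π / 2)) (θ + π) =
        ((1 + x * Real.cos (gam2 m θ)) * (-y) + (-Real.sin (gam2 m θ)) * (-y) ^ 2 / 2) /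
          Real.cos (gam2 m θ) := by
      rw [← Form_int]
      apply intervalIntegral.integral_congr
      intro s hs
      have := (hbox x (-s) hxB.1 hxB.2 (hsy' s hs).1 (hsy' s hs).2).2.2.2.1
      have e : x • u θ + s • u (θ + π + π / 2) = x • u θ + (-s) • u (θ + π / 2) := by
        rw [u3, smul_neg, neg_smul]
      simp only [e, this]
      ring
    rw [I1, zero_add, u2, smul_neg, neg_smul, neg_neg] at e1
    rw [I2, u3, smul_neg, neg_smul, neg_neg, e1] at e2
    rw [e2, a2]
    field_simp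
    ring

end Pool.Agent.T6.H7.QS
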