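import Pool.Agent.T6.H7.QS.Defs

/-!
Project QS, module HF: properties of the displacement `h`.
-/

set_option autoImplicit false

namespace Pool.Agent.T6.H7.QS

open MeasureTheory Set Pool.V11275.Quad Pool.Agent.Helper717.Hull1 Pool.Agent.Helper717.Hull2
open scoped Real

theorem hF : StmtHF := by
  intro ω θ β hω hω5 hθ hβ hsum
  have hπ : π < 3.15 := Real.pi_lt_d2
  have hω6 : ω ≤ 0.63 := by linarith
  have hθ2 : θ ≤ ω / 2 := by linarith
  have hβ2 : β ≤ ω / 2 := by linarith
  have hs0 : 0 < Real.sin (ω / 2) := Real.sin_pos_of_pos_of_lt_pi (by linarith) (by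
    have := Real.pi_gt_three; linarith)
  have hs1 : Real.sin (ω / 2) ≤ 0.315 := (Real.sin_le (by linarith)).trans (by linarith)
  have hb : 0.95 ≤ Real.cos β := by
    have := Real.one_sub_sq_div_two_le_cos (x := β)
    nlinarith
  have hc0 : 0.95 ≤ Real.cos (ω / 2) := by
    have := Real.one_sub_sq_div_two_le_cos (x := ω / 2)
    nlinarith
  have hcω : 0.8 ≤ Real.cos ω := by
    have := Real.one_sub_sq_div_two_le_cos (x := ω)
    nlinarith
  have hbc : Real.cos (ω / 2) ≤ Real.cos β :=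
    Real.cos_le_cos_of_nonneg_of_le_pi hβ (by have := Real.pi_gt_three; linarith) hβ2
  have hsθ0 : 0 ≤ Real.sin θ := Real.sin_nonneg_of_nonneg_of_le_pi hθ (by
    have := Real.pi_gt_three; linarith)
  have hsθ1 : Real.sin θ ≤ 0.315 := (Real.sin_le hθ).trans (by linarith)
  have hsd0 : 0 ≤ Real.sin (ω - θ) := Real.sin_nonneg_of_nonneg_of_le_pi (by linarith) (by
    have := Real.pi_gt_three; linarith)
  have hsd1 : Real.sin (ω - θ) ≤ 0.63 := (Real.sin_le (by linarith)).trans (by linarith)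
  have key : Real.cos β ^ 2 - Real.cos (ω / 2) ^ 2 = Real.sin θ * Real.sin (ω - θ) := by
    have e1 : θ = ω / 2 - β := by linarith
    have e2 : ω - θ = ω / 2 + β := by linarith
    rw [e2, e1, Real.sin_sub, Real.sin_add]
    have h1 := Real.sin_sq_add_cos_sq (ω / 2)
    have h2 := Real.sin_sq_add_cos_sq β
    linear_combination (-Real.cos β ^ 2) * h1 + Real.cos (ω / 2) ^ 2 * h2
  set s := Real.sin (ω / 2) with hs
  set b := Real.cos β with hbdef
  set c := Real.cos (ω / 2) with hcdef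
  set D : ℝ := (b ^ 2 - c ^ 2) / Real.cos ω with hD
  have hD0 : 0 ≤ D := by
    rw [hD, key]; positivity
  have hp0 : 0 < b / s := by positivity
  have hh : h ω β = Real.sqrt (b ^ 2 / s ^ 2 + D) - b / s := rfl
  have hsq : Real.sqrt (b ^ 2 / s ^ 2 + D) ^ 2 = b ^ 2 / s ^ 2 + D :=
    Real.sq_sqrt (by positivity)
  have h0 : 0 ≤ h ω β := by
    rw [hh, sub_nonneg]
    apply Real.le_sqrt_of_sq_le
    rw [div_pow]
    linarith
  have heq : h ω β ^ 2 + 2 * h ω β * b / s = D := by
    have h1 : Real.sqrt (b ^ 2 / s ^ 2 + D) = h ω β + b / s := by rw [hh]; ring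
    rw [h1] at hsq
    have e : (h ω β + b / s) ^ 2 = h ω β ^ 2 + 2 * h ω β * b / s + b ^ 2 / s ^ 2 := by
      rw [← div_pow]; ring
    linarith
  have hle : 2 * h ω β * b ≤ s * (Real.sin θ * Real.sin (ω - θ) / Real.cos ω) := by
    have h1 : 2 * h ω β * b / s ≤ D := by
      have := sq_nonneg (h ω β)
      linarith
    rw [div_le_iff₀ hs0, hD, key] at h1
    linarith
  have hcω0 : 0 < Real.cos ω := by linarith
  refine ⟨h0, heq, ?_, ?_⟩
  · have h1 : Real.sin θ * Real.sin (ω - θ) / Real.cos ω ≤ Real.sin θ / Real.cos ω := by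
      apply div_le_div_of_nonneg_right _ hcω0.le
      calc Real.sin θ * Real.sin (ω - θ) ≤ Real.sin θ * 1 :=
            mul_le_mul_of_nonneg_left (by linarith) hsθ0
        _ = Real.sin θ := mul_one _
    have h2 : 0 ≤ Real.sin θ / Real.cos ω := by positivity
    have h3 : s * (Real.sin θ * Real.sin (ω - θ) / Real.cos ω) ≤ Real.sin θ / Real.cos ω := by
      calc s * (Real.sin θ * Real.sin (ω - θ) / Real.cos ω) ≤ s * (Real.sin θ / Real.cos ω) :=
            mul_le_mul_of_nonneg_left h1 hs0.le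
        _ ≤ 1 * (Real.sin θ / Real.cos ω) := mul_le_mul_of_nonneg_right (by linarith) h2
        _ = _ := one_mul _
    nlinarith
  · have h1 : Real.sin θ * Real.sin (ω - θ) / Real.cos ω ≤ 0.25 := by
      rw [div_le_iff₀ hcω0]
      nlinarith
    have h2 : s * (Real.sin θ * Real.sin (ω - θ) / Real.cos ω) ≤ 0.315 * 0.25 := by
      apply mul_le_mul hs1 h1 (by positivity) (by norm_num)
    nlinarith

end Pool.Agent.T6.H7.QS
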