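import Pool.Agent.T6.H7.QS.Defs

set_option autoImplicit false

namespace Pool.Agent.T6.H7.QS

open MeasureTheory Set Pool.V11275.Quad Pool.Agent.Helper717.Hull1 Pool.Agent.Helper717.Hull2
open scoped Real

namespace ModHREP

@[simp] lemma u_zero' (t : ℝ) : u t 0 = Real.cos t := rfl
@[simp] lemma u_one' (t : ℝ) : u t 1 = Real.sin t := rfl

lemma dot_u (a b : ℝ) : dot (u a) (u b) = Real.cos (a - b) := by
  rw [Real.cos_sub]; rfl

lemma dot_smul_r (a x : E2) (c : ℝ) : dot a (c • x) = c * dot a x := by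
  simp only [dot, PiLp.smul_apply, smul_eq_mul]; ring

lemma dot_add_r (a x y : E2) : dot a (x + y) = dot a x + dot a y := by
  simp only [dot, PiLp.add_apply]; ring

lemma dot_u_le (a : ℝ) (x : E2) : dot (u a) x ≤ ‖x‖ := by
  have h1 : ‖x‖ ^ 2 = x 0 ^ 2 + x 1 ^ 2 := by
    rw [EuclideanSpace.norm_sq_eq, Fin.sum_univ_two]
    simp
  have h2 : (dot (u a) x) ^ 2 ≤ ‖x‖ ^ 2 := by
    rw [h1]
    have h3 := Real.sin_sq_add_cos_sq a
    have h4 : (dot (u a) x) ^ 2 + (Real.sin a * x 0 - Real.cos a * x 1) ^ 2 =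
        (Real.sin a ^ 2 + Real.cos a ^ 2) * (x 0 ^ 2 + x 1 ^ 2) := by
      simp only [dot, u_zero', u_one']; ring
    rw [h3, one_mul] at h4
    nlinarith [sq_nonneg (Real.sin a * x 0 - Real.cos a * x 1)]
  exact abs_le_of_sq_le_sq' h2 (norm_nonneg _) |>.2

section
variable {m : ℕ}

/-- vertices indexed by integers -/
noncomputable def Wz (m : ℕ) (k : ℤ) : E2 := (1 / Real.cos (π / m)) • u (2 * k * (π / m))

lemma u_period (t : ℝ) (q : ℤ) : u (t + q * (2 * π)) = u t := by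
  apply ext2
  · exact Real.cos_add_int_mul_two_pi t q
  · exact Real.sin_add_int_mul_two_pi t q

lemma Wz_mem (hm : 3 ≤ m) (k : ℤ) : Wz m k ∈ P1 m := by
  have hm0 : (m : ℝ) ≠ 0 := by positivity
  have hmz : (0 : ℤ) < m := by omega
  have h1 : 0 ≤ k % m := Int.emod_nonneg _ (by omega)
  have h2 : k % m < m := Int.emod_lt_of_pos _ hmz
  have h3 : ((k % m).toNat : ℤ) = k % m := Int.toNat_of_nonneg h1
  have h4 : (k % m).toNat < m := by omega
  have h5 : k = k % m + m * (k / m) := (Int.emod_add_mul_ediv k m).symm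
  have h6 : Wz m k = W m ⟨(k % m).toNat, h4⟩ := by
    unfold Wz W
    congr 1
    have e : 2 * (k : ℝ) * (π / m) = 2 * π * (((k % m).toNat : ℕ) : ℝ) / m +
        ((k / m : ℤ) : ℝ) * (2 * π) := by
      have e1 : (((k % m).toNat : ℕ) : ℝ) = ((k % m : ℤ) : ℝ) := by
        exact_mod_cast congrArg (fun z : ℤ => (z : ℝ)) h3
      have e2 : (k : ℝ) = ((k % m : ℤ) : ℝ) + (m : ℝ) * ((k / m : ℤ) : ℝ) := by
        exact_mod_cast congrArg (fun z : ℤ => (z : ℝ)) h5
      rw [e1]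
      nth_rewrite 1 [e2]
      field_simp
    rw [e, u_period]
  rw [h6]
  exact subset_convexHull ℝ _ ⟨_, rfl⟩

lemma w_facts (hm : 3 ≤ m) : 0 < π / m ∧ π / m ≤ π / 3 ∧ 0 < Real.cos (π / m) ∧
    0 < Real.sin (π / m) := by
  have hm3 : (3 : ℝ) ≤ m := by exact_mod_cast hm
  have hpi := Real.pi_pos
  have h1 : 0 < π / m := by positivity
  have h2 : π / m ≤ π / 3 := div_le_div_of_nonneg_left hpi.le (by norm_num) hm3
  refine ⟨h1, h2, Real.cos_pos_of_mem_Ioo ⟨by linarith, by linarith⟩,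
    Real.sin_pos_of_pos_of_lt_pi h1 (by linarith)⟩

lemma cos_odd_le (hm : 3 ≤ m) (l : ℤ) (hl : Odd l) :
    Real.cos (l * (π / m)) ≤ Real.cos (π / m) := by
  obtain ⟨h1, h2, _, _⟩ := w_facts hm
  have hm0 : (0 : ℝ) < m := by positivity
  have hmz : (0 : ℤ) < 2 * m := by omega
  obtain ⟨q, hq⟩ : ∃ q : ℤ, q = (l + m) / (2 * m) := ⟨_, rfl⟩
  have e1 : (l + m) % (2 * m) + 2 * m * q = l + m := by
    rw [hq]; exact Int.emod_add_mul_ediv _ _
  have e2 : 0 ≤ (l + m) % (2 * m) := Int.emod_nonneg _ (by omega)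
  have e3 : (l + m) % (2 * m) < 2 * m := Int.emod_lt_of_pos _ hmz
  obtain ⟨l', hl'⟩ : ∃ l' : ℤ, l' = l - 2 * m * q := ⟨_, rfl⟩
  have b1 : -(m : ℤ) ≤ l' := by rw [hl']; omega
  have b2 : l' ≤ m := by rw [hl']; omega
  have b3 : l' ≠ 0 := by
    intro h
    obtain ⟨r, hr⟩ := hl
    have : 2 * r + 1 = 2 * (m * q) := by
      have h0 : l - 2 * m * q = 0 := by rw [← hl', h]
      rw [← hr]
      linarith
    omega
  have e4 : (l : ℝ) * (π / m) = l' * (π / m) + q * (2 * π) := by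
    have : (l : ℝ) = l' + 2 * m * q := by
      have : l = l' + 2 * m * q := by rw [hl']; ring
      exact_mod_cast congrArg (fun z : ℤ => (z : ℝ)) this
    rw [this]
    field_simp
  rw [e4, Real.cos_add_int_mul_two_pi, ← Real.cos_abs ((l' : ℝ) * (π / m))]
  have h3 : (1 : ℝ) ≤ |(l' : ℝ)| := by
    have : (1 : ℤ) ≤ |l'| := Int.one_le_abs b3
    exact_mod_cast this
  have h4 : |(l' : ℝ)| ≤ m := by
    rw [abs_le]
    constructor
    · exact_mod_cast b1
    · exact_mod_cast b2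
  rw [abs_mul, abs_of_pos h1]
  apply Real.cos_le_cos_of_nonneg_of_le_pi h1.le
  · calc |(l' : ℝ)| * (π / m) ≤ m * (π / m) := mul_le_mul_of_nonneg_right h4 h1.le
      _ = π := by field_simp
  · nlinarith

lemma sub1 (hm : 3 ≤ m) : P1 m ⊆ {x | ∀ j : ℤ, dot (u ((2 * j + 1) * (π / m))) x ≤ 1} := by
  obtain ⟨h1, h2, h3, _⟩ := w_facts hm
  apply convexHull_min
  · rintro _ ⟨k, rfl⟩ j
    unfold W
    rw [dot_smul_r, dot_u, one_div, inv_mul_le_iff₀ h3, mul_one]
    have e : (2 * (j : ℝ) + 1) * (π / m) - 2 * π * ((k : ℕ) : ℝ) / m =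
        ((2 * j + 1 - 2 * (k : ℕ) : ℤ) : ℝ) * (π / m) := by
      push_cast
      ring
    rw [e]
    apply cos_odd_le hm
    exact ⟨j - (k : ℕ), by ring⟩
  · intro x hx y hy s t hs ht hst j
    rw [dot_add_r, dot_smul_r, dot_smul_r]
    have a1 := mul_le_mul_of_nonneg_left (hx j) hs
    have a2 := mul_le_mul_of_nonneg_left (hy j) ht
    linarith

lemma conv (m : ℕ) : Convex ℝ (P1 m) := convex_convexHull ℝ _

/-- the points of the edges -/
lemma edge (hm : 3 ≤ m) (j : ℤ) (Y : E2) (h : dot (u ((2 * j + 1) * (π / m))) Y = 1)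
    (hs : |dot (u ((2 * j + 1) * (π / m) + π / 2)) Y| ≤ Real.tan (π / m)) : Y ∈ P1 m := by
  obtain ⟨h1, h2, h3, h4⟩ := w_facts hm
  obtain ⟨ν, hν⟩ : ∃ ν : ℝ, ν = (2 * j + 1) * (π / m) := ⟨_, rfl⟩
  obtain ⟨s, hsd⟩ : ∃ s : ℝ, s = dot (u (ν + π / 2)) Y := ⟨_, rfl⟩
  rw [← hν] at h hs
  rw [← hsd] at hs
  have htan : 0 < Real.tan (π / m) := by
    rw [Real.tan_eq_sin_div_cos]; positivity
  obtain ⟨hs1, hs2⟩ := abs_le.1 hs
  have key : Y = ((1 - s / Real.tan (π / m)) / 2) • Wz m j +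
      ((1 + s / Real.tan (π / m)) / 2) • Wz m (j + 1) := by
    have e1 : 2 * (j : ℝ) * (π / m) = ν - π / m := by rw [hν]; ring
    have e2 : 2 * ((j + 1 : ℤ) : ℝ) * (π / m) = ν + π / m := by rw [hν]; push_cast; ring
    have hsc := Real.sin_sq_add_cos_sq ν
    have k1 : Y 0 * Real.cos ν + Y 1 * Real.sin ν = 1 := by
      rw [← h]; simp only [dot, u_zero', u_one']; ring
    have k2 : -Y 0 * Real.sin ν + Y 1 * Real.cos ν = s := by
      rw [hsd]
      simp only [dot, u_zero', u_one', Real.cos_add_pi_div_two, Real.sin_add_pi_div_two]; ring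
    have k3 : Y 0 = Real.cos ν - s * Real.sin ν := by
      have : Y 0 * (Real.sin ν ^ 2 + Real.cos ν ^ 2) = Real.cos ν - s * Real.sin ν := by
        rw [← k2]
        linear_combination Real.cos ν * k1
      rw [hsc, mul_one] at this
      exact this
    have k4 : Y 1 = Real.sin ν + s * Real.cos ν := by
      have : Y 1 * (Real.sin ν ^ 2 + Real.cos ν ^ 2) = Real.sin ν + s * Real.cos ν := by
        rw [← k2]
        linear_combination Real.sin ν * k1
      rw [hsc, mul_one] at this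
      exact this
    unfold Wz
    rw [e1, e2, Real.tan_eq_sin_div_cos]
    apply ext2
    · simp only [PiLp.add_apply, PiLp.smul_apply, smul_eq_mul, u_zero', Real.cos_sub,
        Real.cos_add, k3]
      field_simp
      ring
    · simp only [PiLp.add_apply, PiLp.smul_apply, smul_eq_mul, u_one', Real.sin_sub,
        Real.sin_add, k4]
      field_simp
      ring
  rw [key]
  apply conv m (Wz_mem hm j) (Wz_mem hm (j + 1))
  · have : s / Real.tan (π / m) ≤ 1 := by rw [div_le_one htan]; exact hs2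
    linarith
  · have : -1 ≤ s / Real.tan (π / m) := by rw [le_div_iff₀ htan]; linarith
    linarith
  · ring

lemma zero_mem (hm : 3 ≤ m) (ho : Odd m) : (0 : E2) ∈ P1 m := by
  obtain ⟨h1, h2, h3, h4⟩ := w_facts hm
  obtain ⟨r, hr⟩ := ho
  have hm0 : (0 : ℝ) < m := by positivity
  have hπ : (2 * ((r : ℤ) : ℝ) + 1) * (π / m) = π := by
    have : (m : ℝ) = 2 * ((r : ℤ) : ℝ) + 1 := by
      rw [hr]; push_cast; ring
    rw [← this]
    field_simp
  have hM : u π ∈ P1 m := by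
    apply edge hm (r : ℤ)
    · rw [hπ, dot_u, sub_self, Real.cos_zero]
    · rw [hπ, dot_u, add_sub_cancel_left, Real.cos_pi_div_two, abs_zero,
        Real.tan_eq_sin_div_cos]
      positivity
  have h0 := Wz_mem hm 0
  have key : (0 : E2) = (Real.cos (π / m) / (1 + Real.cos (π / m))) • Wz m 0 +
      (1 / (1 + Real.cos (π / m))) • u π := by
    unfold Wz
    apply ext2
    · simp only [PiLp.zero_apply, PiLp.add_apply, PiLp.smul_apply, smul_eq_mul, u_zero',
        Int.cast_zero, mul_zero, zero_mul, Real.cos_zero, Real.cos_pi]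
      field_simp
      ring
    · simp only [PiLp.zero_apply, PiLp.add_apply, PiLp.smul_apply, smul_eq_mul, u_one',
        Int.cast_zero, mul_zero, zero_mul, Real.sin_zero, Real.sin_pi]
      ring
  rw [key]
  apply conv m h0 hM (by positivity) (by positivity)
  field_simp
  ring

lemma sub2 (hm : 3 ≤ m) (ho : Odd m) :
    {x | ∀ j : ℤ, dot (u ((2 * j + 1) * (π / m))) x ≤ 1} ⊆ P1 m := by
  obtain ⟨h1, h2, h3, h4⟩ := w_facts hm
  intro x hx
  obtain ⟨r, τ, hr, hx0, hx1⟩ : ∃ r τ : ℝ, 0 ≤ r ∧ x 0 = r * Real.cos τ ∧ x 1 = r * Real.sin τ :=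
    ⟨‖(⟨x 0, x 1⟩ : ℂ)‖, Complex.arg ⟨x 0, x 1⟩, norm_nonneg _,
      (Complex.norm_mul_cos_arg ⟨x 0, x 1⟩).symm, (Complex.norm_mul_sin_arg ⟨x 0, x 1⟩).symm⟩
  obtain ⟨w, hw⟩ : ∃ w : ℝ, w = π / m := ⟨_, rfl⟩
  rw [← hw] at h1 h2 h3 h4
  have hpi := Real.pi_pos
  obtain ⟨k, hk⟩ : ∃ k : ℤ, k = ⌊τ / (2 * w)⌋ := ⟨_, rfl⟩
  have k1 : 2 * k * w ≤ τ := by
    have := Int.floor_le (τ / (2 * w))
    rw [le_div_iff₀ (by positivity), ← hk] at this
    linarith
  have k2 : τ ≤ 2 * (k + 1) * w := by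
    have := (Int.lt_floor_add_one (τ / (2 * w))).le
    rw [div_le_iff₀ (by positivity), ← hk] at this
    linarith
  have hs2 : 0 < Real.sin (2 * w) := Real.sin_pos_of_pos_of_lt_pi (by positivity) (by linarith)
  have hA : 0 ≤ Real.sin (2 * (k + 1) * w - τ) :=
    Real.sin_nonneg_of_nonneg_of_le_pi (by linarith) (by nlinarith)
  have hB : 0 ≤ Real.sin (τ - 2 * k * w) :=
    Real.sin_nonneg_of_nonneg_of_le_pi (by linarith) (by nlinarith)
  have hcon := hx k
  rw [← hw] at hcon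
  have hcon' : r * Real.cos (τ - (2 * k + 1) * w) ≤ 1 := by
    have : dot (u ((2 * k + 1) * w)) x = r * Real.cos (τ - (2 * k + 1) * w) := by
      simp only [dot, u_zero', u_one', hx0, hx1, Real.cos_sub]; ring
    rwa [this] at hcon
  obtain ⟨al, hal⟩ : ∃ al : ℝ, al = r * Real.cos w * Real.sin (2 * (k + 1) * w - τ) /
    Real.sin (2 * w) := ⟨_, rfl⟩
  obtain ⟨be, hbe⟩ : ∃ be : ℝ, be = r * Real.cos w * Real.sin (τ - 2 * k * w) /
    Real.sin (2 * w) := ⟨_, rfl⟩
  have hal0 : 0 ≤ al := by rw [hal]; positivity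
  have hbe0 : 0 ≤ be := by rw [hbe]; positivity
  -- angles relative to the middle
  obtain ⟨σ, hσ⟩ : ∃ σ : ℝ, σ = τ - (2 * k + 1) * w := ⟨_, rfl⟩
  have eA : 2 * (k + 1) * w - τ = w - σ := by rw [hσ]; ring
  have eB : τ - 2 * k * w = w + σ := by rw [hσ]; ring
  rw [eA] at hal
  rw [eB] at hbe
  rw [← hσ] at hcon'
  rw [Real.sin_two_mul] at hal hbe hs2
  have hsum : al + be ≤ 1 := by
    have : al + be = r * Real.cos σ := by
      rw [hal, hbe, Real.sin_sub, Real.sin_add]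
      field_simp
      ring
    rw [this]; exact hcon'
  have hτ : τ = (2 * k + 1) * w + σ := by rw [hσ]; ring
  have hWk : Wz m k = (1 / Real.cos w) • u ((2 * k + 1) * w - w) := by
    unfold Wz
    rw [← hw]
    congr 2
    ring
  have hWk1 : Wz m (k + 1) = (1 / Real.cos w) • u ((2 * k + 1) * w + w) := by
    unfold Wz
    rw [← hw]
    congr 2
    push_cast
    ring
  have key : x = al • Wz m k + be • Wz m (k + 1) + (1 - al - be) • (0 : E2) := by
    rw [hWk, hWk1, smul_zero, add_zero, hal, hbe]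
    generalize (2 * (k : ℝ) + 1) * w = ν at *
    have hsc := Real.sin_sq_add_cos_sq w
    apply ext2
    · rw [hx0, hτ]
      simp only [PiLp.add_apply, PiLp.smul_apply, smul_eq_mul, u_zero', Real.cos_sub,
        Real.cos_add, Real.sin_sub, Real.sin_add]
      field_simp
      ring
    · rw [hx1, hτ]
      simp only [PiLp.add_apply, PiLp.smul_apply, smul_eq_mul, u_one', Real.cos_sub,
        Real.cos_add, Real.sin_sub, Real.sin_add]
      field_simp
      ring
  rw [key]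
  have := (conv m).sum_mem (t := Finset.univ) (w := ![al, be, 1 - al - be])
    (z := ![Wz m k, Wz m (k + 1), 0]) (by
      intro i _
      fin_cases i
      · exact hal0
      · exact hbe0
      · show 0 ≤ 1 - al - be
        linarith) (by
      rw [Fin.sum_univ_three]
      simp only [Matrix.cons_val_zero, Matrix.cons_val_one, Matrix.cons_val]
      ring) (by
      intro i _
      fin_cases i
      · exact Wz_mem hm k
      · exact Wz_mem hm (k + 1)
      · exact zero_mem hm ho)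
  rw [Fin.sum_univ_three] at this
  exact this

end

end ModHREP

open ModHREP in
theorem hrep : StmtHrep := by
  intro m hm ho
  have h1 : P1 m = {x | ∀ j : ℤ, dot (u ((2 * j + 1) * (π / m))) x ≤ 1} :=
    Subset.antisymm (sub1 hm) (sub2 hm ho)
  have h2 : Metric.ball (0 : E2) 1 ⊆ interior (P1 m) := by
    apply interior_maximal _ Metric.isOpen_ball
    rw [h1]
    intro x hx j
    rw [mem_ball_zero_iff] at hx
    exact (dot_u_le _ x).trans hx.le
  refine ⟨h1, ⟨conv m, ?_, ⟨0, h2 (Metric.mem_ball_self one_pos)⟩⟩, h2,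
    fun j Y h hs => edge hm j Y h hs⟩
  exact Set.Finite.isCompact_convexHull ℝ (finite_range (W m))

end Pool.Agent.T6.H7.QS
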