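import Pool.Agent.T6.H7.QS.Defs

/-!
Project QS, module INEQ: the inequality for the area of the first quadrant.
-/

set_option autoImplicit false

namespace Pool.Agent.T6.H7.QS

open MeasureTheory Set Pool.V11275.Quad Pool.Agent.Helper717.Hull1 Pool.Agent.Helper717.Hull2
open scoped Real

namespace ModIneq

/-- the data of one displacement -/
theorem one {ω θ β A s : ℝ} (hω6 : ω ≤ 0.63) (hθ : 0 < θ) (hβ : 0 < β)
    (hsum : θ + β = ω / 2) (hs0 : 0 < s) (hs1 : s ≤ 0.315) (hA0 : 0 ≤ A) (hA1 : A ≤ 1 / 4)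
    (h : A ^ 2 + 2 * A * Real.cos β / s = (Real.cos β ^ 2 - Real.cos (ω / 2) ^ 2) / Real.cos ω) :
    s * (Real.sin θ * Real.sin (ω - θ)) / Real.cos ω ≤ 2.08 * A ∧
      1.9 * A ≤ s * (Real.sin θ * Real.sin (ω - θ)) / Real.cos ω := by
  have hb : 0.95 ≤ Real.cos β := by
    have := Real.one_sub_sq_div_two_le_cos (x := β)
    nlinarith
  have hb1 := Real.cos_le_one β
  have key : Real.cos β ^ 2 - Real.cos (ω / 2) ^ 2 = Real.sin θ * Real.sin (ω - θ) := by
    have e1 : θ = ω / 2 - β := by linarith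
    have e2 : ω - θ = ω / 2 + β := by linarith
    rw [e2, e1, Real.sin_sub, Real.sin_add]
    have h1 := Real.sin_sq_add_cos_sq (ω / 2)
    have h2 := Real.sin_sq_add_cos_sq β
    linear_combination (-Real.cos β ^ 2) * h1 + Real.cos (ω / 2) ^ 2 * h2
  rw [key] at h
  have h1 : A * (s * A + 2 * Real.cos β) =
      s * (Real.sin θ * Real.sin (ω - θ)) / Real.cos ω := by
    rw [mul_div_assoc, ← h]
    field_simp
  rw [← h1]
  have hsA : s * A ≤ 0.08 := by nlinarith
  have hsA0 : 0 ≤ s * A := by positivity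
  constructor
  · nlinarith
  · nlinarith

end ModIneq

open ModIneq in
theorem ineq (hHF : StmtHF) : StmtIneq := by
  intro ω θ β hω hω5 hθ hβ hsum
  have hπ : π < 3.15 := Real.pi_lt_d2
  have hω6 : ω ≤ 0.63 := by linarith
  have hθ2 : θ ≤ ω / 2 := by linarith
  have hβ2 : β ≤ ω / 2 := by linarith
  have hs0 : 0 < Real.sin (ω / 2) := Real.sin_pos_of_pos_of_lt_pi (by linarith) (by
    have := Real.pi_gt_three; linarith)
  have hs1 : Real.sin (ω / 2) ≤ 0.315 := (Real.sin_le (by linarith)).trans (by linarith)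
  have hc0 : 0.95 ≤ Real.cos (ω / 2) := by
    have := Real.one_sub_sq_div_two_le_cos (x := ω / 2)
    nlinarith
  have hcω : 0.8 ≤ Real.cos ω := by
    have := Real.one_sub_sq_div_two_le_cos (x := ω)
    nlinarith
  have hsθ0 : 0 < Real.sin θ := Real.sin_pos_of_pos_of_lt_pi hθ (by
    have := Real.pi_gt_three; linarith)
  have hsβ0 : 0 < Real.sin β := Real.sin_pos_of_pos_of_lt_pi hβ (by
    have := Real.pi_gt_three; linarith)
  have hd0 : 0 < Real.sin (ω - θ) := Real.sin_pos_of_pos_of_lt_pi (by linarith) (by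
    have := Real.pi_gt_three; linarith)
  have hd1 : Real.sin (ω - θ) ≤ 0.63 := (Real.sin_le (by linarith)).trans (by linarith)
  have hd0' : 0 < Real.sin (ω - β) := Real.sin_pos_of_pos_of_lt_pi (by linarith) (by
    have := Real.pi_gt_three; linarith)
  have hd1' : Real.sin (ω - β) ≤ 0.63 := (Real.sin_le (by linarith)).trans (by linarith)
  obtain ⟨a0, a1, -, a2⟩ := hHF ω θ β hω hω5 hθ.le hβ.le hsum
  obtain ⟨b0, b1, -, b2⟩ := hHF ω β θ hω hω5 hβ.le hθ.le (by linarith)
  obtain ⟨A1, A2⟩ := one hω6 hθ hβ hsum hs0 hs1 a0 a2 a1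
  obtain ⟨B1, B2⟩ := one hω6 hβ hθ (by linarith) hs0 hs1 b0 b2 b1
  -- the sum of the two sines
  have hsumsin : 2.9 * Real.sin (ω / 2) ≤ Real.sin (ω - θ) + Real.sin (ω - β) := by
    have e1 : ω - θ = 3 * ω / 4 + (β - θ) / 2 := by linarith
    have e2 : ω - β = 3 * ω / 4 - (β - θ) / 2 := by linarith
    have e3 : Real.sin (ω - θ) + Real.sin (ω - β) =
        2 * Real.sin (3 * ω / 4) * Real.cos ((β - θ) / 2) := by
      rw [e1, e2, Real.sin_add, Real.sin_sub]; ring
    have e4 : 2 * Real.sin (3 * ω / 4) * Real.cos (ω / 4) =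
        Real.sin (ω / 2) * (2 * Real.cos (ω / 2) + 1) := by
      have e5 : Real.sin ω + Real.sin (ω / 2) =
          2 * Real.sin (3 * ω / 4) * Real.cos (ω / 4) := by
        have e6 : ω = 3 * ω / 4 + ω / 4 := by ring
        have e7 : ω / 2 = 3 * ω / 4 - ω / 4 := by ring
        rw [e7, Real.sin_sub]
        nth_rw 1 [e6]
        rw [Real.sin_add]
        ring
      rw [← e5]
      have e8 : Real.sin ω = 2 * Real.sin (ω / 2) * Real.cos (ω / 2) := by
        rw [← Real.sin_two_mul]; congr 1; ring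
      rw [e8]; ring
    have h3 : 0 ≤ Real.sin (3 * ω / 4) := Real.sin_nonneg_of_nonneg_of_le_pi (by linarith) (by
      have := Real.pi_gt_three; linarith)
    have h4 : Real.cos (ω / 4) ≤ Real.cos ((β - θ) / 2) := by
      rw [← Real.cos_abs ((β - θ) / 2)]
      apply Real.cos_le_cos_of_nonneg_of_le_pi (abs_nonneg _) (by
        have := Real.pi_gt_three; linarith)
      rw [abs_le]; constructor <;> linarith
    rw [e3]
    calc 2.9 * Real.sin (ω / 2) ≤ Real.sin (ω / 2) * (2 * Real.cos (ω / 2) + 1) := by nlinarith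
      _ = 2 * Real.sin (3 * ω / 4) * Real.cos (ω / 4) := e4.symm
      _ ≤ _ := mul_le_mul_of_nonneg_left h4 (by positivity)
  set s := Real.sin (ω / 2) with hs
  set A := h ω β with hA
  set B := h ω θ with hB
  set x := Real.sin θ with hx
  set y := Real.sin β with hy
  set p := Real.sin (ω - θ) with hp
  set q := Real.sin (ω - β) with hq
  have hcω0 : 0 < Real.cos ω := by linarith
  set X : ℝ := s * y * x / Real.cos ω with hX
  have hX0 : 0 < X := by positivity
  have t1 : X * p ≤ 2.08 * (A * y) := by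
    have := mul_le_mul_of_nonneg_right A1 hsβ0.le
    have e : s * (x * p) / Real.cos ω * y = X * p := by rw [hX]; ring
    rw [e] at this
    linarith
  have t2 : X * q ≤ 2.08 * (B * x) := by
    have := mul_le_mul_of_nonneg_right B1 hsθ0.le
    have e : s * (y * q) / Real.cos ω * x = X * q := by rw [hX]; ring
    rw [e] at this
    linarith
  have t3 : X * (2.9 * s) ≤ 2.08 * (A * y + B * x) := by
    have := mul_le_mul_of_nonneg_left hsumsin hX0.le
    linarith
  have t4 : 2.9 / 2.08 * X ≤ (A * y + B * x) / s := by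
    rw [le_div_iff₀ hs0]
    linarith
  have t5 : (1.9 * A) * (1.9 * B) ≤ X * 0.16 := by
    have h1 := mul_le_mul A2 B2 (by positivity) (by positivity)
    have e : s * (x * p) / Real.cos ω * (s * (y * q) / Real.cos ω) =
        X * (s * p * q / Real.cos ω) := by rw [hX]; ring
    rw [e] at h1
    refine h1.trans (mul_le_mul_of_nonneg_left ?_ hX0.le)
    rw [div_le_iff₀ hcω0]
    have h2 : s * p ≤ 0.315 * 0.63 := mul_le_mul hs1 hd1 hd0.le (by norm_num)
    have h3 : s * p * q ≤ 0.315 * 0.63 * 0.63 := mul_le_mul h2 hd1' hd0'.le (by norm_num)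
    linarith
  have t6 : A * B ≤ 0.1 * X := by linarith
  linarith

end Pool.Agent.T6.H7.QS
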