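import Pool.Agent.T6.H7.QS.Defs

set_option autoImplicit false

/-!
Module LOC: near a non-degenerate cross there is at most one quadrisection.
-/

namespace Pool.Agent.T6.H7.QS

open MeasureTheory Set Filter Topology Pool.V11275.Quad Pool.Agent.Helper717.Hull1
  Pool.Agent.Helper717.Hull2
open scoped Real

namespace ModLoc

lemma norm_sq (X : E2) : ‖X‖ ^ 2 = X 0 ^ 2 + X 1 ^ 2 := by
  rw [EuclideanSpace.norm_eq, Real.sq_sqrt (by positivity), Fin.sum_univ_two]
  simp

lemma norm_u (t : ℝ) : ‖u t‖ = 1 := by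
  have h := norm_sq (u t)
  have h2 : (u t) 0 ^ 2 + (u t) 1 ^ 2 = 1 := by
    simp [u, Real.cos_sq_add_sin_sq]
  rw [h2] at h
  nlinarith [norm_nonneg (u t)]

lemma u_add_pi (t : ℝ) : u (t + π) = -u t := by
  apply ext2 <;> simp [u, Real.cos_add_pi, Real.sin_add_pi]

lemma decomp (t : ℝ) (X : E2) :
    X = dot (u t) X • u t + dot (u (t + π / 2)) X • u (t + π / 2) := by
  have h := Real.sin_sq_add_cos_sq t
  apply ext2
  · simp only [u, dot, Real.cos_add_pi_div_two, Real.sin_add_pi_div_two, PiLp.add_apply,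
      PiLp.smul_apply, smul_eq_mul]
    simp
    linear_combination (-(X 0)) * h
  · simp only [u, dot, Real.cos_add_pi_div_two, Real.sin_add_pi_div_two, PiLp.add_apply,
      PiLp.smul_apply, smul_eq_mul]
    simp
    linear_combination (-(X 1)) * h

lemma abs_dot_le (t : ℝ) (X : E2) : |dot (u t) X| ≤ ‖X‖ := by
  apply abs_le_of_sq_le_sq _ (norm_nonneg X)
  rw [norm_sq]
  have h := Real.sin_sq_add_cos_sq t
  simp only [u, dot]
  simp
  nlinarith [sq_nonneg (Real.cos t * X 1 - Real.sin t * X 0)]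

/-- an interval integral of a function close to a constant -/
lemma int_close {g : ℝ → ℝ} (a b c η : ℝ) (hg : ContinuousOn g (uIcc a b))
    (h : ∀ s ∈ uIcc a b, |g s - c| ≤ η) : |(∫ s in a..b, g s) - (b - a) * c| ≤ η * |b - a| := by
  have h1 : (b - a) * c = ∫ _ in a..b, c := by
    rw [intervalIntegral.integral_const, smul_eq_mul]
  rw [h1, ← intervalIntegral.integral_sub hg.intervalIntegrable intervalIntegrable_const,
    ← Real.norm_eq_abs]
  apply intervalIntegral.norm_integral_le_of_norm_le_const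
  intro s hs
  rw [Real.norm_eq_abs]
  exact h s (uIoc_subset_uIcc hs)

lemma rho_cont (h2 : StmtRhoC) {R : Set E2} (hR : Body R) {O : E2} (hO : O ∈ interior R) :
    Continuous (fun s : ℝ => rho R O s) := by
  rw [← continuousOn_univ]
  exact (h2 R hR).comp (f := fun s : ℝ => (O, s)) (by fun_prop) (fun s _ => ⟨hO, mem_univ _⟩)

lemma stepA (h2 : StmtRhoC) (h3 : StmtPol) {R : Set E2} (hR : Body R) {O : E2}
    (hO : O ∈ interior R) (t t' c ra rb B η : ℝ) (hη1 : η ≤ 1)
    (ha0 : 0 < ra) (hb0 : 0 < rb) (haB : ra + 1 ≤ B) (hbB : rb + 1 ≤ B)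
    (ha : ∀ s ∈ uIcc t' t, |rho R O (s + c) - ra| ≤ η)
    (hb : ∀ s ∈ uIcc t' t, |rho R O (s + c + π / 2) - rb| ≤ η) :
    |f R O (t' + c) - f R O (t + c) - (t' - t) * (rb ^ 2 - ra ^ 2) / 2| ≤
      2 * B * η * |t' - t| := by
  have hc := rho_cont h2 hR hO
  have hη : 0 ≤ η := (abs_nonneg _).trans (ha t' left_mem_uIcc)
  have hg : Continuous (fun s : ℝ => rho R O s ^ 2 / 2) := by fun_prop
  have hi : ∀ a b : ℝ, IntervalIntegrable (fun s : ℝ => rho R O s ^ 2 / 2) volume a b :=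
    fun a b => hg.intervalIntegrable a b
  rw [h3 R hR O hO, h3 R hR O hO]
  rw [intervalIntegral.integral_interval_sub_interval_comm (hi _ _) (hi _ _) (hi _ _)]
  have sq : ∀ r : ℝ, 0 < r → r + 1 ≤ B → ∀ x : ℝ, |x - r| ≤ η →
      |x ^ 2 / 2 - r ^ 2 / 2| ≤ B * η := by
    intro r hr hrB x hx
    have e : x ^ 2 / 2 - r ^ 2 / 2 = (x - r) * ((x - r) / 2 + r) := by ring
    rw [e, abs_mul, mul_comm]
    apply mul_le_mul _ hx (abs_nonneg _) (by linarith)
    rw [abs_le] at hx ⊢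
    constructor <;> linarith [hx.1, hx.2]
  have k1 := int_close (t' + c) (t + c) (ra ^ 2 / 2) (B * η) hg.continuousOn (by
    intro s hs
    apply sq ra ha0 haB
    have hs' : s - c ∈ uIcc t' t := by
      rw [mem_uIcc] at hs ⊢
      rcases hs with ⟨h1, h2⟩ | ⟨h1, h2⟩
      · left; constructor <;> linarith
      · right; constructor <;> linarith
    have := ha _ hs'
    rwa [sub_add_cancel] at this)
  have k2 := int_close (t' + c + π / 2) (t + c + π / 2) (rb ^ 2 / 2) (B * η) hg.continuousOn (by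
    intro s hs
    apply sq rb hb0 hbB
    have hs' : s - π / 2 - c ∈ uIcc t' t := by
      rw [mem_uIcc] at hs ⊢
      rcases hs with ⟨h1, h2⟩ | ⟨h1, h2⟩
      · left; constructor <;> linarith
      · right; constructor <;> linarith
    have := hb _ hs'
    rwa [sub_add_cancel, sub_add_cancel] at this)
  have e1 : |t + c - (t' + c)| = |t' - t| := by rw [abs_sub_comm]; congr 1; ring
  have e2 : |t + c + π / 2 - (t' + c + π / 2)| = |t' - t| := by
    rw [abs_sub_comm]; congr 1; ring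
  rw [e1] at k1
  rw [e2] at k2
  rw [abs_le] at *
  constructor
  · linarith [k1.1, k1.2, k2.1, k2.2]
  · linarith [k1.1, k1.2, k2.1, k2.2]

lemma stepU (h2 : StmtRhoC) (h4 : StmtShU) {R : Set E2} (hR : Body R) (O : E2) (t x r η : ℝ)
    (hseg : ∀ s ∈ uIcc 0 x, O + s • u t ∈ interior R ∧
      |rho R (O + s • u t) (t + π / 2) - r| ≤ η) :
    |f R (O + x • u t) t - f R O t + x * r| ≤ η * |x| := by
  have hO : O ∈ interior R := by simpa using (hseg 0 left_mem_uIcc).1
  rw [h4 R hR O t x hO (hseg x right_mem_uIcc).1]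
  have hc : ContinuousOn (fun s : ℝ => rho R (O + s • u t) (t + π / 2)) (uIcc 0 x) :=
    (h2 R hR).comp (f := fun s : ℝ => (O + s • u t, t + π / 2)) (by fun_prop)
      (fun s hs => ⟨(hseg s hs).1, mem_univ _⟩)
  have k := int_close 0 x r η hc (fun s hs => (hseg s hs).2)
  rw [sub_zero] at k
  rw [abs_le] at *
  constructor <;> linarith [k.1, k.2]

lemma stepV (h2 : StmtRhoC) (h5 : StmtShV) {R : Set E2} (hR : Body R) (O : E2) (t y r η : ℝ)
    (hseg : ∀ s ∈ uIcc 0 y, O + s • u (t + π / 2) ∈ interior R ∧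
      |rho R (O + s • u (t + π / 2)) t - r| ≤ η) :
    |f R (O + y • u (t + π / 2)) t - f R O t + y * r| ≤ η * |y| := by
  have hO : O ∈ interior R := by simpa using (hseg 0 left_mem_uIcc).1
  rw [h5 R hR O t y hO (hseg y right_mem_uIcc).1]
  have hc : ContinuousOn (fun s : ℝ => rho R (O + s • u (t + π / 2)) t) (uIcc 0 y) :=
    (h2 R hR).comp (f := fun s : ℝ => (O + s • u (t + π / 2), t)) (by fun_prop)
      (fun s hs => ⟨(hseg s hs).1, mem_univ _⟩)
  have k := int_close 0 y r η hc (fun s hs => (hseg s hs).2)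
  rw [sub_zero] at k
  rw [abs_le] at *
  constructor <;> linarith [k.1, k.2]

/-- the linear algebra -/
lemma linalg {r0 r1 r2 r3 B η : ℝ} (p0 : 0 < r0) (p1 : 0 < r1) (p2 : 0 < r2) (p3 : 0 < r3)
    (hB : B = r0 + r1 + r2 + r3 + 1) (hD : 0 < |r1 * r3 - r0 * r2|) (hη0 : 0 ≤ η)
    (hK : 2 * B * η * (10 * (1 + B) / |r1 * r3 - r0 * r2| +
      4 * (1 / (r0 + r2) + 1 / (r1 + r3))) ≤ 1 / 2)
    {τ x y e0 e1 e2 : ℝ}
    (f0 : τ * (r1 ^ 2 - r0 ^ 2) / 2 - x * r1 - y * r0 = e0)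
    (f1 : τ * (r2 ^ 2 - r1 ^ 2) / 2 + x * r1 - y * r2 = e1)
    (f2 : τ * (r3 ^ 2 - r2 ^ 2) / 2 + x * r3 + y * r2 = e2)
    (b0 : |e0| ≤ 2 * B * η * (|τ| + |x| + |y|)) (b1 : |e1| ≤ 2 * B * η * (|τ| + |x| + |y|))
    (b2 : |e2| ≤ 2 * B * η * (|τ| + |x| + |y|)) : τ = 0 ∧ x = 0 ∧ y = 0 := by
  set S := |τ| + |x| + |y| with hS
  have hS0 : 0 ≤ S := by positivity
  have hBpos : 1 ≤ B := by rw [hB]; linarith
  set E := 2 * B * η * S with hE
  have hE0 : 0 ≤ E := by positivity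
  set D := |r1 * r3 - r0 * r2| with hDdef
  have q1 : 0 < r0 + r2 := by linarith
  have q2 : 0 < r1 + r3 := by linarith
  -- y and x
  have hy : y = τ * (r2 - r0) / 2 - (e0 + e1) / (r0 + r2) := by
    have : (r0 + r2) * y = (r0 + r2) * (τ * (r2 - r0) / 2 - (e0 + e1) / (r0 + r2)) := by
      rw [mul_sub, mul_div_cancel₀ _ q1.ne', ← f0, ← f1]; ring
    exact mul_left_cancel₀ q1.ne' this
  have hx : x = τ * (r1 - r3) / 2 + (e1 + e2) / (r1 + r3) := by
    have : (r1 + r3) * x = (r1 + r3) * (τ * (r1 - r3) / 2 + (e1 + e2) / (r1 + r3)) := by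
      rw [mul_add, mul_div_cancel₀ _ q2.ne', ← f1, ← f2]; ring
    exact mul_left_cancel₀ q2.ne' this
  have hτ : τ * (r1 * r3 - r0 * r2) / 2 =
      e0 + r1 * ((e1 + e2) / (r1 + r3)) - r0 * ((e0 + e1) / (r0 + r2)) := by
    have h3 := f0
    rw [hy, hx] at h3
    linear_combination h3
  -- bounds
  have a01 : |e0 + e1| ≤ 2 * E := (abs_add_le _ _).trans (by linarith)
  have a12 : |e1 + e2| ≤ 2 * E := (abs_add_le _ _).trans (by linarith)
  have c01 : |(e0 + e1) / (r0 + r2)| ≤ 2 * E * (1 / (r0 + r2)) := by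
    rw [abs_div, abs_of_pos q1, div_eq_mul_one_div]
    exact mul_le_mul_of_nonneg_right a01 (by positivity)
  have c12 : |(e1 + e2) / (r1 + r3)| ≤ 2 * E * (1 / (r1 + r3)) := by
    rw [abs_div, abs_of_pos q2, div_eq_mul_one_div]
    exact mul_le_mul_of_nonneg_right a12 (by positivity)
  have g01 : |r0 * ((e0 + e1) / (r0 + r2))| ≤ 2 * E := by
    rw [abs_mul, abs_of_pos p0]
    calc r0 * |(e0 + e1) / (r0 + r2)| ≤ r0 * (2 * E * (1 / (r0 + r2))) :=
          mul_le_mul_of_nonneg_left c01 p0.le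
      _ = 2 * E * (r0 / (r0 + r2)) := by ring
      _ ≤ 2 * E * 1 := by
          apply mul_le_mul_of_nonneg_left _ (by linarith)
          rw [div_le_one q1]; linarith
      _ = 2 * E := mul_one _
  have g12 : |r1 * ((e1 + e2) / (r1 + r3))| ≤ 2 * E := by
    rw [abs_mul, abs_of_pos p1]
    calc r1 * |(e1 + e2) / (r1 + r3)| ≤ r1 * (2 * E * (1 / (r1 + r3))) :=
          mul_le_mul_of_nonneg_left c12 p1.le
      _ = 2 * E * (r1 / (r1 + r3)) := by ring
      _ ≤ 2 * E * 1 := by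
          apply mul_le_mul_of_nonneg_left _ (by linarith)
          rw [div_le_one q2]; linarith
      _ = 2 * E := mul_one _
  have hτb : |τ| ≤ 10 * E / D := by
    rw [le_div_iff₀ hD]
    have h5 : |τ| * D / 2 ≤ 5 * E := by
      have h6 : |τ * (r1 * r3 - r0 * r2) / 2| = |τ| * D / 2 := by
        simp only [abs_div, abs_mul, abs_two, hDdef]
      rw [← h6, hτ]
      calc _ ≤ |e0 + r1 * ((e1 + e2) / (r1 + r3))| + |r0 * ((e0 + e1) / (r0 + r2))| :=
            abs_sub _ _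
        _ ≤ (|e0| + |r1 * ((e1 + e2) / (r1 + r3))|) + |r0 * ((e0 + e1) / (r0 + r2))| := by
            gcongr; exact abs_add_le _ _
        _ ≤ 5 * E := by linarith
    linarith
  have hyb : |y| ≤ |τ| * B / 2 + 2 * E * (1 / (r0 + r2)) := by
    rw [hy]
    refine (abs_sub _ _).trans ?_
    refine add_le_add ?_ c01
    rw [abs_div, abs_mul, abs_two]
    apply div_le_div_of_nonneg_right _ (by norm_num)
    apply mul_le_mul_of_nonneg_left _ (abs_nonneg _)
    rw [abs_le]; constructor <;> rw [hB] <;> linarith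
  have hxb : |x| ≤ |τ| * B / 2 + 2 * E * (1 / (r1 + r3)) := by
    rw [hx]
    refine (abs_add_le _ _).trans ?_
    refine add_le_add ?_ c12
    rw [abs_div, abs_mul, abs_two]
    apply div_le_div_of_nonneg_right _ (by norm_num)
    apply mul_le_mul_of_nonneg_left _ (abs_nonneg _)
    rw [abs_le]; constructor <;> rw [hB] <;> linarith
  have hSb : S ≤ E * (10 * (1 + B) / D + 4 * (1 / (r0 + r2) + 1 / (r1 + r3))) := by
    have h7 : S ≤ |τ| * (1 + B) + 2 * E * (1 / (r0 + r2) + 1 / (r1 + r3)) := by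
      rw [hS]; nlinarith
    have h8 : |τ| * (1 + B) ≤ 10 * E / D * (1 + B) :=
      mul_le_mul_of_nonneg_right hτb (by linarith)
    have h9 : 10 * E / D * (1 + B) = E * (10 * (1 + B) / D) := by ring
    have h10 : 0 ≤ E * (1 / (r0 + r2) + 1 / (r1 + r3)) := by positivity
    linarith
  have hS2 : S ≤ S / 2 := by
    calc S ≤ E * (10 * (1 + B) / D + 4 * (1 / (r0 + r2) + 1 / (r1 + r3))) := hSb
      _ = S * (2 * B * η * (10 * (1 + B) / D + 4 * (1 / (r0 + r2) + 1 / (r1 + r3)))) := by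
          rw [hE]; ring
      _ ≤ S * (1 / 2) := mul_le_mul_of_nonneg_left hK hS0
      _ = S / 2 := by ring
  have hS3 : S = 0 := by linarith
  have n1 := abs_nonneg τ
  have n2 := abs_nonneg x
  have n3 := abs_nonneg y
  refine ⟨abs_eq_zero.1 (by linarith), abs_eq_zero.1 (by linarith), abs_eq_zero.1 (by linarith)⟩

end ModLoc

open ModLoc in
theorem loc (h1 : StmtRho) (h2 : StmtRhoC) (h3 : StmtPol) (h4 : StmtShU) (h5 : StmtShV)
    (h6 : StmtNear) : StmtLoc := by
  intro P hP h0 O0 hO0 t0 hND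
  set r0 := rho P O0 t0 with hr0
  set r1 := rho P O0 (t0 + π / 2) with hr1
  set r2 := rho P O0 (t0 + π) with hr2
  set r3 := rho P O0 (t0 + 3 * (π / 2)) with hr3
  have p0 : 0 < r0 := (h1 P hP O0 hO0 _).1
  have p1 : 0 < r1 := (h1 P hP O0 hO0 _).1
  have p2 : 0 < r2 := (h1 P hP O0 hO0 _).1
  have p3 : 0 < r3 := (h1 P hP O0 hO0 _).1
  have hD : 0 < |r1 * r3 - r0 * r2| := by
    rw [abs_pos]
    intro h
    apply hND
    rw [← hr0, ← hr1, ← hr2, ← hr3]
    linarith
  obtain ⟨B, hB⟩ : ∃ B, B = r0 + r1 + r2 + r3 + 1 := ⟨_, rfl⟩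
  have hBpos : 1 ≤ B := by rw [hB]; linarith
  obtain ⟨K, hKdef⟩ : ∃ K, K = 10 * (1 + B) / |r1 * r3 - r0 * r2| +
      4 * (1 / (r0 + r2) + 1 / (r1 + r3)) := ⟨_, rfl⟩
  have hK0 : 0 < K := by rw [hKdef]; positivity
  obtain ⟨η, hηdef⟩ : ∃ η, η = min 1 (1 / (4 * B * K)) := ⟨_, rfl⟩
  have hη : 0 < η := by rw [hηdef]; positivity
  have hη1 : η ≤ 1 := by rw [hηdef]; exact min_le_left _ _
  have hηK : 2 * B * η * K ≤ 1 / 2 := by
    have : η ≤ 1 / (4 * B * K) := by rw [hηdef]; exact min_le_right _ _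
    rw [le_div_iff₀ (by positivity)] at this
    linarith
  obtain ⟨d0, hd0, n0⟩ := h6 P hP h0 O0 hO0 t0 η hη
  obtain ⟨d1, hd1, n1⟩ := h6 P hP h0 O0 hO0 (t0 + π / 2) η hη
  obtain ⟨d2, hd2, n2⟩ := h6 P hP h0 O0 hO0 (t0 + π) η hη
  obtain ⟨d3, hd3, n3⟩ := h6 P hP h0 O0 hO0 (t0 + 3 * (π / 2)) η hη
  obtain ⟨d, hddef⟩ : ∃ d, d = min (min d0 d1) (min d2 d3) / 8 := ⟨_, rfl⟩
  have hd : 0 < d := by rw [hddef]; positivity
  have e0 : 8 * d ≤ d0 := by
    rw [hddef]
    have := (min_le_left (min d0 d1) (min d2 d3)).trans (min_le_left _ _); linarith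
  have e1 : 8 * d ≤ d1 := by
    rw [hddef]
    have := (min_le_left (min d0 d1) (min d2 d3)).trans (min_le_right _ _); linarith
  have e2 : 8 * d ≤ d2 := by
    rw [hddef]
    have := (min_le_right (min d0 d1) (min d2 d3)).trans (min_le_left _ _); linarith
  have e3 : 8 * d ≤ d3 := by
    rw [hddef]
    have := (min_le_right (min d0 d1) (min d2 d3)).trans (min_le_right _ _); linarith
  refine ⟨d, hd, ?_⟩
  intro R hR hS O O' t t' hO ht hO' ht' hC hC'
  have near : ∀ (X : E2) (s : ℝ), dist X O0 < 8 * d → |s - t0| < 8 * d → X ∈ interior R ∧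
      |rho R X s - r0| ≤ η ∧ |rho R X (s + π / 2) - r1| ≤ η ∧ |rho R X (s + π) - r2| ≤ η ∧
      |rho R X (s + 3 * (π / 2)) - r3| ≤ η := by
    intro X s hX hs
    have m0 := n0 R hR (hS.mono (by linarith)) X s (by linarith) (by linarith)
    have m1 := n1 R hR (hS.mono (by linarith)) X (s + π / 2) (by linarith)
      (by rw [add_sub_add_right_eq_sub]; linarith)
    have m2 := n2 R hR (hS.mono (by linarith)) X (s + π) (by linarith)
      (by rw [add_sub_add_right_eq_sub]; linarith)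
    have m3 := n3 R hR (hS.mono (by linarith)) X (s + 3 * (π / 2)) (by linarith)
      (by rw [add_sub_add_right_eq_sub]; linarith)
    exact ⟨m0.1, m0.2.le, m1.2.le, m2.2.le, m3.2.le⟩
  -- the coordinates of `O' - O`
  obtain ⟨x, hx⟩ : ∃ x, x = dot (u t') (O' - O) := ⟨_, rfl⟩
  obtain ⟨y, hy⟩ : ∃ y, y = dot (u (t' + π / 2)) (O' - O) := ⟨_, rfl⟩
  have hOO : ‖O' - O‖ < 2 * d := by
    rw [← dist_eq_norm]
    have := dist_triangle_right O' O O0
    linarith
  have hxb : |x| < 2 * d := by rw [hx]; exact (abs_dot_le _ _).trans_lt hOO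
  have hyb : |y| < 2 * d := by rw [hy]; exact (abs_dot_le _ _).trans_lt hOO
  obtain ⟨O1, hO1⟩ : ∃ O1, O1 = O + x • u t' := ⟨_, rfl⟩
  have hO'1 : O' = O1 + y • u (t' + π / 2) := by
    rw [hO1, hx, hy, add_assoc, ← decomp]; abel
  have u2 : u (t' + π / 2 + π / 2) = -u t' := by
    rw [add_assoc, add_halves]; exact u_add_pi t'
  have u3 : u (t' + π + π / 2) = -u (t' + π / 2) := by
    rw [show t' + π + π / 2 = t' + π / 2 + π by ring]; exact u_add_pi _
  have hmem : ∀ (s z : ℝ), s ∈ uIcc 0 z → |s| ≤ |z| := by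
    intro s z hs
    have := abs_sub_left_of_mem_uIcc hs
    simpa using this
  -- the points of the two segments
  have seg1 : ∀ s ∈ uIcc 0 x, dist (O + s • u t') O0 < 8 * d := by
    intro s hs
    have h7 := hmem s x hs
    have h8 : dist (O + s • u t') O = |s| := by
      rw [dist_eq_norm, add_sub_cancel_left, norm_smul, norm_u, mul_one, Real.norm_eq_abs]
    have := dist_triangle (O + s • u t') O O0
    linarith
  have hO1d : dist O1 O0 < 3 * d := by
    have h8 : dist O1 O = |x| := by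
      rw [hO1, dist_eq_norm, add_sub_cancel_left, norm_smul, norm_u, mul_one, Real.norm_eq_abs]
    have := dist_triangle O1 O O0
    linarith
  have seg2 : ∀ s ∈ uIcc 0 y, dist (O1 + s • u (t' + π / 2)) O0 < 8 * d := by
    intro s hs
    have h7 := hmem s y hs
    have h8 : dist (O1 + s • u (t' + π / 2)) O1 = |s| := by
      rw [dist_eq_norm, add_sub_cancel_left, norm_smul, norm_u, mul_one, Real.norm_eq_abs]
    have := dist_triangle (O1 + s • u (t' + π / 2)) O1 O0
    linarith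
  have negmem : ∀ (s z : ℝ), s ∈ uIcc 0 (-z) → -s ∈ uIcc 0 z := by
    intro s z hs
    rw [mem_uIcc] at hs ⊢
    rcases hs with ⟨h1, h2⟩ | ⟨h1, h2⟩
    · right; constructor <;> linarith
    · left; constructor <;> linarith
  have ht'8 : |t' - t0| < 8 * d := by linarith
  have hO8 : dist O O0 < 8 * d := by linarith
  -- the steps of the apex
  have U0 := stepU h2 h4 hR O t' x r1 η (fun s hs =>
    ⟨(near _ t' (seg1 s hs) ht'8).1, (near _ t' (seg1 s hs) ht'8).2.2.1⟩)
  have V0 := stepV h2 h5 hR O1 t' y r0 η (fun s hs =>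
    ⟨(near _ t' (seg2 s hs) ht'8).1, (near _ t' (seg2 s hs) ht'8).2.1⟩)
  have V1 := stepV h2 h5 hR O (t' + π / 2) (-x) r1 η (fun s hs => by
    have e : O + s • u (t' + π / 2 + π / 2) = O + (-s) • u t' := by rw [u2]; module
    rw [e]
    exact ⟨(near _ t' (seg1 _ (negmem s x hs)) ht'8).1,
      (near _ t' (seg1 _ (negmem s x hs)) ht'8).2.2.1⟩)
  have U1 := stepU h2 h4 hR O1 (t' + π / 2) y r2 η (fun s hs => by
    refine ⟨(near _ t' (seg2 s hs) ht'8).1, ?_⟩
    rw [show t' + π / 2 + π / 2 = t' + π by ring]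
    exact (near _ t' (seg2 s hs) ht'8).2.2.2.1)
  have U2 := stepU h2 h4 hR O (t' + π) (-x) r3 η (fun s hs => by
    have e : O + s • u (t' + π) = O + (-s) • u t' := by rw [u_add_pi]; module
    rw [e, show t' + π + π / 2 = t' + 3 * (π / 2) by ring]
    exact ⟨(near _ t' (seg1 _ (negmem s x hs)) ht'8).1,
      (near _ t' (seg1 _ (negmem s x hs)) ht'8).2.2.2.2⟩)
  have V2 := stepV h2 h5 hR O1 (t' + π) (-y) r2 η (fun s hs => by
    have e : O1 + s • u (t' + π + π / 2) = O1 + (-s) • u (t' + π / 2) := by rw [u3]; module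
    rw [e]
    exact ⟨(near _ t' (seg2 _ (negmem s y hs)) ht'8).1,
      (near _ t' (seg2 _ (negmem s y hs)) ht'8).2.2.2.1⟩)
  rw [← hO1] at U0
  rw [← hO'1] at V0
  rw [u2, show O + (-x) • -u t' = O1 by rw [hO1]; module] at V1
  rw [← hO'1] at U1
  rw [u_add_pi, show O + (-x) • -u t' = O1 by rw [hO1]; module] at U2
  rw [u3, show O1 + (-y) • -u (t' + π / 2) = O' by rw [hO'1]; module] at V2
  rw [abs_neg] at V1 U2 V2
  -- the rotations
  have hOR : O ∈ interior R := (near O t' hO8 ht'8).1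
  have hts : ∀ s ∈ uIcc t' t, |s - t0| < 8 * d := by
    intro s hs
    rw [abs_lt] at *
    rw [mem_uIcc] at hs
    rcases hs with ⟨h1, h2⟩ | ⟨h1, h2⟩
    · constructor <;> linarith [ht.1, ht.2, ht'.1, ht'.2]
    · constructor <;> linarith [ht.1, ht.2, ht'.1, ht'.2]
  have A0 := stepA h2 h3 hR hOR t t' 0 r0 r1 B η hη1 p0 p1 (by rw [hB]; linarith)
    (by rw [hB]; linarith)
    (fun s hs => by rw [add_zero]; exact (near O s hO8 (hts s hs)).2.1)
    (fun s hs => by rw [add_zero]; exact (near O s hO8 (hts s hs)).2.2.1)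
  have A1 := stepA h2 h3 hR hOR t t' (π / 2) r1 r2 B η hη1 p1 p2 (by rw [hB]; linarith)
    (by rw [hB]; linarith)
    (fun s hs => (near O s hO8 (hts s hs)).2.2.1)
    (fun s hs => by
      rw [show s + π / 2 + π / 2 = s + π by ring]
      exact (near O s hO8 (hts s hs)).2.2.2.1)
  have A2 := stepA h2 h3 hR hOR t t' π r2 r3 B η hη1 p2 p3 (by rw [hB]; linarith)
    (by rw [hB]; linarith)
    (fun s hs => (near O s hO8 (hts s hs)).2.2.2.1)
    (fun s hs => by
      rw [show s + π + π / 2 = s + 3 * (π / 2) by ring]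
      exact (near O s hO8 (hts s hs)).2.2.2.2)
  rw [add_zero, add_zero] at A0
  -- the quadrants of the two configurations
  obtain ⟨_, ⟨c1, c2⟩, c3⟩ := hC
  obtain ⟨_, ⟨c1', c2'⟩, c3'⟩ := hC'
  have hS0 : 0 ≤ |t' - t| := abs_nonneg _
  have hx0 : 0 ≤ |x| := abs_nonneg _
  have hy0 : 0 ≤ |y| := abs_nonneg _
  have hBη : η ≤ 2 * B * η := by nlinarith
  have hBx : η * |x| ≤ 2 * B * η * |x| := mul_le_mul_of_nonneg_right hBη hx0
  have hBy : η * |y| ≤ 2 * B * η * |y| := mul_le_mul_of_nonneg_right hBη hy0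
  have key := linalg (τ := t' - t) (x := x) (y := y) p0 p1 p2 p3 hB hD hη.le
    (by rw [← hKdef]; exact hηK) rfl rfl rfl
    (by
      rw [abs_le] at *
      constructor <;>
        linarith [A0.1, A0.2, U0.1, U0.2, V0.1, V0.2])
    (by
      rw [abs_le] at *
      constructor <;>
        linarith [A1.1, A1.2, U1.1, U1.2, V1.1, V1.2])
    (by
      rw [abs_le] at *
      constructor <;>
        linarith [A2.1, A2.2, U2.1, U2.2, V2.1, V2.2])
  obtain ⟨k1, k2, k3⟩ := key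
  refine ⟨?_, by linarith⟩
  rw [hO'1, hO1, k2, k3]
  simp

end Pool.Agent.T6.H7.QS
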