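import Pool.Agent.T6.H7.QS.Defs

set_option autoImplicit false

namespace Pool.Agent.T6.H7.QS

open MeasureTheory Set Pool.V11275.Quad Pool.Agent.Helper717.Hull1 Pool.Agent.Helper717.Hull2
open scoped Real

namespace ModLower

/-- Alternation gives quadrisections (with either sign at the start). -/
theorem many' {R : Set E2} (h : Body R) (n e : ℕ) (τ : ℕ → ℝ) (hτ : ∀ i ≤ n, |τ i| < 1)
    (hmono : ∀ i < n, τ i < τ (i + 1))
    (hs : ∀ i ≤ n, if (i + e) % 2 = 0 then Plus R (τ i) else Minus R (τ i)) :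
    (n : ℕ∞) ≤ {q | IsQuadrisection R q}.encard := by
  have hf := h.fin
  have hrc : Continuous (fun t : ℝ => rot (!₂[1, t] : E2)) := rot_cont.comp dir_cont
  obtain ⟨c, hc, hc'⟩ := exists_bis h (fun t => (!₂[1, t] : E2)) dir_cont dir_ne
  obtain ⟨d, hd, hd'⟩ := exists_bis h (fun t => rot (!₂[1, t] : E2)) hrc
    (fun t => rot_ne (dir_ne t))
  set F : ℝ → ℝ := fun t => App R !₂[1, t] (rot !₂[1, t]) (c t) (d t) with hF
  have hFc : Continuous F := by
    rw [continuous_iff_continuousAt]
    intro t0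
    exact cont_quad (mu R) (mu_ac R) (a := fun t => (!₂[1, t] : E2))
      (b := fun t => rot (!₂[1, t] : E2)) (c := c) (d := d) (t0 := t0) dir_cont.continuousAt
      hrc.continuousAt hc.continuousAt hd.continuousAt (dir_ne t0) (rot_ne (dir_ne t0))
  have hsign : ∀ i ≤ n, if (i + e) % 2 = 0 then M R / 4 < F (τ i) else F (τ i) < M R / 4 := by
    intro i hi
    have := hs i hi
    split_ifs at this ⊢ with h1
    · obtain ⟨c', d', h2, h3, h4, h5⟩ := this
      exact sign_pos h (dir_ne _) (rot_ne (dir_ne _)) (hc' _) (hd' _) h2 h3 h4 h5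
    · obtain ⟨c', d', h2, h3, h4, h5⟩ := this
      exact sign_neg h (dir_ne _) (rot_ne (dir_ne _)) (hc' _) (hd' _) h2 h3 h4 h5
  have hz : ∀ i, i < n → ∃ z ∈ Ioo (τ i) (τ (i + 1)), F z = M R / 4 := by
    intro i hi
    have h1 := hsign i hi.le
    have h2 := hsign (i + 1) hi
    rcases Nat.mod_two_eq_zero_or_one (i + e) with h3 | h3
    · have h4 : (i + 1 + e) % 2 ≠ 0 := by omega
      rw [if_pos h3] at h1
      rw [if_neg h4] at h2
      obtain ⟨z, hz, hz'⟩ := intermediate_value_Ioo' (hmono i hi).le hFc.continuousOn ⟨h2, h1⟩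
      exact ⟨z, hz, hz'⟩
    · have h4 : (i + 1 + e) % 2 = 0 := by omega
      rw [if_neg (by omega)] at h1
      rw [if_pos h4] at h2
      obtain ⟨z, hz, hz'⟩ := intermediate_value_Ioo (hmono i hi).le hFc.continuousOn ⟨h1, h2⟩
      exact ⟨z, hz, hz'⟩
  choose! z hz1 hz2 using hz
  have hmono' : ∀ i j, i ≤ j → j ≤ n → τ i ≤ τ j := by
    intro i j hij
    induction j, hij using Nat.le_induction with
    | base => intro _; exact le_rfl
    | succ j hj ih =>
      intro hjn
      exact (ih (by omega)).trans (hmono j (by omega)).le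
  have hzlt : ∀ i j, i < j → j < n → z i < z j := by
    intro i j hij hj
    have h1 := (hz1 i (by omega)).2
    have h2 := (hz1 j hj).1
    have h3 := hmono' (i + 1) j hij hj.le
    linarith
  have hzabs : ∀ i, i < n → |z i| < 1 := by
    intro i hi
    have h1 := hz1 i hi
    have h2 := abs_lt.1 (hτ i hi.le)
    have h3 := abs_lt.1 (hτ (i + 1) hi)
    rw [abs_lt]
    exact ⟨by linarith [h1.1], by linarith [h1.2]⟩
  have hq : ∀ i, i < n → ∃ P, IsQuadrisection R {line P !₂[1, z i], line P (rot !₂[1, z i])} := by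
    intro i hi
    exact quadrisection_of h (dir_ne _) (hc' _) (hd' _) (hz2 i hi)
  choose! P hP using hq
  have hinj : Function.Injective (fun i : Fin n =>
      ({line (P i) !₂[1, z i], line (P i) (rot !₂[1, z i])} : Set (Set E2))) := by
    intro i j hij
    have := slope_inj (hzabs i i.2) (hzabs j j.2) hij
    rcases lt_trichotomy (i : ℕ) (j : ℕ) with h1 | h1 | h1
    · exact absurd this (hzlt i j h1 j.2).ne
    · exact Fin.ext h1
    · exact absurd this (hzlt j i h1 i.2).ne'
  have hcard := hinj.encard_range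
  rw [ENat.card_eq_coe_fintype_card, Fintype.card_fin] at hcard
  refine hcard.trans (encard_le_encard ?_)
  rintro _ ⟨i, rfl⟩
  exact hP i i.2

/-- the measurable sets of the four pieces -/
theorem mpp (a b : E2) (c d : ℝ) : MeasurableSet ({x : E2 | c ≤ dot a x} ∩ {x | d ≤ dot b x}) :=
  (half_meas a c).inter (half_meas b d)
theorem mmp (a b : E2) (c d : ℝ) : MeasurableSet ({x : E2 | dot a x ≤ c} ∩ {x | d ≤ dot b x}) :=
  (half_meas' a c).inter (half_meas b d)
theorem mmm (a b : E2) (c d : ℝ) : MeasurableSet ({x : E2 | dot a x ≤ c} ∩ {x | dot b x ≤ d}) :=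
  (half_meas' a c).inter (half_meas' b d)
theorem mpm (a b : E2) (c d : ℝ) : MeasurableSet ({x : E2 | c ≤ dot a x} ∩ {x | dot b x ≤ d}) :=
  (half_meas a c).inter (half_meas' b d)

theorem mu_real {R S : Set E2} (hS : MeasurableSet S) : (mu R).real S = volume.real (R ∩ S) := by
  unfold mu
  rw [measureReal_restrict_apply hS, inter_comm]

theorem u_eq {t : ℝ} (ht : 0 < Real.cos t) : u t = Real.cos t • (!₂[1, Real.tan t] : E2) := by
  apply ext2
  · simp [u]
  · simp only [u, PiLp.smul_apply, smul_eq_mul]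
    have : Real.cos t * Real.tan t = Real.sin t := by
      rw [Real.tan_eq_sin_div_cos]; field_simp
    simpa using this.symm

theorem rot_smul (r : ℝ) (a : E2) : rot (r • a) = r • rot a := by
  apply ext2 <;> simp

theorem dot_smul (r : ℝ) (a x : E2) : dot (r • a) x = r * dot a x := by
  simp [dot]; ring

theorem dot_neg (a x : E2) : dot (-a) x = - dot a x := by
  simp [dot]; ring

theorem dot_sub (a x y : E2) : dot a (x - y) = dot a x - dot a y := by
  simp [dot]; ring

theorem u_half (t : ℝ) : u (t + π / 2) = rot (u t) := by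
  apply ext2
  · simp [u, Real.cos_add_pi_div_two]
  · simp [u, Real.sin_add_pi_div_two]

theorem u_pi (t : ℝ) : u (t + π) = - u t := by
  apply ext2
  · simp [u]
  · simp [u]

theorem u_ne (t : ℝ) : u t ≠ 0 := by
  intro h
  have e0 := congrFun (congrArg (fun x : E2 => (x : Fin 2 → ℝ)) h) 0
  have e1 := congrFun (congrArg (fun x : E2 => (x : Fin 2 → ℝ)) h) 1
  simp [u] at e0 e1
  have := Real.sin_sq_add_cos_sq t
  rw [e0, e1] at this
  norm_num at this

theorem f0 (R : Set E2) (O : E2) {t : ℝ} (ht : 0 < Real.cos t) :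
    App R !₂[1, Real.tan t] (rot !₂[1, Real.tan t]) (dot !₂[1, Real.tan t] O)
      (dot (rot !₂[1, Real.tan t]) O) = f R O t := by
  unfold App f
  rw [mu_real (mpp _ _ _ _)]
  congr 2
  ext x
  rw [quad_iff _ _ _ (u_ne t), u_eq ht, rot_smul, dot_smul, dot_smul, dot_sub, dot_sub,
    mul_nonneg_iff_of_pos_left ht, mul_nonneg_iff_of_pos_left ht]
  simp only [mem_inter_iff, mem_ofPred_eq, sub_nonneg]

theorem f1 (R : Set E2) (O : E2) {t : ℝ} (ht : 0 < Real.cos t) :
    Amp R !₂[1, Real.tan t] (rot !₂[1, Real.tan t]) (dot !₂[1, Real.tan t] O)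
      (dot (rot !₂[1, Real.tan t]) O) = f R O (t + π / 2) := by
  unfold Amp f
  rw [mu_real (mmp _ _ _ _)]
  congr 2
  ext x
  rw [quad_iff _ _ _ (u_ne _), u_half, rot_rot, u_eq ht, rot_smul, dot_neg, dot_smul, dot_smul,
    dot_sub, dot_sub, ← mul_neg,
    mul_nonneg_iff_of_pos_left ht, mul_nonneg_iff_of_pos_left ht]
  simp only [mem_inter_iff, mem_ofPred_eq, sub_nonneg, neg_sub]
  exact and_comm

theorem f2 (R : Set E2) (O : E2) {t : ℝ} (ht : 0 < Real.cos t) :
    Amm R !₂[1, Real.tan t] (rot !₂[1, Real.tan t]) (dot !₂[1, Real.tan t] O)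
      (dot (rot !₂[1, Real.tan t]) O) = f R O (t + π) := by
  unfold Amm f
  rw [mu_real (mmm _ _ _ _)]
  congr 2
  ext x
  have hrn : rot (-(u t)) = -rot (u t) := by apply ext2 <;> simp
  rw [quad_iff _ _ _ (u_ne _), u_pi, hrn, u_eq ht, rot_smul, dot_neg, dot_neg, dot_smul, dot_smul,
    dot_sub, dot_sub, ← mul_neg, ← mul_neg,
    mul_nonneg_iff_of_pos_left ht, mul_nonneg_iff_of_pos_left ht]
  simp only [mem_inter_iff, mem_ofPred_eq, sub_nonneg, neg_sub]

/-- The four areas of an exact bisecting cross. -/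
theorem four {P : Set E2} (hP : Body P) {O : E2} {t : ℝ} (ht : 0 < Real.cos t)
    (hb : Bis P O t) {A B C D : ℝ}
    (hA : A = App P !₂[1, Real.tan t] (rot !₂[1, Real.tan t]) (dot !₂[1, Real.tan t] O)
      (dot (rot !₂[1, Real.tan t]) O))
    (hB : B = Amp P !₂[1, Real.tan t] (rot !₂[1, Real.tan t]) (dot !₂[1, Real.tan t] O)
      (dot (rot !₂[1, Real.tan t]) O))
    (hC : C = Amm P !₂[1, Real.tan t] (rot !₂[1, Real.tan t]) (dot !₂[1, Real.tan t] O)
      (dot (rot !₂[1, Real.tan t]) O))
    (hD : D = Apm P !₂[1, Real.tan t] (rot !₂[1, Real.tan t]) (dot !₂[1, Real.tan t] O)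
      (dot (rot !₂[1, Real.tan t]) O)) :
    A = f P O t ∧ C = f P O t ∧ B = M P / 2 - f P O t ∧ D = M P / 2 - f P O t := by
  set a : E2 := !₂[1, Real.tan t] with ha
  have s2 := split hP {x | dot a x ≤ dot a O} (rot a) (rot_ne (dir_ne _)) (dot (rot a) O)
  have s1 := split hP {x | dot a O ≤ dot a x} (rot a) (rot_ne (dir_ne _)) (dot (rot a) O)
  have s4 := split hP univ a (dir_ne _) (dot a O)
  rw [univ_inter, univ_inter] at s4
  have hsum : M P = A + D + (B + C) := by
    rw [hA, hB, hC, hD]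
    unfold App Amp Amm Apm M
    rw [s4, s1, s2]
  rw [f0 P O ht] at hA
  rw [f1 P O ht] at hB
  rw [f2 P O ht] at hC
  obtain ⟨b1, b2⟩ := hb
  rw [← hA, ← hB] at b1
  rw [← hB, ← hC] at b2
  rw [← hA]
  refine ⟨rfl, by linarith, by linarith, by linarith⟩

/-- the fractional parts of the samples -/
noncomputable def fr (m i : ℕ) : ℝ := if i = 0 then 3 / 4 else if i = m then 1 / 4 else 1 / 2

theorem fr_pos (m i : ℕ) : 0 < fr m i := by
  unfold fr; split_ifs <;> norm_num

theorem fr_lt (m i : ℕ) : fr m i < 1 := by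
  unfold fr; split_ifs <;> norm_num

theorem exists_min (n : ℕ) (g : ℕ → ℝ) (hg : ∀ i ≤ n, 0 < g i) :
    ∃ η : ℝ, 0 < η ∧ ∀ i ≤ n, η ≤ g i := by
  obtain ⟨i, hi, hi'⟩ := Finset.exists_min_image (Finset.range (n + 1)) g ⟨0, by simp⟩
  refine ⟨g i, hg i (by simpa [Nat.lt_succ_iff] using hi), fun j hj => hi' j ?_⟩
  simpa [Nat.lt_succ_iff] using hj

end ModLower

open ModLower

/-- Module LOWER: the lower bound. -/
theorem lower (hArea : StmtArea) : StmtLower := by
  intro P hP h0 m hm hyp
  obtain ⟨l, hl⟩ := hm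
  have hmpos : (0 : ℝ) < m := by
    have : 0 < m := by omega
    exact_mod_cast this
  have hmR : (m : ℝ) = 2 * l + 1 := by
    rw [hl]; push_cast; ring
  have hpi := Real.pi_pos
  -- the samples
  set k : ℕ → ℤ := fun i => (i : ℤ) - (l + 1) with hk
  set s : ℕ → ℝ := fun i => ((k i : ℤ) : ℝ) + fr m i with hs
  set t : ℕ → ℝ := fun i => s i * (π / (2 * m)) with ht
  have hz : 0 < π / (2 * (m : ℝ)) := by positivity
  have hlo : ∀ i, (k i : ℝ) * (π / (2 * m)) < t i := by
    intro i
    have := fr_pos m i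
    exact mul_lt_mul_of_pos_right (by simp only [hs]; linarith) hz
  have hhi : ∀ i, t i < ((k i : ℝ) + 1) * (π / (2 * m)) := by
    intro i
    have := fr_lt m i
    exact mul_lt_mul_of_pos_right (by simp only [hs]; linarith) hz
  have hsabs : ∀ i ≤ m, |s i| < (m : ℝ) / 2 := by
    intro i hi
    simp only [hs, hk, fr]
    rw [abs_lt]
    push_cast
    have hi' : (i : ℝ) ≤ m := by exact_mod_cast hi
    split_ifs with h1 h2
    · subst h1
      constructor
      · push_cast; linarith
      · push_cast; linarith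
    · subst h2
      constructor <;> linarith
    · have h3 : (1 : ℝ) ≤ i := by
        have : 1 ≤ i := by omega
        exact_mod_cast this
      have h4 : (i : ℝ) + 1 ≤ m := by
        have : i + 1 ≤ m := by omega
        exact_mod_cast this
      constructor <;> linarith
  have htabs : ∀ i ≤ m, |t i| < π / 4 := by
    intro i hi
    simp only [ht]
    rw [abs_mul, abs_of_pos hz]
    calc |s i| * (π / (2 * m)) < (m : ℝ) / 2 * (π / (2 * m)) :=
          mul_lt_mul_of_pos_right (hsabs i hi) hz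
      _ = π / 4 := by field_simp; ring
  have hcos : ∀ i ≤ m, 0 < Real.cos (t i) := by
    intro i hi
    have h1 := abs_lt.1 (htabs i hi)
    exact Real.cos_pos_of_mem_Ioo ⟨by linarith [h1.1], by linarith [h1.2]⟩
  have htmono : ∀ i < m, t i < t (i + 1) := by
    intro i _
    have h1 := hhi i
    have h2 := hlo (i + 1)
    have h3 : ((k (i + 1) : ℤ) : ℝ) = (k i : ℝ) + 1 := by
      simp only [hk]; push_cast; ring
    rw [h3] at h2
    linarith
  choose O hO hbis hsg using fun i => hyp (k i) (t i) (hlo i) (hhi i)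
  -- the gaps
  have hgpos : ∀ i ≤ m, 0 < |f P (O i) (t i) - M P / 4| := by
    intro i _
    rw [abs_pos]
    intro h
    have := hsg i
    rw [h, mul_zero] at this
    exact lt_irrefl _ this
  obtain ⟨η, hη, hη'⟩ := exists_min m (fun i => |f P (O i) (t i) - M P / 4|) hgpos
  obtain ⟨δ, hδ, hA⟩ := hArea P hP h0 (η / 2) (by positivity)
  refine ⟨δ, hδ, ?_⟩
  intro R hR hSand
  have hA' := hA R hR hSand
  have hMM : |M R - M P| < η / 2 := by
    have := hA' univ MeasurableSet.univ
    unfold M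
    rw [mu_real MeasurableSet.univ, mu_real MeasurableSet.univ]
    exact this
  apply many' hR m l (fun i => Real.tan (t i))
  · intro i hi
    have h1 := abs_lt.1 (htabs i hi)
    rw [abs_lt]
    constructor
    · rw [← Real.tan_pi_div_four, ← Real.tan_neg]
      exact Real.tan_lt_tan_of_lt_of_lt_pi_div_two (by linarith) (by linarith [h1.2]) h1.1
    · rw [← Real.tan_pi_div_four]
      exact Real.tan_lt_tan_of_lt_of_lt_pi_div_two (by linarith [h1.1]) (by linarith) h1.2
  · intro i hi
    have h1 := abs_lt.1 (htabs i hi.le)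
    have h2 := abs_lt.1 (htabs (i + 1) hi)
    exact Real.tan_lt_tan_of_lt_of_lt_pi_div_two (by linarith [h1.1]) (by linarith [h2.2])
      (htmono i hi)
  · intro i hi
    set a : E2 := !₂[1, Real.tan (t i)] with ha
    have hc := hcos i hi
    obtain ⟨p1, p2, p3, p4⟩ := four hP hc (hbis i) rfl rfl rfl rfl
    have hg := hη' i hi
    have r1 := hA' _ (mpp a (rot a) (dot a (O i)) (dot (rot a) (O i)))
    have r2 := hA' _ (mmp a (rot a) (dot a (O i)) (dot (rot a) (O i)))
    have r3 := hA' _ (mmm a (rot a) (dot a (O i)) (dot (rot a) (O i)))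
    have r4 := hA' _ (mpm a (rot a) (dot a (O i)) (dot (rot a) (O i)))
    rw [← mu_real (mpp _ _ _ _), ← mu_real (mpp _ _ _ _)] at r1
    rw [← mu_real (mmp _ _ _ _), ← mu_real (mmp _ _ _ _)] at r2
    rw [← mu_real (mmm _ _ _ _), ← mu_real (mmm _ _ _ _)] at r3
    rw [← mu_real (mpm _ _ _ _), ← mu_real (mpm _ _ _ _)] at r4
    change |App R a (rot a) (dot a (O i)) (dot (rot a) (O i)) -
      App P a (rot a) (dot a (O i)) (dot (rot a) (O i))| < η / 2 at r1
    change |Amp R a (rot a) (dot a (O i)) (dot (rot a) (O i)) -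
      Amp P a (rot a) (dot a (O i)) (dot (rot a) (O i))| < η / 2 at r2
    change |Amm R a (rot a) (dot a (O i)) (dot (rot a) (O i)) -
      Amm P a (rot a) (dot a (O i)) (dot (rot a) (O i))| < η / 2 at r3
    change |Apm R a (rot a) (dot a (O i)) (dot (rot a) (O i)) -
      Apm P a (rot a) (dot a (O i)) (dot (rot a) (O i))| < η / 2 at r4
    rw [p1] at r1
    rw [p3] at r2
    rw [p2] at r3
    rw [p4] at r4
    have q1 := abs_lt.1 r1
    have q2 := abs_lt.1 r2
    have q3 := abs_lt.1 r3
    have q4 := abs_lt.1 r4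
    have qM := abs_lt.1 hMM
    have hsgn := hsg i
    have hki : k i = (i : ℤ) - (l + 1) := rfl
    split_ifs with hpar
    · -- `k i` odd: Plus
      have hodd : Odd (k i) := by
        rw [hki, Int.odd_iff]
        omega
      rw [hodd.neg_one_zpow] at hsgn
      have hpos : 0 < f P (O i) (t i) - M P / 4 := by linarith
      rw [abs_of_pos hpos] at hg
      refine ⟨dot a (O i), dot (rot a) (O i), ?_, ?_, ?_, ?_⟩
      · linarith [q1.1, qM.2]
      · linarith [q3.1, qM.2]
      · linarith [q4.2, qM.1]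
      · linarith [q2.2, qM.1]
    · have heven : Even (k i) := by
        rw [hki, Int.even_iff]
        omega
      rw [heven.neg_one_zpow] at hsgn
      have hneg : f P (O i) (t i) - M P / 4 < 0 := by linarith
      rw [abs_of_neg hneg] at hg
      refine ⟨dot a (O i), dot (rot a) (O i), ?_, ?_, ?_, ?_⟩
      · linarith [q1.2, qM.1]
      · linarith [q3.2, qM.1]
      · linarith [q4.1, qM.2]
      · linarith [q2.1, qM.2]

end Pool.Agent.T6.H7.QS
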