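import Pool.Agent.T6.H7.QS.Defs

set_option autoImplicit false

/-!
Project QS (MP_79dd7e_co), module NDE (helper29).
-/

namespace Pool.Agent.T6.H7.QS

open Set
open scoped Real

theorem nde : StmtNde := by
  intro ω x σ hω hω5 hx hq hσ
  have hpi := Real.pi_lt_d2
  set s := Real.sin (ω / 2) with hs
  have hs0 : 0 < s := Real.sin_pos_of_pos_of_lt_pi (by linarith) (by linarith [Real.pi_pos])
  have hs1 : s < 0.315 := by
    have : s < ω / 2 := Real.sin_lt (by linarith)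
    linarith
  have hc2 : Real.cos (ω / 2) ^ 2 = 1 - s ^ 2 := by
    have := Real.sin_sq_add_cos_sq (ω / 2)
    linarith
  have hC : Real.cos ω = 1 - 2 * s ^ 2 := by
    have : ω = 2 * (ω / 2) := by ring
    rw [this, Real.cos_two_mul, hc2]
    ring
  have hs2 : s ^ 2 ≤ 0.1 := by nlinarith
  have hCp : 0 < 1 - 2 * s ^ 2 := by linarith
  have hcp : 0 < 1 - s ^ 2 := by linarith
  have hx1 : x ≤ 0.1 * s := by
    rw [hC] at hq
    have h1 : 2 * x / s ≤ s ^ 2 / (1 - 2 * s ^ 2) := by nlinarith [sq_nonneg x]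
    rw [div_le_div_iff₀ hs0 hCp] at h1
    nlinarith
  have e1 : x * s ≤ 0.1 * s ^ 2 := by nlinarith
  have e2 : x * s ^ 2 ≤ 0.04 * s ^ 2 := by nlinarith [sq_nonneg s]
  have e3 : x ^ 2 ≤ 0.01 * s ^ 2 := by nlinarith
  have e4 : x ^ 2 * s ^ 2 ≤ 0.01 * s ^ 2 := by nlinarith [sq_nonneg s, sq_nonneg x]
  have hss : 0 < s ^ 2 := by positivity
  have hxs : 0 ≤ x * s := by positivity
  have hxs2 : 0 ≤ x * s ^ 2 := by positivity
  have hx2 : 0 ≤ x ^ 2 * s ^ 2 := by positivity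
  have hσ2 : σ ^ 2 = 1 := by rcases hσ with rfl | rfl <;> norm_num
  have b1 : -(2 * (x * s ^ 2)) ≤ 2 * σ * (x * s ^ 2) * (1 - s ^ 2) := by
    rcases hσ with rfl | rfl <;> nlinarith
  have b2 : x ^ 2 * (1 - 2 * s ^ 2) * (1 - s ^ 2) ≤ x ^ 2 := by
    have : (1 - 2 * s ^ 2) * (1 - s ^ 2) ≤ 1 := by nlinarith
    nlinarith [sq_nonneg x]
  have b3 : (1 - 2 * s ^ 2) * (2 * (x * s) + x ^ 2 * s ^ 2) ≤ 2 * (x * s) + x ^ 2 * s ^ 2 := by
    nlinarith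
  have key : (1 + x * s) ^ 2 * (1 - 2 * s ^ 2) <
      (1 - σ * x * (1 - 2 * s ^ 2)) * (1 + σ * x) * (1 - s ^ 2) := by
    have : (1 - σ * x * (1 - 2 * s ^ 2)) * (1 + σ * x) * (1 - s ^ 2) -
        (1 + x * s) ^ 2 * (1 - 2 * s ^ 2) = s ^ 2 + 2 * σ * (x * s ^ 2) * (1 - s ^ 2) -
        x ^ 2 * (1 - 2 * s ^ 2) * (1 - s ^ 2) -
        (1 - 2 * s ^ 2) * (2 * (x * s) + x ^ 2 * s ^ 2) := by
      linear_combination (-(x ^ 2 * (1 - 2 * s ^ 2) * (1 - s ^ 2))) * hσ2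
    linarith
  rw [div_pow, hc2, hC]
  have e5 : (1 / (1 - 2 * s ^ 2) - σ * x) * (1 + σ * x) =
      ((1 - σ * x * (1 - 2 * s ^ 2)) * (1 + σ * x)) / (1 - 2 * s ^ 2) := by
    field_simp
  rw [e5, div_lt_div_iff₀ hcp hCp]
  exact key

end Pool.Agent.T6.H7.QS
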