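import Pool.Agent.T6.H7.QS.Defs

set_option autoImplicit false

/-! Module NEAR (helper24): closeness of the ray lengths. -/

namespace Pool.Agent.T6.H7.QS

open MeasureTheory Set Pool.V11275.Quad Pool.Agent.Helper717.Hull1 Pool.Agent.Helper717.Hull2
open scoped Real Topology

namespace ModNear

theorem cont_u : Continuous u := by
  unfold u
  refine (PiLp.continuous_toLp 2 _).comp (continuous_pi fun i => ?_)
  fin_cases i
  · exact Real.continuous_cos
  · exact Real.continuous_sin

theorem contAt (σ r : ℝ) (O0 : E2) (t0 : ℝ) :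
    ContinuousAt (fun z : ℝ × E2 × ℝ => (1 + σ * z.1)⁻¹ • (z.2.1 + r • u z.2.2)) (0, O0, t0) := by
  have h1 : ContinuousAt (fun z : ℝ × E2 × ℝ => (1 + σ * z.1)⁻¹) (0, O0, t0) := by
    refine ContinuousAt.inv₀ ?_ (by simp)
    exact (continuous_const.add (continuous_const.mul continuous_fst)).continuousAt
  have h2 : Continuous (fun z : ℝ × E2 × ℝ => z.2.1 + r • u z.2.2) :=
    (continuous_fst.comp continuous_snd).add
      ((cont_u.comp (continuous_snd.comp continuous_snd)).const_smul r)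
  exact h1.smul h2.continuousAt

end ModNear

open ModNear in
theorem near (h1 : StmtRho) : StmtNear := by
  intro P hP h0 O0 hO0 t0 η hη
  obtain ⟨hr0, hrho⟩ := h1 P hP O0 hO0 t0
  set r0 := rho P O0 t0 with hr0def
  set η' := min η r0 with hη'
  have hη'0 : 0 < η' := lt_min hη hr0
  have hη'1 : η' ≤ η := min_le_left _ _
  have hη'2 : η' ≤ r0 := min_le_right _ _
  -- the two points
  have ha : O0 + (r0 + η' / 2) • u t0 ∉ P := by
    rw [hrho _ (by positivity)]
    linarith
  have hb : O0 + (r0 - η' / 2) • u t0 ∈ interior P := by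
    have hend : O0 + r0 • u t0 ∈ P := (hrho r0 hr0.le).2 le_rfl
    have h2 := hP.conv.combo_interior_self_mem_interior hO0 hend (a := η' / 2 / r0)
      (b := 1 - η' / 2 / r0) (by positivity) (by
        have : η' / 2 / r0 ≤ 1 := by
          rw [div_le_one hr0]
          linarith
        linarith) (by ring)
    have h3 : (η' / 2 / r0) • O0 + (1 - η' / 2 / r0) • (O0 + r0 • u t0) =
        O0 + (r0 - η' / 2) • u t0 := by
      rw [smul_add, ← add_assoc, ← add_smul, smul_smul]
      congr 1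
      · rw [show η' / 2 / r0 + (1 - η' / 2 / r0) = 1 by ring, one_smul]
      · congr 1
        field_simp
    rwa [h3] at h2
  have hcl : IsOpen Pᶜ := hP.comp.isClosed.isOpen_compl
  -- the three neighbourhoods
  have E1 : ∀ᶠ z : ℝ × E2 × ℝ in 𝓝 (0, O0, t0),
      (1 + 1 * z.1)⁻¹ • (z.2.1 + (r0 + η' / 2) • u z.2.2) ∈ Pᶜ := by
    refine (contAt 1 (r0 + η' / 2) O0 t0).eventually_mem (hcl.mem_nhds ?_)
    simp only [mul_zero, add_zero, inv_one, one_smul]
    exact ha
  have E2' : ∀ᶠ z : ℝ × E2 × ℝ in 𝓝 (0, O0, t0),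
      (1 + (-1) * z.1)⁻¹ • (z.2.1 + (r0 - η' / 2) • u z.2.2) ∈ interior P := by
    refine (contAt (-1) (r0 - η' / 2) O0 t0).eventually_mem (isOpen_interior.mem_nhds ?_)
    simp only [mul_zero, add_zero, inv_one, one_smul]
    exact hb
  have E3 : ∀ᶠ z : ℝ × E2 × ℝ in 𝓝 (0, O0, t0),
      (1 + (-1) * z.1)⁻¹ • (z.2.1 + (0 : ℝ) • u z.2.2) ∈ interior P := by
    refine (contAt (-1) 0 O0 t0).eventually_mem (isOpen_interior.mem_nhds ?_)
    simp only [mul_zero, add_zero, inv_one, one_smul, zero_smul]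
    exact hO0
  obtain ⟨δ, hδ, hall⟩ := Metric.eventually_nhds_iff.1 (E1.and (E2'.and E3))
  refine ⟨δ, hδ, fun R hR hS O t hO ht => ?_⟩
  obtain ⟨a, ha0, haδ, ha1, hin, hout⟩ := hS
  have hdist : dist (a, O, t) (0, O0, t0) < δ := by
    rw [Prod.dist_eq, Prod.dist_eq]
    refine max_lt ?_ (max_lt hO ?_)
    · rw [Real.dist_eq, sub_zero, abs_of_nonneg ha0]
      exact haδ
    · rw [Real.dist_eq]
      exact ht
  obtain ⟨z1, z2, z3⟩ := hall hdist
  simp only [one_mul, neg_mul, zero_smul, add_zero, ← sub_eq_add_neg] at z1 z2 z3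
  have hp : (0 : ℝ) < 1 + a := by linarith
  have hm : (0 : ℝ) < 1 - a := by linarith
  have hOR : O ∈ interior R := by
    have hopen : IsOpen {x : E2 | (1 - a)⁻¹ • x ∈ interior P} :=
      isOpen_interior.preimage (continuous_const_smul _)
    have hsub : {x : E2 | (1 - a)⁻¹ • x ∈ interior P} ⊆ R := by
      intro x hx
      have h2 := hin _ (interior_subset hx)
      rwa [smul_smul, mul_inv_cancel₀ hm.ne', one_smul] at h2
    exact interior_maximal hsub hopen z3
  obtain ⟨hρ, hRr⟩ := h1 R hR O hOR t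
  have hup : rho R O t < r0 + η' / 2 := by
    by_contra hcon
    rw [not_lt] at hcon
    have h2 := (hRr _ (by positivity)).2 hcon
    obtain ⟨y, hy, hxy⟩ := hout _ h2
    rw [hxy, smul_smul, inv_mul_cancel₀ hp.ne', one_smul] at z1
    exact z1 hy
  have hlo : r0 - η' / 2 ≤ rho R O t := by
    rw [← hRr _ (by linarith)]
    have h2 := hin _ (interior_subset z2)
    rwa [smul_smul, mul_inv_cancel₀ hm.ne', one_smul] at h2
  refine ⟨hOR, ?_⟩
  rw [abs_lt]
  constructor <;> linarith

end Pool.Agent.T6.H7.QS
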