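import Pool.Agent.T6.H7.QS.Defs

/-!
# Module POL of project QS (MP_79dd7e_co): area in polar coordinates
-/

set_option autoImplicit false

namespace Pool.Agent.T6.H7.QS.ModPOL

open MeasureTheory Set Pool.V11275.Quad Pool.Agent.Helper717.Hull1 Pool.Agent.Helper717.Hull2
open Pool.Agent.T6.H7.QS
open scoped Real ENNReal

@[simp] theorem u_zero (t : ℝ) : u t 0 = Real.cos t := rfl
@[simp] theorem u_one (t : ℝ) : u t 1 = Real.sin t := rfl

theorem rot_u (t : ℝ) : rot (u t) = u (t + π / 2) := by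
  apply ext2 <;> simp [Real.cos_add_pi_div_two, Real.sin_add_pi_div_two]

theorem u_ne (t : ℝ) : u t ≠ 0 := by
  intro h
  have h0 := congrFun (congrArg (fun x : E2 => (x : Fin 2 → ℝ)) h) 0
  have h1 := congrFun (congrArg (fun x : E2 => (x : Fin 2 → ℝ)) h) 1
  simp at h0 h1
  have := Real.sin_sq_add_cos_sq t
  rw [h0, h1] at this
  norm_num at this

/-- The rotation that sends the standard basis to `u t`, `u (t + π / 2)`. -/
noncomputable def rt (t : ℝ) : E2 ≃ₗᵢ[ℝ] E2 where
  toFun := fun z => z 0 • u t + z 1 • u (t + π / 2)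
  invFun := fun x => !₂[dot (u t) x, dot (u (t + π / 2)) x]
  map_add' := by
    intro x y
    apply ext2 <;> simp [Real.cos_add_pi_div_two, Real.sin_add_pi_div_two] <;> ring
  map_smul' := by
    intro r x
    apply ext2 <;> simp [Real.cos_add_pi_div_two, Real.sin_add_pi_div_two] <;> ring
  left_inv := by
    intro x
    have h := Real.sin_sq_add_cos_sq t
    apply ext2
    · simp [dot, Real.cos_add_pi_div_two, Real.sin_add_pi_div_two]
      linear_combination (x 0) * h
    · simp [dot, Real.cos_add_pi_div_two, Real.sin_add_pi_div_two]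
      linear_combination (x 1) * h
  right_inv := by
    intro x
    have h := Real.sin_sq_add_cos_sq t
    apply ext2
    · simp [dot, Real.cos_add_pi_div_two, Real.sin_add_pi_div_two]
      linear_combination (x 0) * h
    · simp [dot, Real.cos_add_pi_div_two, Real.sin_add_pi_div_two]
      linear_combination (x 1) * h
  norm_map' := by
    intro x
    have h := Real.sin_sq_add_cos_sq t
    show ‖x 0 • u t + x 1 • u (t + π / 2)‖ = ‖x‖
    rw [EuclideanSpace.norm_eq, EuclideanSpace.norm_eq]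
    congr 1
    rw [Fin.sum_univ_two, Fin.sum_univ_two]
    simp [Real.cos_add_pi_div_two, Real.sin_add_pi_div_two]
    linear_combination (x 0 ^ 2 + x 1 ^ 2) * h

theorem rt_apply (t : ℝ) (z : E2) : rt t z = z 0 • u t + z 1 • u (t + π / 2) := rfl

/-- The pair as a vector. -/
noncomputable def E (p : ℝ × ℝ) : E2 := !₂[p.1, p.2]

theorem mp_E : MeasurePreserving E (volume : Measure (ℝ × ℝ)) (volume : Measure E2) := by
  have h1 := (volume_preserving_finTwoArrow ℝ).symm
  have h2 := PiLp.volume_preserving_toLp (Fin 2)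
  exact h2.comp h1

/-- The coordinates with respect to `O`, `u t`, `u (t + π / 2)`. -/
noncomputable def Phi (O : E2) (t : ℝ) (p : ℝ × ℝ) : E2 :=
  O + (p.1 • u t + p.2 • u (t + π / 2))

theorem mp_Phi (O : E2) (t : ℝ) :
    MeasurePreserving (Phi O t) (volume : Measure (ℝ × ℝ)) (volume : Measure E2) := by
  have h := (measurePreserving_add_left (volume : Measure E2) O).comp
    ((rt t).measurePreserving.comp mp_E)
  exact h

theorem u_add (t p : ℝ) : u (t + p) = Real.cos p • u t + Real.sin p • u (t + π / 2) := by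
  apply ext2
  · simp [Real.cos_add_pi_div_two, Real.cos_add]; ring
  · simp [Real.sin_add_pi_div_two, Real.sin_add]; ring

/-- The part of `R` in the quadrant, in coordinates. -/
def S (R : Set E2) (O : E2) (t : ℝ) : Set (ℝ × ℝ) := {p | 0 ≤ p.1 ∧ 0 ≤ p.2 ∧ Phi O t p ∈ R}

theorem pre_S (R : Set E2) (O : E2) (t : ℝ) :
    Phi O t ⁻¹' (R ∩ quad O (u t)) = S R O t := by
  ext p
  have h := Real.sin_sq_add_cos_sq t
  have e1 : dot (u t) (Phi O t p - O) = p.1 := by
    simp [Phi, dot, Real.cos_add_pi_div_two, Real.sin_add_pi_div_two]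
    linear_combination p.1 * h
  have e2 : dot (u (t + π / 2)) (Phi O t p - O) = p.2 := by
    simp [Phi, dot, Real.cos_add_pi_div_two, Real.sin_add_pi_div_two]
    linear_combination p.2 * h
  rw [mem_preimage, mem_inter_iff, quad_iff _ _ _ (u_ne t), rot_u, e1, e2]
  constructor
  · rintro ⟨h1, h2, h3⟩; exact ⟨h2, h3, h1⟩
  · rintro ⟨h1, h2, h3⟩; exact ⟨h3, h1, h2⟩

theorem meas_RQ {R : Set E2} (hR : Body R) (O : E2) (t : ℝ) :
    MeasurableSet (R ∩ quad O (u t)) :=
  hR.comp.isClosed.measurableSet.inter (quad_meas _ _ (u_ne t))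

theorem meas_S {R : Set E2} (hR : Body R) (O : E2) (t : ℝ) : MeasurableSet (S R O t) := by
  rw [← pre_S]
  exact (mp_Phi O t).measurable (meas_RQ hR O t)

theorem vol_S {R : Set E2} (hR : Body R) (O : E2) (t : ℝ) :
    volume (R ∩ quad O (u t)) = volume (S R O t) := by
  rw [← pre_S, (mp_Phi O t).measure_preimage (meas_RQ hR O t).nullMeasurableSet]

theorem mem_polar (h1 : StmtRho) {R : Set E2} (hR : Body R) {O : E2} (hO : O ∈ interior R)
    (t r φ : ℝ) (hr : 0 < r) (hφ : -π < φ) (hφ' : φ < π) :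
    ((r * Real.cos φ, r * Real.sin φ) : ℝ × ℝ) ∈ S R O t ↔
      (0 ≤ φ ∧ φ ≤ π / 2) ∧ r ≤ rho R O (t + φ) := by
  have e : Phi O t (r * Real.cos φ, r * Real.sin φ) = O + r • u (t + φ) := by
    rw [u_add, smul_add, smul_smul, smul_smul]; rfl
  have hc : ((r * Real.cos φ, r * Real.sin φ) : ℝ × ℝ) ∈ S R O t ↔
      0 ≤ r * Real.cos φ ∧ 0 ≤ r * Real.sin φ ∧ O + r • u (t + φ) ∈ R := by
    rw [← e]; rfl
  rw [hc, (h1 R hR O hO (t + φ)).2 r hr.le]
  constructor
  · rintro ⟨h2, h3, h4⟩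
    refine ⟨⟨?_, ?_⟩, h4⟩
    · by_contra hc
      have := Real.sin_neg_of_neg_of_neg_pi_lt (not_le.1 hc) hφ
      nlinarith
    · by_contra hc
      have := Real.cos_neg_of_pi_div_two_lt_of_lt (not_le.1 hc) (by linarith [Real.pi_pos])
      nlinarith
  · rintro ⟨⟨h2, h3⟩, h4⟩
    refine ⟨mul_nonneg hr.le (Real.cos_nonneg_of_mem_Icc ⟨by linarith [Real.pi_pos], h3⟩),
      mul_nonneg hr.le (Real.sin_nonneg_of_nonneg_of_le_pi h2 hφ'.le), h4⟩

/-- The integrand in polar coordinates. -/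
noncomputable def T (R : Set E2) (O : E2) (t : ℝ) : Set (ℝ × ℝ) :=
  {p | 0 < p.1 ∧ p.1 ≤ rho R O (t + p.2) ∧ 0 ≤ p.2 ∧ p.2 ≤ π / 2}

theorem cont_rho (h2 : StmtRhoC) {R : Set E2} (hR : Body R) {O : E2} (hO : O ∈ interior R) :
    Continuous fun τ : ℝ => rho R O τ := by
  have h := h2 R hR
  rw [← continuousOn_univ]
  exact h.comp (f := fun τ : ℝ => (O, τ)) (by fun_prop) (fun τ _ => ⟨hO, mem_univ _⟩)

theorem meas_T (h2 : StmtRhoC) {R : Set E2} (hR : Body R) {O : E2} (hO : O ∈ interior R) (t : ℝ) :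
    MeasurableSet (T R O t) := by
  have hc := cont_rho h2 hR hO
  have h3 : Continuous fun p : ℝ × ℝ => rho R O (t + p.2) := hc.comp (by fun_prop)
  have m1 : MeasurableSet {p : ℝ × ℝ | 0 < p.1} :=
    (isOpen_lt continuous_const continuous_fst).measurableSet
  have m2 : MeasurableSet {p : ℝ × ℝ | p.1 ≤ rho R O (t + p.2)} :=
    (isClosed_le continuous_fst h3).measurableSet
  have m3 : MeasurableSet {p : ℝ × ℝ | 0 ≤ p.2} :=
    (isClosed_le continuous_const continuous_snd).measurableSet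
  have m4 : MeasurableSet {p : ℝ × ℝ | p.2 ≤ π / 2} :=
    (isClosed_le continuous_snd continuous_const).measurableSet
  exact m1.inter (m2.inter (m3.inter m4))

theorem step1 (h1 : StmtRho) {R : Set E2} (hR : Body R) {O : E2} (hO : O ∈ interior R) (t : ℝ) :
    volume (S R O t) = ∫⁻ p : ℝ × ℝ, (T R O t).indicator (fun p => ENNReal.ofReal p.1) p := by
  have e0 : volume (S R O t) = ∫⁻ p : ℝ × ℝ, (S R O t).indicator 1 p :=
    (lintegral_indicator_one (meas_S hR O t)).symm
  rw [e0, ← lintegral_comp_polarCoord_symm, ← lintegral_indicator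
    polarCoord.open_target.measurableSet]
  congr 1
  ext p
  obtain ⟨r, φ⟩ := p
  by_cases hp : 0 < r ∧ -π < φ ∧ φ < π
  · obtain ⟨hr, ha, hb⟩ := hp
    have hpt : ((r, φ) : ℝ × ℝ) ∈ polarCoord.target := ⟨hr, ha, hb⟩
    rw [indicator_of_mem hpt]
    have he : polarCoord.symm ((r, φ) : ℝ × ℝ) = (r * Real.cos φ, r * Real.sin φ) := rfl
    rw [he]
    by_cases hs : ((r * Real.cos φ, r * Real.sin φ) : ℝ × ℝ) ∈ S R O t
    · have hs' := (mem_polar h1 hR hO t r φ hr ha hb).1 hs
      have hT : ((r, φ) : ℝ × ℝ) ∈ T R O t := ⟨hr, hs'.2, hs'.1.1, hs'.1.2⟩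
      rw [indicator_of_mem hs, indicator_of_mem hT]
      simp
    · have hT : ((r, φ) : ℝ × ℝ) ∉ T R O t := fun k =>
        hs ((mem_polar h1 hR hO t r φ hr ha hb).2 ⟨⟨k.2.2.1, k.2.2.2⟩, k.2.1⟩)
      rw [indicator_of_notMem hs, indicator_of_notMem hT]
      simp
  · have hpt : ((r, φ) : ℝ × ℝ) ∉ polarCoord.target := fun k => hp ⟨k.1, k.2.1, k.2.2⟩
    have hT : ((r, φ) : ℝ × ℝ) ∉ T R O t := fun k => hp
      ⟨k.1, lt_of_lt_of_le (neg_lt_zero.2 Real.pi_pos) k.2.2.1,
        lt_of_le_of_lt k.2.2.2 (by linarith [Real.pi_pos])⟩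
    rw [indicator_of_notMem hpt, indicator_of_notMem hT]

theorem inner {ρ : ℝ} (h : 0 ≤ ρ) :
    ∫⁻ r : ℝ, (Ioc (0 : ℝ) ρ).indicator (fun r => ENNReal.ofReal r) r =
      ENNReal.ofReal (ρ ^ 2 / 2) := by
  rw [lintegral_indicator measurableSet_Ioc, ← ofReal_integral_eq_lintegral_ofReal]
  · congr 1
    rw [← intervalIntegral.integral_of_le h, integral_id]; ring
  · exact (continuous_id.integrableOn_Icc (a := 0) (b := ρ)).mono_set Ioc_subset_Icc_self
  · rw [Filter.EventuallyLE, ae_restrict_iff' measurableSet_Ioc]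
    exact Filter.Eventually.of_forall fun x hx => hx.1.le

theorem step2 (h1 : StmtRho) (h2 : StmtRhoC) {R : Set E2} (hR : Body R) {O : E2}
    (hO : O ∈ interior R) (t : ℝ) :
    ∫⁻ p : ℝ × ℝ, (T R O t).indicator (fun p => ENNReal.ofReal p.1) p =
      ∫⁻ φ : ℝ in Icc 0 (π / 2), ENNReal.ofReal (rho R O (t + φ) ^ 2 / 2) := by
  have hG : Measurable fun p : ℝ × ℝ => (T R O t).indicator (fun p => ENNReal.ofReal p.1) p :=
    (Measurable.indicator (by fun_prop) (meas_T h2 hR hO t))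
  rw [Measure.volume_eq_prod, lintegral_prod_symm _ hG.aemeasurable,
    ← lintegral_indicator measurableSet_Icc]
  congr 1
  ext φ
  by_cases hφ : φ ∈ Icc (0 : ℝ) (π / 2)
  · rw [indicator_of_mem hφ, ← inner (h1 R hR O hO (t + φ)).1.le]
    congr 1
    ext r
    by_cases hr : r ∈ Ioc (0 : ℝ) (rho R O (t + φ))
    · have hT : ((r, φ) : ℝ × ℝ) ∈ T R O t := ⟨hr.1, hr.2, hφ.1, hφ.2⟩
      rw [indicator_of_mem hr, indicator_of_mem hT]
    · have hT : ((r, φ) : ℝ × ℝ) ∉ T R O t := fun k => hr ⟨k.1, k.2.1⟩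
      rw [indicator_of_notMem hr, indicator_of_notMem hT]
  · rw [indicator_of_notMem hφ]
    have : ∀ r : ℝ, (T R O t).indicator (fun p : ℝ × ℝ => ENNReal.ofReal p.1) (r, φ) = 0 := by
      intro r
      have hT : ((r, φ) : ℝ × ℝ) ∉ T R O t := fun k => hφ ⟨k.2.2.1, k.2.2.2⟩
      rw [indicator_of_notMem hT]
    simp only [this, lintegral_zero]

theorem main (h1 : StmtRho) (h2 : StmtRhoC) {R : Set E2} (hR : Body R) {O : E2}
    (hO : O ∈ interior R) (t : ℝ) :
    f R O t = ∫ τ in t..(t + π / 2), rho R O τ ^ 2 / 2 := by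
  have hc := cont_rho h2 hR hO
  have hc2 : Continuous fun φ : ℝ => rho R O (t + φ) ^ 2 / 2 := by
    have : Continuous fun φ : ℝ => rho R O (t + φ) := hc.comp (by fun_prop)
    fun_prop
  have hnn : ∀ φ : ℝ, 0 ≤ rho R O (t + φ) ^ 2 / 2 := fun φ => by positivity
  unfold f Measure.real
  rw [vol_S hR, step1 h1 hR hO, step2 h1 h2 hR hO,
    ← ofReal_integral_eq_lintegral_ofReal hc2.integrableOn_Icc
      (Filter.Eventually.of_forall hnn), ENNReal.toReal_ofReal (integral_nonneg hnn),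
    integral_Icc_eq_integral_Ioc, ← intervalIntegral.integral_of_le (by positivity)]
  have := intervalIntegral.integral_comp_add_left (a := 0) (b := π / 2)
    (fun τ => rho R O τ ^ 2 / 2) t
  rw [this, add_zero]

end Pool.Agent.T6.H7.QS.ModPOL

namespace Pool.Agent.T6.H7.QS

/-- Module POL: area in polar coordinates. -/
theorem pol (h1 : StmtRho) (h2 : StmtRhoC) : StmtPol :=
  fun _ hR _ hO t => ModPOL.main h1 h2 hR hO t

end Pool.Agent.T6.H7.QS
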