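import Pool.Agent.T6.H7.QS.Defs

set_option autoImplicit false

/-! Project QS, module RAY. -/

namespace Pool.Agent.T6.H7.QS.ModRay

open MeasureTheory Set Pool.V11275.Quad Pool.Agent.Helper717.Hull1 Pool.Agent.Helper717.Hull2
open Pool.Agent.T6.H7.QS
open scoped Real

lemma dot_add_smul (a x y : E2) (r : ℝ) : dot a (x + r • y) = dot a x + r * dot a y := by
  simp [dot]; ring

lemma dot_u (s t : ℝ) : dot (u s) (u t) = Real.cos (s - t) := by
  rw [Real.cos_sub]; simp [dot, u]

theorem ray (h1 : StmtRho) (h2 : StmtHrep) : StmtRay := by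
  intro m hm ho X hX j d γ hdγ hc hT
  obtain ⟨hP, hB, -, hE⟩ := h2 m hm ho
  have hmem : ∀ x ∈ P1 m, dot (u (d + γ)) x ≤ 1 := by
    intro x hx
    rw [hP] at hx
    have := hx j
    rw [hdγ]; exact this
  have hN : dot (u (d + γ)) X < 1 := by
    obtain ⟨h3, h4⟩ := h1 (P1 m) hB X hX (d + γ)
    have h5 := hmem _ ((h4 _ h3.le).2 le_rfl)
    rw [dot_add_smul, dot_u, sub_self, Real.cos_zero, mul_one] at h5
    linarith
  obtain ⟨hpos, hiff⟩ := h1 (P1 m) hB X hX d
  have hr0 : 0 ≤ (1 - dot (u (d + γ)) X) / Real.cos γ := div_nonneg (by linarith) hc.le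
  have hNd : dot (u (d + γ)) (u d) = Real.cos γ := by rw [dot_u]; congr 1; ring
  have hTd : dot (u (d + γ + π / 2)) (u d) = -Real.sin γ := by
    rw [dot_u, show d + γ + π / 2 - d = γ + π / 2 by ring, Real.cos_add_pi_div_two]
  apply le_antisymm
  · have h5 := hmem _ ((hiff _ hpos.le).2 le_rfl)
    rw [dot_add_smul, hNd] at h5
    rw [le_div_iff₀ hc]
    linarith
  · refine (hiff _ hr0).1 (hE j _ ?_ ?_)
    · rw [← hdγ, dot_add_smul, hNd]
      field_simp
      ring
    · rw [← hdγ, dot_add_smul, hTd]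
      have e : dot (u (d + γ + π / 2)) X +
          (1 - dot (u (d + γ)) X) / Real.cos γ * -Real.sin γ =
          dot (u (d + γ + π / 2)) X - (1 - dot (u (d + γ)) X) * Real.tan γ := by
        rw [Real.tan_eq_sin_div_cos]; field_simp; ring
      rw [e]; exact hT

end Pool.Agent.T6.H7.QS.ModRay

namespace Pool.Agent.T6.H7.QS
theorem ray (h1 : StmtRho) (h2 : StmtHrep) : StmtRay := ModRay.ray h1 h2
end Pool.Agent.T6.H7.QS
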