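import Pool.Agent.T6.H7.QS.Defs

set_option autoImplicit false

/-!
Project QS (MP_79dd7e_co), module RAYS (helper29).
-/

namespace Pool.Agent.T6.H7.QS

open MeasureTheory Set Pool.V11275.Quad Pool.Agent.Helper717.Hull1 Pool.Agent.Helper717.Hull2
open scoped Real

namespace ModRays

lemma u_zero (t : ℝ) : (u t) 0 = Real.cos t := by simp [u]
lemma u_one (t : ℝ) : (u t) 1 = Real.sin t := by simp [u]

lemma ext_u {x y : E2} (h0 : x 0 = y 0) (h1 : x 1 = y 1) : x = y := by
  ext i
  fin_cases i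
  · exact h0
  · exact h1

lemma u_add_pi (t : ℝ) : u (t + π) = -u t := by
  apply ext_u
  · simp [u_zero, Real.cos_add_pi]
  · simp [u_one, Real.sin_add_pi]

lemma norm_u (t : ℝ) : ‖u t‖ = 1 := by
  rw [EuclideanSpace.norm_eq]
  simp [Fin.sum_univ_two, u]

lemma dot_u (t s x y : ℝ) :
    dot (u (t + s)) (x • u t + y • u (t + π / 2)) = x * Real.cos s + y * Real.sin s := by
  simp only [dot, PiLp.add_apply, PiLp.smul_apply, smul_eq_mul, u_zero, u_one,
    Real.cos_add_pi_div_two, Real.sin_add_pi_div_two]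
  simp only [Real.cos_add, Real.sin_add]
  have h := Real.sin_sq_add_cos_sq t
  linear_combination (x * Real.cos s + y * Real.sin s) * h

/-- the ray in the direction `d` -/
lemma ray_aux (h1 : StmtRay) {m : ℕ} (hm : 3 ≤ m) (hodd : Odd m) {X : E2}
    (hX : X ∈ interior (P1 m)) (j : ℤ) (d γ r p : ℝ) (hj : d + γ = (2 * j + 1) * (π / m))
    (hX' : X = r • u d + p • u (d + π / 2)) (hc : 0 < Real.cos γ) (hw : 0 < Real.cos (π / m))
    (hlo : -(Real.sin (π / m - γ) / Real.cos (π / m)) ≤ p)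
    (hup : p ≤ Real.sin (π / m + γ) / Real.cos (π / m)) :
    rho (P1 m) X d = (1 - r * Real.cos γ - p * Real.sin γ) / Real.cos γ := by
  have e1 : dot (u (d + γ)) X = r * Real.cos γ + p * Real.sin γ := by rw [hX', dot_u]
  have e2 : dot (u (d + γ + π / 2)) X = -(r * Real.sin γ) + p * Real.cos γ := by
    rw [hX', add_assoc d γ, dot_u, Real.cos_add_pi_div_two, Real.sin_add_pi_div_two]; ring
  have e3 : dot (u (d + γ + π / 2)) X - (1 - dot (u (d + γ)) X) * Real.tan γ =
      (p - Real.sin γ) / Real.cos γ := by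
    rw [e1, e2, Real.tan_eq_sin_div_cos]
    field_simp
    have h := Real.sin_sq_add_cos_sq γ
    linear_combination p * h
  have key : |dot (u (d + γ + π / 2)) X - (1 - dot (u (d + γ)) X) * Real.tan γ| ≤
      Real.tan (π / m) := by
    rw [e3, abs_le, Real.tan_eq_sin_div_cos (π / m)]
    rw [Real.sin_sub, ← neg_div, div_le_iff₀ hw] at hlo
    rw [Real.sin_add, le_div_iff₀ hw] at hup
    constructor
    · rw [← neg_div, div_le_div_iff₀ hw hc]; linarith
    · rw [div_le_div_iff₀ hc hw]; linarith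
  rw [h1 m hm hodd X hX j d γ hj hc key, e1]
  congr 1
  ring

end ModRays

open ModRays

theorem rays (h1 : StmtRay) (h2 : StmtHF) (h3 : StmtHrep) : StmtRays := by
  intro m hm5 hodd θ hθ0 hθ a y ha0 ha hy hy0
  have hm3 : 3 ≤ m := by omega
  have hmR : (5 : ℝ) ≤ m := by exact_mod_cast hm5
  have hmpos : (0 : ℝ) < m := by linarith
  have hpi := Real.pi_pos
  set w : ℝ := π / m with hw
  have hw0 : 0 < w := div_pos hpi hmpos
  have hw5 : w ≤ π / 5 := div_le_div_of_nonneg_left hpi.le (by norm_num) hmR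
  have hmw : m * w = π := by rw [hw]; field_simp
  have hcw : 0 < Real.cos w := Real.cos_pos_of_mem_Ioo ⟨by linarith, by linarith⟩
  obtain ⟨hA0, -, hA1, hA2⟩ := h2 w θ (w / 2 - θ) hw0 hw5 hθ0 (by linarith) (by ring)
  obtain ⟨hB0, -, hB1, hB2⟩ := h2 w (w / 2 - θ) θ hw0 hw5 (by linarith) hθ0 (by ring)
  change a ≤ h w θ at ha
  change -h w (w / 2 - θ) ≤ y at hy
  set A := h w (w / 2 - θ) with hA
  set B := h w θ with hB
  have hsg : |sg m| = 1 := by unfold sg; split_ifs <;> simp
  have hXi : (sg m * a) • u θ + y • u (θ + π / 2) ∈ interior (P1 m) := by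
    refine (h3 m hm3 hodd).2.2.1 ?_
    rw [Metric.mem_ball, dist_zero_right]
    refine (norm_add_le _ _).trans_lt ?_
    rw [norm_smul, norm_smul, norm_u, norm_u, Real.norm_eq_abs, Real.norm_eq_abs, abs_mul, hsg,
      abs_of_nonneg ha0, abs_of_nonpos hy0]
    linarith
  set X : E2 := (sg m * a) • u θ + y • u (θ + π / 2) with hXd
  have hsin : ∀ t : ℝ, 0 ≤ t → t ≤ π → 0 ≤ Real.sin t / Real.cos w := fun t h h' =>
    div_nonneg (Real.sin_nonneg_of_nonneg_of_le_pi h h') hcw.le
  have hmono : ∀ t t' : ℝ, 0 ≤ t → t ≤ t' → t' ≤ π / 2 →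
      Real.sin t / Real.cos w ≤ Real.sin t' / Real.cos w := fun t t' h h' h'' =>
    div_le_div_of_nonneg_right (Real.sin_le_sin_of_le_of_le_pi_div_two (by linarith) h'' h') hcw.le
  have hcosg : ∀ g : ℝ, -(π / 2) < g → g < π / 2 → 0 < Real.cos g := fun g h h' =>
    Real.cos_pos_of_mem_Ioo ⟨h, h'⟩
  -- the two cases for the rays of the second line
  have hcase1 : -(Real.sin (w - (w / 2 - θ)) / Real.cos w) ≤ -a ∧
      -a ≤ Real.sin (w + (w / 2 - θ)) / Real.cos w := by
    have e1 := hmono (w / 2 - θ) (w - (w / 2 - θ)) (by linarith) (by linarith) (by linarith)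
    have e2 := hsin (w + (w / 2 - θ)) (by linarith) (by linarith)
    constructor <;> linarith
  have hcase2 : -(Real.sin (w - -(w / 2 + θ)) / Real.cos w) ≤ a ∧
      a ≤ Real.sin (w + -(w / 2 + θ)) / Real.cos w := by
    have e1 := hsin (w - -(w / 2 + θ)) (by linarith) (by linarith)
    have e2 : w + -(w / 2 + θ) = w / 2 - θ := by ring
    rw [e2]
    constructor <;> linarith
  have hc1 : 0 < Real.cos (w / 2 - θ) := hcosg _ (by linarith) (by linarith)
  have hc2 : 0 < Real.cos (-(w / 2 + θ)) := hcosg _ (by linarith) (by linarith)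
  have eX1 : X = y • u (θ + π / 2) + (-(sg m * a)) • u (θ + π / 2 + π / 2) := by
    have : θ + π / 2 + π / 2 = θ + π := by ring
    rw [this, u_add_pi, hXd]; module
  have eX2 : X = (-(sg m * a)) • u (θ + π) + (-y) • u (θ + π + π / 2) := by
    have : θ + π + π / 2 = θ + π / 2 + π := by ring
    rw [this, u_add_pi, u_add_pi, hXd]; module
  have eX3 : X = (-y) • u (θ + 3 * (π / 2)) + (sg m * a) • u (θ + 3 * (π / 2) + π / 2) := by
    have e1 : θ + 3 * (π / 2) = θ + π / 2 + π := by ring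
    have e2 : θ + 3 * (π / 2) + π / 2 = θ + π + π := by ring
    rw [e2, e1, u_add_pi, u_add_pi, u_add_pi, hXd]; module
  refine ⟨hXi, ?_, ?_, ?_, ?_⟩
  · have hg : gam0 m θ = w - θ := rfl
    rw [hg]
    refine ray_aux h1 hm3 hodd hXi 0 θ (w - θ) (sg m * a) y (by push_cast; ring) rfl
      (hcosg _ (by linarith) (by linarith)) hcw ?_ ?_
    · have : w - (w - θ) = θ := by ring
      rw [← hw, this]; linarith
    · have := hsin (w + (w - θ)) (by linarith) (by linarith)
      rw [← hw]; linarith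
  · rcases (show m % 4 = 1 ∨ m % 4 = 3 by have := Nat.odd_iff.1 hodd; omega) with h4 | h4
    · obtain ⟨q, hq⟩ : ∃ q, m = 4 * q + 1 := ⟨m / 4, by omega⟩
      have hg : gam1 m θ = w / 2 - θ := by unfold gam1; rw [if_pos h4]
      have hs : sg m = 1 := by unfold sg; rw [if_pos h4]
      rw [hg]
      have hqw : (4 * q + 1 : ℝ) * w = π := by rw [← hmw, hq]; push_cast; ring
      refine (ray_aux h1 hm3 hodd hXi q (θ + π / 2) (w / 2 - θ) y (-(sg m * a)) ?_ eX1 hc1 hcw
        ?_ ?_).trans ?_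
      · rw [← hw]; push_cast; linarith
      · rw [← hw, hs]; linarith [hcase1.1]
      · rw [← hw, hs]; linarith [hcase1.2]
      · congr 1; ring
    · obtain ⟨q, hq⟩ : ∃ q, m = 4 * q + 3 := ⟨m / 4, by omega⟩
      have hn4 : ¬ m % 4 = 1 := by omega
      have hg : gam1 m θ = -(w / 2 + θ) := by unfold gam1; rw [if_neg hn4]
      have hs : sg m = -1 := by unfold sg; rw [if_neg hn4]
      rw [hg]
      have hqw : (4 * q + 3 : ℝ) * w = π := by rw [← hmw, hq]; push_cast; ring
      refine (ray_aux h1 hm3 hodd hXi q (θ + π / 2) (-(w / 2 + θ)) y (-(sg m * a)) ?_ eX1 hc2 hcw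
        ?_ ?_).trans ?_
      · rw [← hw]; push_cast; linarith
      · rw [← hw, hs]; linarith [hcase2.1]
      · rw [← hw, hs]; linarith [hcase2.2]
      · congr 1; ring
  · have hg : gam2 m θ = -θ := rfl
    rw [hg]
    obtain ⟨k, hk⟩ := hodd
    have hodd' : Odd m := ⟨k, hk⟩
    have hkw : (2 * k + 1 : ℝ) * w = π := by rw [← hmw, hk]; push_cast; ring
    refine (ray_aux h1 hm3 hodd' hXi k (θ + π) (-θ) (-(sg m * a)) (-y) ?_ eX2
      (hcosg _ (by linarith) (by linarith)) hcw ?_ ?_).trans ?_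
    · rw [← hw]; push_cast; linarith
    · have := hsin (w - -θ) (by linarith) (by linarith)
      rw [← hw]; linarith
    · have := hmono θ (w + -θ) hθ0 (by linarith) (by linarith)
      rw [← hw]; linarith
    · congr 1; ring
  · rcases (show m % 4 = 1 ∨ m % 4 = 3 by have := Nat.odd_iff.1 hodd; omega) with h4 | h4
    · obtain ⟨q, hq⟩ : ∃ q, m = 4 * q + 1 := ⟨m / 4, by omega⟩
      have hg : gam3 m θ = -(w / 2 + θ) := by unfold gam3; rw [if_pos h4]
      have hs : sg m = 1 := by unfold sg; rw [if_pos h4]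
      rw [hg]
      have hqw : (4 * q + 1 : ℝ) * w = π := by rw [← hmw, hq]; push_cast; ring
      refine (ray_aux h1 hm3 hodd hXi (3 * q) (θ + 3 * (π / 2)) (-(w / 2 + θ)) (-y) (sg m * a)
        ?_ eX3 hc2 hcw ?_ ?_).trans ?_
      · rw [← hw]; push_cast; linarith
      · rw [← hw, hs]; linarith [hcase2.1]
      · rw [← hw, hs]; linarith [hcase2.2]
      · congr 1; ring
    · obtain ⟨q, hq⟩ : ∃ q, m = 4 * q + 3 := ⟨m / 4, by omega⟩
      have hn4 : ¬ m % 4 = 1 := by omega
      have hg : gam3 m θ = w / 2 - θ := by unfold gam3; rw [if_neg hn4]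
      have hs : sg m = -1 := by unfold sg; rw [if_neg hn4]
      rw [hg]
      have hqw : (4 * q + 3 : ℝ) * w = π := by rw [← hmw, hq]; push_cast; ring
      refine (ray_aux h1 hm3 hodd hXi (3 * q + 2) (θ + 3 * (π / 2)) (w / 2 - θ) (-y) (sg m * a)
        ?_ eX3 hc1 hcw ?_ ?_).trans ?_
      · rw [← hw]; push_cast; linarith
      · rw [← hw, hs]; linarith [hcase1.1]
      · rw [← hw, hs]; linarith [hcase1.2]
      · congr 1; ring

end Pool.Agent.T6.H7.QS
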