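import Pool.Agent.T6.H7.QS.Defs

set_option autoImplicit false

/-! Project QS: assembly. -/

namespace Pool.Agent.T6.H7.QS

open MeasureTheory Set Pool.V11275.Quad Pool.Agent.Helper717.Hull1 Pool.Agent.Helper717.Hull2
open scoped Real

namespace RegM

/-- Facts on all crosses of the regular polygon. -/
theorem reg (hH : StmtHrep) (hS : StmtSym) (hU : StmtUniq)
    (hC : ∀ m : ℕ, 5 ≤ m → Odd m → BaseC m) (hB : ∀ m : ℕ, 5 ≤ m → Odd m → BaseB m)
    (m : ℕ) (hm : 5 ≤ m) (ho : Odd m) :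
    (∀ (O : E2) (t : ℝ), Conf (P1 m) O t → ∃ k : ℤ, t = k * (π / (2 * m))) ∧
    (∀ (O : E2) (k : ℤ), Conf (P1 m) O (k * (π / (2 * m))) → ND (P1 m) O (k * (π / (2 * m)))) ∧
    (∀ (k : ℤ) (t : ℝ), k * (π / (2 * m)) < t → t < (k + 1) * (π / (2 * m)) →
      ∃ O ∈ interior (P1 m), Bis (P1 m) O t ∧
        (-1 : ℝ) ^ k * (f (P1 m) O t - M (P1 m) / 4) < 0) := by
  obtain ⟨-, hbody, -, -⟩ := hH m (by omega) ho
  obtain ⟨h1, h2⟩ := hS m hm ho (hC m hm ho) (hB m hm ho)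
  have hz : 0 < π / (2 * m) := by
    have : (0 : ℝ) < m := by exact_mod_cast (by omega : 0 < m)
    positivity
  refine ⟨?_, ?_, h1⟩
  · intro O t hc
    by_contra hno
    push Not at hno
    set k : ℤ := ⌊t / (π / (2 * m))⌋ with hk
    have k1 : k * (π / (2 * m)) ≤ t := by
      rw [← le_div_iff₀ hz]; exact Int.floor_le _
    have k2 : t < (k + 1) * (π / (2 * m)) := by
      rw [← div_lt_iff₀ hz]; exact Int.lt_floor_add_one _
    have k3 : k * (π / (2 * m)) < t := lt_of_le_of_ne k1 (fun e => hno k e.symm)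
    obtain ⟨O', hO', hb, hf⟩ := h1 k t k3 k2
    have e := hU (P1 m) hbody O O' t hc.1 hO' hc.2.1 hb
    rw [← e, hc.2.2] at hf
    simp at hf
  · intro O k hc
    obtain ⟨O', hc', hn⟩ := h2 k
    have e := hU (P1 m) hbody O O' _ hc.1 hc'.1 hc.2.1 hc'.2.1
    rw [e]
    exact hn

theorem zero_int (hH : StmtHrep) (m : ℕ) (hm : 5 ≤ m) (ho : Odd m) :
    (0 : E2) ∈ interior (P1 m) := by
  obtain ⟨-, -, hball, -⟩ := hH m (by omega) ho
  exact hball (Metric.mem_ball_self one_pos)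

/-- A set sandwiched between multiples of a body with `0` in the interior has nonempty interior. -/
theorem sand_int {P R : Set E2} {δ : ℝ} (h0 : (0 : E2) ∈ interior P) (h : Sand δ P R) :
    (interior R).Nonempty := by
  obtain ⟨a, ha0, -, ha1, h1, -⟩ := h
  have hpos : (0 : ℝ) < 1 - a := by linarith
  have hopen : IsOpen ((fun x : E2 => (1 - a) • x) '' interior P) :=
    (Homeomorph.smulOfNeZero (1 - a) hpos.ne').isOpenMap _ isOpen_interior
  refine ⟨0, ?_⟩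
  rw [mem_interior]
  refine ⟨_, ?_, hopen, ⟨0, h0, smul_zero _⟩⟩
  rintro _ ⟨x, hx, rfl⟩
  exact h1 x (interior_subset hx)

/-- Polygons with vertices close to those of `P1 m`. -/
theorem main (hH : StmtHrep) (hS : StmtSym) (hUn : StmtUniq) (hCl : StmtClose)
    (hUp : StmtUpper) (hLo : StmtLower)
    (hC : ∀ m : ℕ, 5 ≤ m → Odd m → BaseC m) (hB : ∀ m : ℕ, 5 ≤ m → Odd m → BaseB m)
    (m : ℕ) (hm : 5 ≤ m) (ho : Odd m) :
    ∃ ε : ℝ, 0 < ε ∧ ∀ v : Fin m → E2, (∀ k, dist (v k) (W m k) < ε) →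
      {q | IsQuadrisection (convexHull ℝ (range v)) q}.encard = (m : ℕ∞) := by
  obtain ⟨-, hbody, -, -⟩ := hH m (by omega) ho
  have h0 := zero_int hH m hm ho
  obtain ⟨r1, r2, r3⟩ := reg hH hS hUn hC hB m hm ho
  obtain ⟨d1, hd1, H1⟩ := hUp (P1 m) hbody h0 m ho r1 r2
  obtain ⟨d2, hd2, H2⟩ := hLo (P1 m) hbody h0 m ho r3
  set d := min (min d1 d2) (1 / 2) with hd
  have hdpos : 0 < d := lt_min (lt_min hd1 hd2) (by norm_num)
  have hd1' : d ≤ d1 := (min_le_left _ _).trans (min_le_left _ _)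
  have hd2' : d ≤ d2 := (min_le_left _ _).trans (min_le_right _ _)
  have hdl : d < 1 := lt_of_le_of_lt (min_le_right _ _) (by norm_num)
  obtain ⟨ε, hε, H⟩ := hCl m (W m) h0 d hdpos hdl
  refine ⟨ε, hε, fun v hv => ?_⟩
  have hs := H v hv
  have hb : Body (convexHull ℝ (range v)) := by
    refine ⟨convex_convexHull ℝ _, (finite_range v).isCompact_convexHull (𝕜 := ℝ), ?_⟩
    exact sand_int h0 hs
  exact le_antisymm (H1 _ hb (hs.mono hd1')) (H2 _ hb (hs.mono hd2'))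

end RegM

end Pool.Agent.T6.H7.QS
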