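import Pool.Agent.T6.H7.QS.Defs

/-! Module Rho of project QS (helper69 for helper7). -/

set_option autoImplicit false

namespace Pool.Agent.T6.H7.QS

open MeasureTheory Set Pool.V11275.Quad Pool.Agent.Helper717.Hull1 Pool.Agent.Helper717.Hull2
open scoped Real

theorem rho_norm_u (t : ℝ) : ‖u t‖ = 1 := by
  unfold u
  rw [EuclideanSpace.norm_eq, Fin.sum_univ_two]
  simp

theorem rhoM : StmtRho := by
  intro R hR O hO t
  set S : Set ℝ := {r : ℝ | 0 ≤ r ∧ O + r • u t ∈ R} with hS
  have hOR : O ∈ R := interior_subset hO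
  have h0 : (0 : ℝ) ∈ S := ⟨le_refl _, by simpa using hOR⟩
  obtain ⟨C, hC⟩ := hR.comp.isBounded.exists_norm_le
  have hbdd : BddAbove S := by
    refine ⟨C + ‖O‖, ?_⟩
    rintro r ⟨hr0, hr⟩
    have h1 : ‖r • u t‖ = r := by
      rw [norm_smul, rho_norm_u, mul_one, Real.norm_eq_abs, abs_of_nonneg hr0]
    have h2 : r • u t = (O + r • u t) - O := by abel
    calc r = ‖(O + r • u t) - O‖ := by rw [← h2, h1]
      _ ≤ ‖O + r • u t‖ + ‖O‖ := norm_sub_le _ _
      _ ≤ C + ‖O‖ := by linarith [hC _ hr]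
  have hcont : Continuous fun r : ℝ => O + r • u t := by fun_prop
  have hclosed : IsClosed S := by
    have h1 : IsClosed {r : ℝ | 0 ≤ r} := isClosed_le continuous_const continuous_id
    have h2 : IsClosed {r : ℝ | O + r • u t ∈ R} := hR.comp.isClosed.preimage hcont
    exact h1.inter h2
  have hsup : sSup S ∈ S := hclosed.csSup_mem ⟨0, h0⟩ hbdd
  have hpos : 0 < sSup S := by
    obtain ⟨ε, hε, hb⟩ := Metric.mem_nhds_iff.1 (mem_interior_iff_mem_nhds.1 hO)
    have h1 : ε / 2 ∈ S := by
      refine ⟨by positivity, hb ?_⟩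
      rw [Metric.mem_ball, dist_eq_norm]
      have h2 : O + (ε / 2) • u t - O = (ε / 2) • u t := by abel
      rw [h2, norm_smul, rho_norm_u, mul_one, Real.norm_eq_abs, abs_of_pos (by positivity)]
      linarith
    have h2 := le_csSup hbdd h1
    linarith
  have hrho : rho R O t = sSup S := rfl
  rw [hrho]
  refine ⟨hpos, ?_⟩
  intro r hr
  constructor
  · intro h
    exact le_csSup hbdd ⟨hr, h⟩
  · intro h
    have h1 : 0 ≤ r / sSup S := by positivity
    have h2 : r / sSup S ≤ 1 := (div_le_one hpos).2 h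
    have h3 := hR.conv hOR hsup.2 (a := 1 - r / sSup S) (b := r / sSup S) (by linarith) h1
      (by ring)
    have h4 : (1 - r / sSup S) • O + (r / sSup S) • (O + sSup S • u t) = O + r • u t := by
      rw [smul_add, smul_smul, div_mul_cancel₀ _ hpos.ne', ← add_assoc, ← add_smul]
      rw [sub_add_cancel, one_smul]
    rwa [h4] at h3

end Pool.Agent.T6.H7.QS
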