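import Pool.Agent.T6.H7.QS.Defs

/-! Module RhoC of project QS (helper69 for helper7). -/

set_option autoImplicit false

namespace Pool.Agent.T6.H7.QS

open MeasureTheory Set Filter Topology
open Pool.V11275.Quad Pool.Agent.Helper717.Hull1 Pool.Agent.Helper717.Hull2
open scoped Real

theorem rhoC_cont_u : Continuous u := by
  unfold u
  fun_prop

theorem rhoC (h : StmtRho) : StmtRhoC := by
  intro R hR
  rintro ⟨O0, t0⟩ ⟨hO0, -⟩
  simp only at hO0
  apply ContinuousAt.continuousWithinAt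
  obtain ⟨hpos, hiff⟩ := h R hR O0 hO0 t0
  have hcu := rhoC_cont_u
  have hint : ∀ᶠ z : E2 × ℝ in 𝓝 (O0, t0), z.1 ∈ interior R :=
    (continuous_fst.tendsto (O0, t0)).eventually (isOpen_interior.mem_nhds hO0)
  rw [ContinuousAt, tendsto_order]
  constructor
  · intro a ha
    simp only at ha
    obtain ⟨a', ha1, ha2⟩ := exists_between (max_lt ha hpos)
    have ha3 : a < a' := lt_of_le_of_lt (le_max_left _ _) ha1
    have ha4 : 0 < a' := lt_of_le_of_lt (le_max_right _ _) ha1
    have hmem : O0 + rho R O0 t0 • u t0 ∈ R := (hiff _ hpos.le).2 le_rfl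
    have h1 : a' / rho R O0 t0 < 1 := (div_lt_one hpos).2 ha2
    have h2 : 0 ≤ a' / rho R O0 t0 := by positivity
    have h3 := hR.conv.combo_interior_self_mem_interior hO0 hmem
      (a := 1 - a' / rho R O0 t0) (b := a' / rho R O0 t0) (by linarith) h2 (by ring)
    have h4 : (1 - a' / rho R O0 t0) • O0 + (a' / rho R O0 t0) • (O0 + rho R O0 t0 • u t0) =
        O0 + a' • u t0 := by
      rw [smul_add, smul_smul, div_mul_cancel₀ _ hpos.ne', ← add_assoc, ← add_smul]
      rw [sub_add_cancel, one_smul]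
    rw [h4] at h3
    have hc : Continuous fun z : E2 × ℝ => z.1 + a' • u z.2 := by fun_prop
    have h5 : ∀ᶠ z : E2 × ℝ in 𝓝 (O0, t0), z.1 + a' • u z.2 ∈ interior R :=
      (hc.tendsto (O0, t0)).eventually (isOpen_interior.mem_nhds h3)
    filter_upwards [hint, h5] with z hz1 hz2
    have h6 := ((h R hR z.1 hz1 z.2).2 a' ha4.le).1 (interior_subset hz2)
    linarith
  · intro b hb
    simp only at hb
    have hb0 : 0 < b := hpos.trans hb
    have h1 : O0 + b • u t0 ∉ R := fun hh => absurd ((hiff b hb0.le).1 hh) (not_le.2 hb)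
    have hc : Continuous fun z : E2 × ℝ => z.1 + b • u z.2 := by fun_prop
    have h5 : ∀ᶠ z : E2 × ℝ in 𝓝 (O0, t0), z.1 + b • u z.2 ∈ Rᶜ :=
      (hc.tendsto (O0, t0)).eventually (hR.comp.isClosed.isOpen_compl.mem_nhds h1)
    filter_upwards [hint, h5] with z hz1 hz2
    by_contra h6
    exact hz2 (((h R hR z.1 hz1 z.2).2 b hb0.le).2 (not_lt.1 h6))

end Pool.Agent.T6.H7.QS
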