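import Pool.Agent.T6.H7.QS.Defs

set_option autoImplicit false

/-! Module SHU (MP_79dd7e_co): moving the apex of a quadrant along its first side. -/

namespace Pool.Agent.T6.H7.QS

open MeasureTheory Set Pool.V11275.Quad Pool.Agent.Helper717.Hull1 Pool.Agent.Helper717.Hull2
open scoped Real

namespace ModShU

theorem u0 (t : ℝ) : (u t) 0 = Real.cos t := rfl

theorem u1 (t : ℝ) : (u t) 1 = Real.sin t := rfl

theorem u_half (t : ℝ) : u (t + π / 2) = rot (u t) := by
  apply ext2
  · rw [u0, rot_zero, u1, Real.cos_add_pi_div_two]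
  · rw [u1, rot_one, u0, Real.sin_add_pi_div_two]

theorem u_ne (t : ℝ) : u t ≠ 0 := by
  intro h
  have h0 : (u t) 0 = 0 := by rw [h]; rfl
  have h1 : (u t) 1 = 0 := by rw [h]; rfl
  rw [u0] at h0
  rw [u1] at h1
  have := Real.sin_sq_add_cos_sq t
  rw [h0, h1] at this
  norm_num at this

/-- rotation by the angle `t` -/
noncomputable def rotT (t : ℝ) : E2 ≃ₗᵢ[ℝ] E2 where
  toFun := fun y => !₂[Real.cos t * y 0 - Real.sin t * y 1, Real.sin t * y 0 + Real.cos t * y 1]
  invFun := fun y => !₂[Real.cos t * y 0 + Real.sin t * y 1, -Real.sin t * y 0 + Real.cos t * y 1]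
  map_add' := by intro x y; apply ext2 <;> simp <;> ring
  map_smul' := by intro r x; apply ext2 <;> simp <;> ring
  left_inv := by
    intro x
    have h := Real.sin_sq_add_cos_sq t
    apply ext2
    · simp
      linear_combination (x 0) * h
    · simp
      linear_combination (x 1) * h
  right_inv := by
    intro x
    have h := Real.sin_sq_add_cos_sq t
    apply ext2
    · simp
      linear_combination (x 0) * h
    · simp
      linear_combination (x 1) * h
  norm_map' := by
    intro x
    have h := Real.sin_sq_add_cos_sq t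
    show ‖(!₂[Real.cos t * x 0 - Real.sin t * x 1, Real.sin t * x 0 + Real.cos t * x 1] : E2)‖ = ‖x‖
    rw [EuclideanSpace.norm_eq, EuclideanSpace.norm_eq]
    congr 1
    rw [Fin.sum_univ_two, Fin.sum_univ_two]
    simp
    linear_combination (x 0 ^ 2 + x 1 ^ 2) * h

/-- the coordinates -/
noncomputable def Phi (O : E2) (t : ℝ) (q : ℝ × ℝ) : E2 := O + q.1 • u t + q.2 • u (t + π / 2)

theorem phi_mp (O : E2) (t : ℝ) : MeasurePreserving (Phi O t) (volume : Measure (ℝ × ℝ)) volume := by
  have h1 : MeasurePreserving (MeasurableEquiv.finTwoArrow (α := ℝ)).symm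
      (volume : Measure (ℝ × ℝ)) (volume : Measure (Fin 2 → ℝ)) :=
    (volume_preserving_finTwoArrow ℝ).symm
  have h2 : MeasurePreserving ((WithLp.toLp 2) ∘ (MeasurableEquiv.finTwoArrow (α := ℝ)).symm)
      (volume : Measure (ℝ × ℝ)) (volume : Measure E2) :=
    (PiLp.volume_preserving_toLp (Fin 2)).comp h1
  have h3 : MeasurePreserving ((rotT t) ∘ ((WithLp.toLp 2) ∘ (MeasurableEquiv.finTwoArrow (α := ℝ)).symm))
      (volume : Measure (ℝ × ℝ)) (volume : Measure E2) := (rotT t).measurePreserving.comp h2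
  have h4 : MeasurePreserving ((fun x => O + x) ∘ ((rotT t) ∘ ((WithLp.toLp 2) ∘ (MeasurableEquiv.finTwoArrow (α := ℝ)).symm)))
      (volume : Measure (ℝ × ℝ)) (volume : Measure E2) := (measurePreserving_add_left (volume : Measure E2) O).comp h3
  have e : Phi O t = (fun x => O + x) ∘ ((rotT t) ∘ ((WithLp.toLp 2) ∘
      (MeasurableEquiv.finTwoArrow (α := ℝ)).symm)) := by
    funext q
    obtain ⟨a, b⟩ := q
    show O + a • u t + b • u (t + π / 2) = O + rotT t (WithLp.toLp 2 ![a, b])
    rw [u_half, add_assoc]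
    congr 1
    apply ext2
    · simp [rotT, u0, u1]
      ring
    · simp [rotT, u0, u1]
      ring
  rw [e]
  exact h4

theorem phi_quad (O : E2) (t x : ℝ) (q : ℝ × ℝ) :
    Phi O t q ∈ quad (O + x • u t) (u t) ↔ x ≤ q.1 ∧ 0 ≤ q.2 := by
  have h := Real.sin_sq_add_cos_sq t
  rw [quad_iff _ _ _ (u_ne t)]
  have e1 : dot (u t) (Phi O t q - (O + x • u t)) = q.1 - x := by
    unfold Phi dot
    rw [u_half]
    simp [u0, u1]
    linear_combination (q.1 - x) * h
  have e2 : dot (rot (u t)) (Phi O t q - (O + x • u t)) = q.2 := by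
    unfold Phi dot
    rw [u_half]
    simp [u0, u1]
    linear_combination q.2 * h
  rw [e1, e2, sub_nonneg]

theorem seg {R : Set E2} (hR : Body R) {O : E2} {t x : ℝ} (hO : O ∈ interior R)
    (hx : O + x • u t ∈ interior R) (h0 : 0 ≤ x) {s : ℝ} (hs : s ∈ Icc 0 x) :
    O + s • u t ∈ interior R := by
  rcases h0.eq_or_lt with h | h
  · have : s = 0 := le_antisymm (by rw [h]; exact hs.2) hs.1
    rw [this, zero_smul, add_zero]
    exact hO
  · have h1 := hR.conv.interior.add_smul_sub_mem hO hx (t := s / x)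
      ⟨div_nonneg hs.1 h.le, (div_le_one h).2 hs.2⟩
    rw [add_sub_cancel_left, smul_smul, div_mul_cancel₀ _ h.ne'] at h1
    exact h1

theorem cont (h2 : StmtRhoC) {R : Set E2} (hR : Body R) {O : E2} {t x : ℝ} (hO : O ∈ interior R)
    (hx : O + x • u t ∈ interior R) (h0 : 0 ≤ x) :
    ContinuousOn (fun s : ℝ => rho R (O + s • u t) (t + π / 2)) (Icc 0 x) := by
  have h3 := h2 R hR
  have h4 : Continuous (fun s : ℝ => O + s • u t) :=
    continuous_const.add (continuous_id.smul continuous_const)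
  have h5 : ContinuousOn (fun s : ℝ => ((O + s • u t, t + π / 2) : E2 × ℝ)) (Icc 0 x) :=
    (h4.prodMk continuous_const).continuousOn
  have h6 : MapsTo (fun s : ℝ => ((O + s • u t, t + π / 2) : E2 × ℝ)) (Icc 0 x)
      (interior R ×ˢ univ) := fun s hs => mk_mem_prod (seg hR hO hx h0 hs) (mem_univ _)
  have h7 := h3.comp h5 h6
  exact h7.congr fun s _ => rfl

/-- the case `0 ≤ x` -/
theorem step (h1 : StmtRho) (h2 : StmtRhoC) {R : Set E2} (hR : Body R) {O : E2} {t x : ℝ}
    (hO : O ∈ interior R) (hx : O + x • u t ∈ interior R) (h0 : 0 ≤ x) :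
    f R (O + x • u t) t = f R O t - ∫ s in (0 : ℝ)..x, rho R (O + s • u t) (t + π / 2) := by
  set g : ℝ → ℝ := fun s => rho R (O + s • u t) (t + π / 2) with hg
  have hgc : ContinuousOn g (Icc 0 x) := cont h2 hR hO hx h0
  have hRm : MeasurableSet R := hR.comp.isClosed.measurableSet
  set A : Set E2 := R ∩ quad O (u t) with hA
  set B : Set E2 := R ∩ quad (O + x • u t) (u t) with hB
  have hAm : MeasurableSet A := hRm.inter (quad_meas _ _ (u_ne t))
  have hBm : MeasurableSet B := hRm.inter (quad_meas _ _ (u_ne t))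
  have hO0 : ∀ q : ℝ × ℝ, Phi O t q ∈ quad O (u t) ↔ 0 ≤ q.1 ∧ 0 ≤ q.2 := by
    intro q
    have := phi_quad O t 0 q
    rwa [zero_smul, add_zero] at this
  -- every point is of the form Phi
  have hsurj : ∀ p : E2, ∃ q, Phi O t q = p := by
    intro p
    refine ⟨(dot (u t) (p - O), dot (rot (u t)) (p - O)), ?_⟩
    have h := Real.sin_sq_add_cos_sq t
    unfold Phi dot
    rw [u_half]
    apply ext2
    · simp [u0, u1]
      linear_combination (p 0 - O 0) * h
    · simp [u0, u1]
      linear_combination (p 1 - O 1) * h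
  have hBA : B ⊆ A := by
    rintro p ⟨hp1, hp2⟩
    obtain ⟨q, rfl⟩ := hsurj p
    rw [phi_quad] at hp2
    exact ⟨hp1, (hO0 q).2 ⟨h0.trans hp2.1, hp2.2⟩⟩
  have hAf : volume A ≠ ⊤ := ne_top_of_le_ne_top hR.comp.measure_lt_top.ne
    (measure_mono inter_subset_left)
  have hfA : f R O t = volume.real A := rfl
  have hfB : f R (O + x • u t) t = volume.real B := rfl
  have hdiff : volume.real (A \ B) = volume.real A - volume.real B :=
    measureReal_sdiff hBA hBm hAf
  -- the difference
  have hvol : volume (A \ B) = ENNReal.ofReal (∫ s in (0 : ℝ)..x, g s) := by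
    have hDm : MeasurableSet (A \ B) := hAm.diff hBm
    rw [← (phi_mp O t).measure_preimage hDm.nullMeasurableSet, Measure.volume_eq_prod,
      Measure.prod_apply ((phi_mp O t).measurable hDm)]
    have hsec : ∀ s : ℝ, volume (Prod.mk s ⁻¹' (Phi O t ⁻¹' (A \ B))) =
        (Ico 0 x).indicator (fun s => ENNReal.ofReal (g s)) s := by
      intro s
      by_cases hs : s ∈ Ico 0 x
      · rw [indicator_of_mem hs]
        have hs' : s ∈ Icc 0 x := ⟨hs.1, hs.2.le⟩
        obtain ⟨hpos, hiff⟩ := h1 R hR (O + s • u t) (seg hR hO hx h0 hs') (t + π / 2)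
        have e : Prod.mk s ⁻¹' (Phi O t ⁻¹' (A \ B)) = Icc 0 (g s) := by
          ext r
          show (Phi O t (s, r) ∈ A ∧ Phi O t (s, r) ∉ B) ↔ _
          constructor
          · rintro ⟨⟨k1, k2⟩, -⟩
            rw [hO0] at k2
            exact ⟨k2.2, (hiff r k2.2).1 k1⟩
          · rintro ⟨k1, k2⟩
            refine ⟨⟨(hiff r k1).2 k2, (hO0 _).2 ⟨hs.1, k1⟩⟩, ?_⟩
            rintro ⟨-, k3⟩
            rw [phi_quad] at k3
            exact absurd k3.1 (not_le.2 hs.2)
        rw [e, Real.volume_Icc, sub_zero]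
      · rw [indicator_of_notMem hs]
        have e : Prod.mk s ⁻¹' (Phi O t ⁻¹' (A \ B)) = ∅ := by
          ext r
          show (Phi O t (s, r) ∈ A ∧ Phi O t (s, r) ∉ B) ↔ _
          simp only [mem_empty_iff_false, iff_false]
          rintro ⟨⟨k1, k2⟩, k3⟩
          rw [hO0] at k2
          apply k3
          refine ⟨k1, (phi_quad O t x (s, r)).2 ⟨?_, k2.2⟩⟩
          by_contra hcon
          exact hs ⟨k2.1, not_le.1 hcon⟩
        rw [e, measure_empty]
    simp_rw [hsec]
    rw [lintegral_indicator measurableSet_Ico]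
    have hint : IntegrableOn g (Ico 0 x) :=
      (hgc.integrableOn_compact isCompact_Icc).mono_set Ico_subset_Icc_self
    have hnn : 0 ≤ᵐ[volume.restrict (Ico 0 x)] g := by
      filter_upwards [ae_restrict_mem measurableSet_Ico] with s hs
      exact (h1 R hR (O + s • u t) (seg hR hO hx h0 ⟨hs.1, hs.2.le⟩) (t + π / 2)).1.le
    rw [← ofReal_integral_eq_lintegral_ofReal hint hnn, integral_Ico_eq_integral_Ioo,
      ← integral_Ioc_eq_integral_Ioo, intervalIntegral.integral_of_le h0]
  have hnn : 0 ≤ ∫ s in (0 : ℝ)..x, g s := by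
    apply intervalIntegral.integral_nonneg h0
    intro s hs
    exact (h1 R hR (O + s • u t) (seg hR hO hx h0 hs) (t + π / 2)).1.le
  have hreal : volume.real (A \ B) = ∫ s in (0 : ℝ)..x, g s := by
    unfold Measure.real
    rw [hvol, ENNReal.toReal_ofReal hnn]
  rw [hfA, hfB]
  linarith

end ModShU

open ModShU in
/-- Module SHU. -/
theorem shU (h1 : StmtRho) (h2 : StmtRhoC) : StmtShU := by
  intro R hR O t x hO hx
  rcases le_total 0 x with h0 | h0
  · exact step h1 h2 hR hO hx h0
  · have e1 : (O + x • u t) + (-x) • u t = O := by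
      rw [add_assoc, ← add_smul, add_neg_cancel, zero_smul, add_zero]
    have h3 := step h1 h2 hR (O := O + x • u t) (t := t) (x := -x) hx (by rw [e1]; exact hO)
      (by linarith)
    rw [e1] at h3
    have h4 : (∫ s in (0 : ℝ)..(-x), rho R (O + x • u t + s • u t) (t + π / 2)) =
        ∫ s in x..(0 : ℝ), rho R (O + s • u t) (t + π / 2) := by
      have h5 := intervalIntegral.integral_comp_add_left (a := (0 : ℝ)) (b := -x)
        (fun s => rho R (O + s • u t) (t + π / 2)) x
      rw [add_zero, add_neg_cancel] at h5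
      rw [← h5]
      congr 1
      funext s
      rw [add_smul, add_assoc]
    rw [h4] at h3
    rw [intervalIntegral.integral_symm]
    linarith

end Pool.Agent.T6.H7.QS
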