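import Pool.Agent.T6.H7.QS.Pol

/-!
# Module SHV of project QS (MP_79dd7e_co): moving the apex along the second side
-/

set_option autoImplicit false

namespace Pool.Agent.T6.H7.QS.ModSHV

open MeasureTheory Set Pool.V11275.Quad Pool.Agent.Helper717.Hull1 Pool.Agent.Helper717.Hull2
open Pool.Agent.T6.H7.QS Pool.Agent.T6.H7.QS.ModPOL
open scoped Real ENNReal

/-- The part of `R` in the shifted quadrant, in coordinates. -/
def Sy (R : Set E2) (O : E2) (t y : ℝ) : Set (ℝ × ℝ) := {p | 0 ≤ p.1 ∧ y ≤ p.2 ∧ Phi O t p ∈ R}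

/-- The part of `R` in the strip, in coordinates. -/
def Ty (R : Set E2) (O : E2) (t y : ℝ) : Set (ℝ × ℝ) :=
  {p | 0 ≤ p.1 ∧ (0 ≤ p.2 ∧ p.2 < y) ∧ Phi O t p ∈ R}

theorem pre_Sy (R : Set E2) (O : E2) (t y : ℝ) :
    Phi O t ⁻¹' (R ∩ quad (O + y • u (t + π / 2)) (u t)) = Sy R O t y := by
  ext p
  have h := Real.sin_sq_add_cos_sq t
  have e1 : dot (u t) (Phi O t p - (O + y • u (t + π / 2))) = p.1 := by
    simp [Phi, dot, Real.cos_add_pi_div_two, Real.sin_add_pi_div_two]
    linear_combination p.1 * h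
  have e2 : dot (u (t + π / 2)) (Phi O t p - (O + y • u (t + π / 2))) = p.2 - y := by
    simp [Phi, dot, Real.cos_add_pi_div_two, Real.sin_add_pi_div_two]
    linear_combination (p.2 - y) * h
  rw [mem_preimage, mem_inter_iff, quad_iff _ _ _ (u_ne t), rot_u, e1, e2]
  constructor
  · rintro ⟨h1, h2, h3⟩; exact ⟨h2, by linarith, h1⟩
  · rintro ⟨h1, h2, h3⟩; exact ⟨h3, h1, by linarith⟩

theorem vol_Sy {R : Set E2} (hR : Body R) (O : E2) (t y : ℝ) :
    volume (R ∩ quad (O + y • u (t + π / 2)) (u t)) = volume (Sy R O t y) := by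
  rw [← pre_Sy, (mp_Phi O t).measure_preimage (meas_RQ hR _ t).nullMeasurableSet]

theorem meas_Sy {R : Set E2} (hR : Body R) (O : E2) (t y : ℝ) : MeasurableSet (Sy R O t y) := by
  rw [← pre_Sy]
  exact (mp_Phi O t).measurable (meas_RQ hR _ t)

theorem meas_Ty {R : Set E2} (hR : Body R) (O : E2) (t y : ℝ) : MeasurableSet (Ty R O t y) := by
  have m1 : MeasurableSet {p : ℝ × ℝ | 0 ≤ p.1} :=
    (isClosed_le continuous_const continuous_fst).measurableSet
  have m2 : MeasurableSet {p : ℝ × ℝ | 0 ≤ p.2} :=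
    (isClosed_le continuous_const continuous_snd).measurableSet
  have m3 : MeasurableSet {p : ℝ × ℝ | p.2 < y} :=
    (isOpen_lt continuous_snd continuous_const).measurableSet
  have m4 : MeasurableSet (Phi O t ⁻¹' R) :=
    (mp_Phi O t).measurable hR.comp.isClosed.measurableSet
  exact m1.inter ((m2.inter m3).inter m4)

theorem seg {R : Set E2} (hR : Body R) {O n : E2} {y : ℝ} (hO : O ∈ interior R)
    (hO' : O + y • n ∈ interior R) {s : ℝ} (hs : 0 ≤ s) (hsy : s ≤ y) :
    O + s • n ∈ interior R := by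
  rcases eq_or_lt_of_le (hs.trans hsy) with h | h
  · have : s = 0 := by linarith
    rw [this, zero_smul, add_zero]
    exact hO
  · have h1 := hR.conv.interior.add_smul_mem hO hO' (t := s / y)
      ⟨by positivity, (div_le_one h).2 hsy⟩
    rw [smul_smul, div_mul_cancel₀ _ h.ne'] at h1
    exact h1

theorem contOn (h2 : StmtRhoC) {R : Set E2} (hR : Body R) {O : E2} {t y : ℝ}
    (hO : O ∈ interior R) (hO' : O + y • u (t + π / 2) ∈ interior R) :
    ContinuousOn (fun s : ℝ => rho R (O + s • u (t + π / 2)) t) (Icc 0 y) := by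
  have h := h2 R hR
  exact h.comp (f := fun s : ℝ => ((O + s • u (t + π / 2), t) : E2 × ℝ)) (by fun_prop)
    (fun s hs => ⟨seg hR hO hO' hs.1 hs.2, mem_univ _⟩)

theorem vol_Ty (h1 : StmtRho) (h2 : StmtRhoC) {R : Set E2} (hR : Body R) {O : E2} {t y : ℝ}
    (hy : 0 ≤ y) (hO : O ∈ interior R) (hO' : O + y • u (t + π / 2) ∈ interior R) :
    volume (Ty R O t y) =
      ENNReal.ofReal (∫ s in (0 : ℝ)..y, rho R (O + s • u (t + π / 2)) t) := by
  have hc := contOn h2 hR hO hO'
  have hi : IntegrableOn (fun s : ℝ => rho R (O + s • u (t + π / 2)) t) (Ico 0 y) :=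
    (hc.integrableOn_Icc).mono_set Ico_subset_Icc_self
  rw [intervalIntegral.integral_of_le hy, ← integral_Ico_eq_integral_Ioc,
    ofReal_integral_eq_lintegral_ofReal hi]
  · rw [Measure.volume_eq_prod, Measure.prod_apply_symm (meas_Ty hR O t y),
      ← lintegral_indicator measurableSet_Ico]
    congr 1
    ext s
    by_cases hs : s ∈ Ico (0 : ℝ) y
    · rw [indicator_of_mem hs]
      have hin := seg hR hO hO' hs.1 hs.2.le
      have e : (fun r : ℝ => ((r, s) : ℝ × ℝ)) ⁻¹' Ty R O t y =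
          Icc 0 (rho R (O + s • u (t + π / 2)) t) := by
        ext r
        have e2 : Phi O t (r, s) = (O + s • u (t + π / 2)) + r • u t := by
          unfold Phi
          abel
        constructor
        · rintro ⟨a1, -, a2⟩
          have a1' : 0 ≤ r := a1
          have a2' : Phi O t (r, s) ∈ R := a2
          rw [e2] at a2'
          exact ⟨a1', ((h1 R hR _ hin t).2 r a1').1 a2'⟩
        · rintro ⟨a1, a2⟩
          refine ⟨a1, hs, ?_⟩
          show Phi O t (r, s) ∈ R
          rw [e2]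
          exact ((h1 R hR _ hin t).2 r a1).2 a2
      rw [e, Real.volume_Icc, sub_zero]
    · rw [indicator_of_notMem hs]
      have e : (fun r : ℝ => ((r, s) : ℝ × ℝ)) ⁻¹' Ty R O t y = ∅ := by
        ext r
        simp only [mem_empty_iff_false, iff_false]
        rintro ⟨-, a, -⟩
        exact hs a
      rw [e, measure_empty]
  · rw [Filter.EventuallyLE, ae_restrict_iff' measurableSet_Ico]
    exact Filter.Eventually.of_forall fun s hs =>
      (h1 R hR _ (seg hR hO hO' hs.1 hs.2.le) t).1.le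

theorem pos (h1 : StmtRho) (h2 : StmtRhoC) {R : Set E2} (hR : Body R) {O : E2} {t y : ℝ}
    (hy : 0 ≤ y) (hO : O ∈ interior R) (hO' : O + y • u (t + π / 2) ∈ interior R) :
    f R (O + y • u (t + π / 2)) t =
      f R O t - ∫ s in (0 : ℝ)..y, rho R (O + s • u (t + π / 2)) t := by
  have hd : Disjoint (Sy R O t y) (Ty R O t y) := by
    rw [Set.disjoint_left]
    rintro p ⟨-, a, -⟩ ⟨-, b, -⟩
    exact absurd a (not_le.2 b.2)
  have hu : S R O t = Sy R O t y ∪ Ty R O t y := by
    ext p
    constructor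
    · rintro ⟨a, b, c⟩
      by_cases hp : y ≤ p.2
      · exact Or.inl ⟨a, hp, c⟩
      · exact Or.inr ⟨a, ⟨b, not_le.1 hp⟩, c⟩
    · rintro (⟨a, b, c⟩ | ⟨a, b, c⟩)
      · exact ⟨a, hy.trans b, c⟩
      · exact ⟨a, b.1, c⟩
  have hI : 0 ≤ ∫ s in (0 : ℝ)..y, rho R (O + s • u (t + π / 2)) t := by
    apply intervalIntegral.integral_nonneg hy
    intro s hs
    exact (h1 R hR _ (seg hR hO hO' hs.1 hs.2) t).1.le
  have hf1 : volume (R ∩ quad (O + y • u (t + π / 2)) (u t)) ≠ ∞ :=
    ne_top_of_le_ne_top hR.comp.measure_lt_top.ne (measure_mono inter_subset_left)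
  have hv : volume (R ∩ quad O (u t)) = volume (R ∩ quad (O + y • u (t + π / 2)) (u t)) +
      ENNReal.ofReal (∫ s in (0 : ℝ)..y, rho R (O + s • u (t + π / 2)) t) := by
    rw [vol_S hR, hu, measure_union hd (meas_Ty hR O t y), vol_Sy hR, vol_Ty h1 h2 hR hy hO hO']
  unfold f Measure.real
  rw [hv, ENNReal.toReal_add hf1 ENNReal.ofReal_ne_top, ENNReal.toReal_ofReal hI]
  ring

end Pool.Agent.T6.H7.QS.ModSHV

namespace Pool.Agent.T6.H7.QS

open MeasureTheory Set
open scoped Real

/-- Module SHV: moving the apex along the second side. -/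
theorem shV (h1 : StmtRho) (h2 : StmtRhoC) : StmtShV := by
  intro R hR O t y hO hO'
  rcases le_or_gt 0 y with hy | hy
  · exact ModSHV.pos h1 h2 hR hy hO hO'
  · have hO2 : (O + y • u (t + π / 2)) + (-y) • u (t + π / 2) = O := by
      rw [neg_smul]; abel
    have h := ModSHV.pos h1 h2 hR (t := t) (y := -y) (by linarith) hO' (by rw [hO2]; exact hO)
    rw [hO2] at h
    have e : ∫ s in (0 : ℝ)..(-y), rho R (O + y • u (t + π / 2) + s • u (t + π / 2)) t =
        -∫ s in (0 : ℝ)..y, rho R (O + s • u (t + π / 2)) t := by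
      have e1 : ∀ s : ℝ, O + y • u (t + π / 2) + s • u (t + π / 2) =
          O + (y + s) • u (t + π / 2) := by
        intro s; rw [add_smul]; abel
      have e2 := intervalIntegral.integral_comp_add_left (a := 0) (b := -y)
        (fun s => rho R (O + s • u (t + π / 2)) t) y
      simp only [e1]
      rw [e2, add_zero, add_neg_cancel, intervalIntegral.integral_symm]
    rw [e] at h
    linarith

end Pool.Agent.T6.H7.QS
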