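import Pool.Agent.T6.H7.QS.Defs

set_option autoImplicit false

/-! Project QS, module SIM. -/

namespace Pool.Agent.T6.H7.QS.ModSim

open MeasureTheory Set Pool.V11275.Quad Pool.Agent.Helper717.Hull1 Pool.Agent.Helper717.Hull2
open Pool.Agent.T6.H7.QS
open scoped Real ENNReal

/-- The similarity. -/
noncomputable def g (c : ℝ) (U : E2 ≃ₗᵢ[ℝ] E2) (b : E2) : E2 → E2 := fun x => c • U x + b

/-- The similarity as a homeomorphism. -/
noncomputable def G (c : ℝ) (hc : c ≠ 0) (U : E2 ≃ₗᵢ[ℝ] E2) (b : E2) : E2 ≃ₜ E2 :=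
  U.toHomeomorph.trans ((Homeomorph.smulOfNeZero c hc).trans (Homeomorph.addRight b))

lemma G_apply (c : ℝ) (hc : c ≠ 0) (U : E2 ≃ₗᵢ[ℝ] E2) (b x : E2) :
    G c hc U b x = g c U b x := rfl

lemma g_inj (c : ℝ) (hc : c ≠ 0) (U : E2 ≃ₗᵢ[ℝ] E2) (b : E2) : Function.Injective (g c U b) :=
  (G c hc U b).injective

lemma vol_g (c : ℝ) (U : E2 ≃ₗᵢ[ℝ] E2) (b : E2) :
    ∃ K : ℝ≥0∞, ∀ A : Set E2, volume (g c U b '' A) = K * volume A := by
  refine ⟨ENNReal.ofReal |LinearMap.det (c • (U.toLinearEquiv : E2 →ₗ[ℝ] E2))|, fun A => ?_⟩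
  rw [← Measure.addHaar_image_linearMap]
  have : g c U b '' A = (fun x => x + b) '' ((c • (U.toLinearEquiv : E2 →ₗ[ℝ] E2)) '' A) := by
    rw [image_image]; rfl
  rw [this, image_add_right, measure_preimage_add_right]

lemma rot_neg (v : E2) : rot (-v) = -rot v := by
  apply ext2 <;> simp

lemma line_neg (P v : E2) : line P (-v) = line P v := by
  ext x
  constructor
  · rintro ⟨s, rfl⟩; exact ⟨-s, by simp⟩
  · rintro ⟨s, rfl⟩; exact ⟨-s, by simp⟩

section
variable {c : ℝ} {U : E2 ≃ₗᵢ[ℝ] E2} {b : E2}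

lemma g_line (hc : 0 < c) (P v : E2) : g c U b '' line P v = line (g c U b P) (U v) := by
  ext x
  constructor
  · rintro ⟨_, ⟨s, rfl⟩, rfl⟩
    refine ⟨c * s, ?_⟩
    simp only [g, map_add, map_smul, smul_add, smul_smul]
    abel
  · rintro ⟨s, rfl⟩
    refine ⟨P + (s / c) • v, ⟨s / c, rfl⟩, ?_⟩
    simp only [g, map_add, map_smul, smul_add, smul_smul]
    rw [mul_div_cancel₀ _ hc.ne']
    abel

lemma g_quad (hc : 0 < c) (P v : E2) (hs : U (rot v) = rot (U v)) :
    g c U b '' quad P v = quad (g c U b P) (U v) := by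
  ext x
  constructor
  · rintro ⟨_, ⟨s, t, hs0, ht0, rfl⟩, rfl⟩
    refine ⟨c * s, c * t, by positivity, by positivity, ?_⟩
    simp only [g, map_add, map_smul, smul_add, smul_smul, hs]
    abel
  · rintro ⟨s, t, hs0, ht0, rfl⟩
    refine ⟨P + (s / c) • v + (t / c) • rot v, ⟨s / c, t / c, by positivity, by positivity, rfl⟩, ?_⟩
    simp only [g, map_add, map_smul, smul_add, smul_smul, hs]
    rw [mul_div_cancel₀ _ hc.ne', mul_div_cancel₀ _ hc.ne']
    abel

lemma g_quad' (hc : 0 < c) (P v : E2) (hs : U (rot v) = -rot (U v)) :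
    g c U b '' quad P v = quad (g c U b P) (-rot (U v)) := by
  have e : rot (-rot (U v)) = U v := by rw [rot_neg, rot_rot, neg_neg]
  ext x
  constructor
  · rintro ⟨_, ⟨s, t, hs0, ht0, rfl⟩, rfl⟩
    refine ⟨c * t, c * s, by positivity, by positivity, ?_⟩
    rw [e]
    simp only [g, map_add, map_smul, smul_add, smul_smul, hs]
    abel
  · rintro ⟨s, t, hs0, ht0, rfl⟩
    refine ⟨P + (t / c) • v + (s / c) • rot v, ⟨t / c, s / c, by positivity, by positivity, rfl⟩, ?_⟩
    rw [e]
    simp only [g, map_add, map_smul, smul_add, smul_smul, hs]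
    rw [mul_div_cancel₀ _ hc.ne', mul_div_cancel₀ _ hc.ne']
    abel

lemma rot_norm (v : E2) : ‖rot v‖ = ‖v‖ := rotL.norm_map v

lemma U_rot (v : E2) : U (rot v) = rot (U v) ∨ U (rot v) = -rot (U v) := by
  have hn : ‖U (rot v)‖ ^ 2 = ‖U v‖ ^ 2 := by rw [U.norm_map, U.norm_map, rot_norm]
  have hi : inner ℝ (U v) (U (rot v)) = (0 : ℝ) := by
    rw [U.inner_map_map, PiLp.inner_apply, Fin.sum_univ_two]
    simp
    ring
  rw [EuclideanSpace.norm_sq_eq, EuclideanSpace.norm_sq_eq, Fin.sum_univ_two, Fin.sum_univ_two] at hn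
  rw [PiLp.inner_apply, Fin.sum_univ_two] at hi
  simp only [Real.norm_eq_abs, sq_abs] at hn
  simp only [RCLike.inner_apply, conj_trivial] at hi
  generalize U (rot v) = q at *
  generalize U v = p at *
  rcases eq_or_ne p 0 with rfl | hp
  · left
    simp at hn
    have h0 : q 0 = 0 := by nlinarith [sq_nonneg (q 0), sq_nonneg (q 1)]
    have h1 : q 1 = 0 := by nlinarith [sq_nonneg (q 0), sq_nonneg (q 1)]
    apply ext2 <;> simp [h0, h1]
  · have hD := dot_self_pos hp
    unfold dot at hD
    have hL : (q 1 * p 0 - q 0 * p 1) ^ 2 = (p 0 * p 0 + p 1 * p 1) ^ 2 := by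
      have e : (q 1 * p 0 - q 0 * p 1) ^ 2 =
        (p 0 * p 0 + p 1 * p 1) * (q 0 ^ 2 + q 1 ^ 2) - (q 0 * p 0 + q 1 * p 1) ^ 2 := by ring
      rw [e, hi, hn]; ring
    have e0 : q 0 * (p 0 * p 0 + p 1 * p 1) = -(p 1) * (q 1 * p 0 - q 0 * p 1) := by
      linear_combination (p 0) * hi
    have e1 : q 1 * (p 0 * p 0 + p 1 * p 1) = (p 0) * (q 1 * p 0 - q 0 * p 1) := by
      linear_combination (p 1) * hi
    rcases sq_eq_sq_iff_eq_or_eq_neg.1 hL with h | h
    · left
      rw [h] at e0 e1
      apply ext2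
      · simpa using mul_right_cancel₀ hD.ne' e0
      · simpa using mul_right_cancel₀ hD.ne' e1
    · right
      rw [h] at e0 e1
      apply ext2
      · have : q 0 * (p 0 * p 0 + p 1 * p 1) = p 1 * (p 0 * p 0 + p 1 * p 1) := by
          rw [e0]; ring
        simpa using mul_right_cancel₀ hD.ne' this
      · have : q 1 * (p 0 * p 0 + p 1 * p 1) = (-p 0) * (p 0 * p 0 + p 1 * p 1) := by
          rw [e1]; ring
        simpa using mul_right_cancel₀ hD.ne' this

lemma vol_pos (hc : 0 < c) {R : Set E2} {P w : E2} (hw : volume (R ∩ quad P w) = volume R / 4)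
    (hs : U (rot w) = rot (U w)) :
    volume (g c U b '' R ∩ quad (g c U b P) (U w)) = volume (g c U b '' R) / 4 := by
  obtain ⟨K, hK⟩ := vol_g c U b
  rw [← g_quad hc P w hs, ← image_inter (g_inj c hc.ne' U b), hK, hK, hw, mul_div_assoc]

lemma vol_neg (hc : 0 < c) {R : Set E2} {P w : E2} (hw : volume (R ∩ quad P w) = volume R / 4)
    (hs : U (rot w) = -rot (U w)) :
    volume (g c U b '' R ∩ quad (g c U b P) (-rot (U w))) = volume (g c U b '' R) / 4 := by
  obtain ⟨K, hK⟩ := vol_g c U b
  rw [← g_quad' hc P w hs, ← image_inter (g_inj c hc.ne' U b), hK, hK, hw, mul_div_assoc]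

lemma isQ (hc : 0 < c) {R : Set E2} {q : Set (Set E2)} (h : IsQuadrisection R q) :
    IsQuadrisection (g c U b '' R) ((fun L => g c U b '' L) '' q) := by
  obtain ⟨P, v, hP, hv, rfl, hk⟩ := h
  have k0 : volume (R ∩ quad P v) = volume R / 4 := hk 0
  have k1 : volume (R ∩ quad P (rot v)) = volume R / 4 := hk 1
  have k2 : volume (R ∩ quad P (-v)) = volume R / 4 := by
    have := hk 2
    rwa [Function.iterate_succ_apply, Function.iterate_succ_apply, rot_rot] at this
  have k3 : volume (R ∩ quad P (-rot v)) = volume R / 4 := by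
    have := hk 3
    rwa [Function.iterate_succ_apply, Function.iterate_succ_apply, Function.iterate_succ_apply,
      rot_rot] at this
  have hU : U v ≠ 0 := by
    intro h0
    exact hv (by simpa using h0)
  refine ⟨g c U b P, U v, ?_, hU, ?_, ?_⟩
  · have : g c U b '' interior R = interior (g c U b '' R) := (G c hc.ne' U b).image_interior R
    rw [← this]
    exact mem_image_of_mem _ hP
  · rw [image_pair, g_line hc, g_line hc]
    rcases U_rot (U := U) v with h | h
    · rw [h]
    · rw [h, line_neg]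
  · rcases U_rot (U := U) v with h | h
    · apply four_cases (fun w => volume (g c U b '' R ∩ quad (g c U b P) w) =
        volume (g c U b '' R) / 4) (U v)
      · exact vol_pos hc k0 h
      · have := vol_pos (b := b) hc k1 (by rw [rot_rot, h, rot_rot, map_neg])
        rwa [h] at this
      · have := vol_pos (b := b) hc k2 (by rw [rot_neg, map_neg, map_neg, rot_neg, h])
        rwa [map_neg] at this
      · have := vol_pos (b := b) hc k3 (by
          rw [rot_neg, rot_rot, neg_neg, map_neg, rot_neg, h, rot_rot, neg_neg])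
        rwa [map_neg, h] at this
    · apply four_cases (fun w => volume (g c U b '' R ∩ quad (g c U b P) w) =
        volume (g c U b '' R) / 4) (U v)
      · have := vol_neg (b := b) hc k3 (by
          rw [rot_neg, rot_rot, neg_neg, map_neg, rot_neg, h, rot_neg, rot_rot, neg_neg, neg_neg])
        rwa [map_neg, h, neg_neg, rot_rot, neg_neg] at this
      · have := vol_neg (b := b) hc k2 (by rw [rot_neg, map_neg, map_neg, rot_neg, h])
        rwa [map_neg, rot_neg, neg_neg] at this
      · have := vol_neg (b := b) hc k1 (by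
          rw [rot_rot, map_neg, h, rot_neg, rot_rot, neg_neg])
        rwa [h, rot_neg, rot_rot, neg_neg] at this
      · exact vol_neg hc k0 h

lemma le (hc : 0 < c) (R : Set E2) : {q | IsQuadrisection R q}.encard ≤
    {q | IsQuadrisection (g c U b '' R) q}.encard := by
  apply encard_le_encard_of_injOn (f := fun q => (fun L => g c U b '' L) '' q)
  · intro q hq
    exact isQ hc hq
  · exact ((g_inj c hc.ne' U b).image_injective.image_injective).injOn

end

theorem sim : StmtSim := by
  intro R c U b hc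
  apply le_antisymm
  · have h := le (c := c⁻¹) (U := U.symm) (b := -(c⁻¹ • U.symm b)) (inv_pos.2 hc) (g c U b '' R)
    have e : g c⁻¹ U.symm (-(c⁻¹ • U.symm b)) '' (g c U b '' R) = R := by
      rw [image_image]
      have : (fun x => g c⁻¹ U.symm (-(c⁻¹ • U.symm b)) (g c U b x)) = id := by
        funext x
        simp only [g, map_add, map_smul, smul_add, smul_smul, inv_mul_cancel₀ hc.ne', one_smul,
          LinearIsometryEquiv.symm_apply_apply, id_eq]
        abel
      rw [this, image_id]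
    rw [e] at h
    exact h
  · exact le hc R

end Pool.Agent.T6.H7.QS.ModSim

namespace Pool.Agent.T6.H7.QS
theorem sim : StmtSim := ModSim.sim
end Pool.Agent.T6.H7.QS
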