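import Pool.Agent.T6.H7.QS.Defs

set_option autoImplicit false

/-!
Module STAB: the quadrisections of a body close to `P` are close to those of `P`.
-/

namespace Pool.Agent.T6.H7.QS

open MeasureTheory Set Filter Topology Pool.V11275.Quad Pool.Agent.Helper717.Hull1
  Pool.Agent.Helper717.Hull2
open scoped Real ENNReal

namespace ModStab

/-- Continuity of the measure of the intersection of two half planes. -/
lemma cont_quad' {X : Type*} [TopologicalSpace X] [FirstCountableTopology X] (μ : Measure E2)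
    [IsFiniteMeasure μ] (hμ : μ ≪ volume) {a b : X → E2} {c d : X → ℝ} {t0 : X}
    (ha : ContinuousAt a t0)
    (hb : ContinuousAt b t0) (hc : ContinuousAt c t0) (hd : ContinuousAt d t0)
    (ha0 : a t0 ≠ 0) (hb0 : b t0 ≠ 0) :
    ContinuousAt (fun t => μ.real {x | c t ≤ dot (a t) x ∧ d t ≤ dot (b t) x}) t0 := by
  have hmeas : ∀ t, MeasurableSet {x : E2 | c t ≤ dot (a t) x ∧ d t ≤ dot (b t) x} := by
    intro t
    exact ((isClosed_le continuous_const (continuous_dot _)).inter
      (isClosed_le continuous_const (continuous_dot _))).measurableSet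
  have heq : (fun t => μ.real {x | c t ≤ dot (a t) x ∧ d t ≤ dot (b t) x}) =
      fun t => ∫ x, ({x | c t ≤ dot (a t) x ∧ d t ≤ dot (b t) x} : Set E2).indicator
        (1 : E2 → ℝ) x ∂μ := by
    funext t
    rw [integral_indicator_one (hmeas t)]
  rw [heq]
  apply continuousAt_of_dominated (bound := fun _ => (1 : ℝ))
  · exact Eventually.of_forall fun t =>
      (measurable_one.indicator (hmeas t)).aestronglyMeasurable
  · refine Eventually.of_forall fun t => Eventually.of_forall fun x => ?_
    by_cases h : x ∈ {x : E2 | c t ≤ dot (a t) x ∧ d t ≤ dot (b t) x}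
    · rw [indicator_of_mem h]; simp
    · rw [indicator_of_notMem h]; simp
  · exact integrable_const _
  · have h1 : ∀ᵐ x ∂μ, dot (a t0) x ≠ c t0 := hμ.ae_le (ae_level (a t0) ha0 (c t0))
    have h2 : ∀ᵐ x ∂μ, dot (b t0) x ≠ d t0 := hμ.ae_le (ae_level (b t0) hb0 (d t0))
    filter_upwards [h1, h2] with x hx1 hx2
    have ca : ContinuousAt (fun t => dot (a t) x - c t) t0 :=
      ((continuous_dot_left x).continuousAt.comp ha).sub hc
    have cb : ContinuousAt (fun t => dot (b t) x - d t) t0 :=
      ((continuous_dot_left x).continuousAt.comp hb).sub hd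
    have key : ∀ (φ : X → ℝ), ContinuousAt φ t0 → φ t0 ≠ 0 →
        ∀ᶠ t in 𝓝 t0, (0 ≤ φ t ↔ 0 ≤ φ t0) := by
      intro φ hφ h0
      rcases lt_or_gt_of_ne h0 with h | h
      · filter_upwards [hφ.eventually_lt continuousAt_const h] with t ht
        constructor
        · intro h'; linarith
        · intro h'; linarith
      · filter_upwards [continuousAt_const.eventually_lt hφ h] with t ht
        constructor
        · intro _; exact h.le
        · intro _; exact ht.le
    have e1 := key _ ca (sub_ne_zero.2 hx1)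
    have e2 := key _ cb (sub_ne_zero.2 hx2)
    have e3 : ∀ᶠ t in 𝓝 t0, ({x | c t ≤ dot (a t) x ∧ d t ≤ dot (b t) x} : Set E2).indicator
        (1 : E2 → ℝ) x = ({x | c t0 ≤ dot (a t0) x ∧ d t0 ≤ dot (b t0) x} : Set E2).indicator
        (1 : E2 → ℝ) x := by
      filter_upwards [e1, e2] with t h1 h2
      have : (x ∈ {x : E2 | c t ≤ dot (a t) x ∧ d t ≤ dot (b t) x}) ↔
          (x ∈ {x : E2 | c t0 ≤ dot (a t0) x ∧ d t0 ≤ dot (b t0) x}) := by
        simp only [mem_ofPred_eq]
        simp only [sub_nonneg] at h1 h2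
        rw [h1, h2]
      by_cases h : x ∈ {x : E2 | c t ≤ dot (a t) x ∧ d t ≤ dot (b t) x}
      · rw [indicator_of_mem h, indicator_of_mem (this.1 h)]
      · rw [indicator_of_notMem h, indicator_of_notMem (fun h' => h (this.2 h'))]
    exact (continuousAt_const (y := ({x | c t0 ≤ dot (a t0) x ∧ d t0 ≤ dot (b t0) x} :
      Set E2).indicator (1 : E2 → ℝ) x)).congr (by
        filter_upwards [e3] with t ht
        exact ht.symm)

lemma u_ne (t : ℝ) : u t ≠ 0 := by
  intro h
  have h0 := congrFun (congrArg (fun x : E2 => (x : Fin 2 → ℝ)) h) 0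
  have h1 := congrFun (congrArg (fun x : E2 => (x : Fin 2 → ℝ)) h) 1
  simp [u] at h0 h1
  have := Real.sin_sq_add_cos_sq t
  rw [h0, h1] at this
  norm_num at this

lemma rot_u (t : ℝ) : rot (u t) = u (t + π / 2) := by
  apply ext2 <;> simp [u, Real.cos_add_pi_div_two, Real.sin_add_pi_div_two]

lemma dot_sub (a x y : E2) : dot a (x - y) = dot a x - dot a y := by
  simp [dot]; ring

lemma quad_eq (O : E2) (t : ℝ) : quad O (u t) =
    {x | dot (u t) O ≤ dot (u t) x ∧ dot (rot (u t)) O ≤ dot (rot (u t)) x} := by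
  ext x
  rw [quad_iff _ _ _ (u_ne t), dot_sub, dot_sub]
  simp only [mem_ofPred_eq, sub_nonneg]

lemma quad_meas (O : E2) (t : ℝ) : MeasurableSet (quad O (u t)) := by
  rw [quad_eq]
  exact ((isClosed_le continuous_const (continuous_dot _)).inter
      (isClosed_le continuous_const (continuous_dot _))).measurableSet

lemma f_eq (R : Set E2) (O : E2) (t : ℝ) : f R O t = (mu R).real
    {x | dot (u t) O ≤ dot (u t) x ∧ dot (rot (u t)) O ≤ dot (rot (u t)) x} := by
  unfold f mu
  rw [measureReal_restrict_apply (by rw [← quad_eq]; exact quad_meas O t), ← quad_eq, inter_comm]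

lemma continuous_u : Continuous u := by
  unfold u
  fun_prop

lemma continuous_f {P : Set E2} (hP : Body P) (c : ℝ) :
    Continuous (fun z : E2 × ℝ => f P z.1 (z.2 + c)) := by
  have := hP.fin
  rw [continuous_iff_continuousAt]
  intro z0
  have e : (fun z : E2 × ℝ => f P z.1 (z.2 + c)) = fun z => (mu P).real
      {x | dot (u (z.2 + c)) z.1 ≤ dot (u (z.2 + c)) x ∧
        dot (rot (u (z.2 + c))) z.1 ≤ dot (rot (u (z.2 + c))) x} := by
    funext z; exact f_eq _ _ _
  rw [e]
  have hu : Continuous (fun z : E2 × ℝ => u (z.2 + c)) := continuous_u.comp (by fun_prop)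
  have hru : Continuous (fun z : E2 × ℝ => rot (u (z.2 + c))) := by
    have : (fun z : E2 × ℝ => rot (u (z.2 + c))) = fun z => u (z.2 + c + π / 2) := by
      funext z; exact rot_u _
    rw [this]
    exact continuous_u.comp (by fun_prop)
  have hd : ∀ g : E2 × ℝ → E2, Continuous g → Continuous (fun z : E2 × ℝ => dot (g z) z.1) := by
    intro g hg
    unfold dot
    fun_prop
  exact cont_quad' (mu P) (mu_ac P) hu.continuousAt hru.continuousAt (hd _ hu).continuousAt
    (hd _ hru).continuousAt (u_ne _) (rot_ne (u_ne _))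

/-- the four areas add up to the total area -/
lemma sum_f {R : Set E2} (hR : Body R) (O : E2) (t : ℝ) :
    f R O t + f R O (t + π / 2) + f R O (t + π) + f R O (t + 3 * (π / 2)) = M R := by
  have h := vol_quads R O (u t) (u_ne t)
  have e1 : rot (u t) = u (t + π / 2) := rot_u t
  have e2 : -u t = u (t + π) := by
    apply ext2 <;> simp [u, Real.cos_add_pi, Real.sin_add_pi]
  have e3 : -rot (u t) = u (t + 3 * (π / 2)) := by
    rw [e1, show t + 3 * (π / 2) = t + π / 2 + π by ring]
    apply ext2 <;> simp [u, Real.cos_add_pi, Real.sin_add_pi]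
  rw [e3, e2, e1] at h
  have fin : ∀ S : Set E2, volume (R ∩ S) ≠ ∞ := fun S =>
    ((measure_mono inter_subset_left).trans_lt hR.comp.measure_lt_top).ne
  have hM : M R = (volume R).toReal := by
    unfold M mu
    rw [measureReal_restrict_apply MeasurableSet.univ, univ_inter]
    rfl
  rw [hM, h, ENNReal.toReal_add, ENNReal.toReal_add, ENNReal.toReal_add]
  · rfl
  · exact fin _
  · exact fin _
  · exact ENNReal.add_ne_top.2 ⟨fin _, fin _⟩
  · exact fin _
  · exact ENNReal.add_ne_top.2 ⟨ENNReal.add_ne_top.2 ⟨fin _, fin _⟩, fin _⟩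
  · exact fin _

/-- a quadrant with apex outside of the interior, pointing away from the body -/
lemma f_zero {P : Set E2} (hP : Body P) {O : E2} {g : E2}
    (hg : ∀ x ∈ interior P, dot g x < dot g O) {s : ℝ} (h1 : 0 ≤ dot g (u s))
    (h2 : 0 ≤ dot g (rot (u s))) : f P O s = 0 := by
  unfold f
  have hsub : P ∩ quad O (u s) ⊆ frontier P := by
    rintro x ⟨hx, a, b, ha, hb, rfl⟩
    rw [frontier, hP.comp.isClosed.closure_eq]
    refine ⟨hx, fun hi => ?_⟩
    have h3 := hg _ hi
    have h4 : dot g (O + a • u s + b • rot (u s)) =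
        dot g O + a * dot g (u s) + b * dot g (rot (u s)) := by
      simp [dot]; ring
    rw [h4] at h3
    nlinarith [mul_nonneg ha h1, mul_nonneg hb h2]
  rw [measureReal_def, measure_mono_null hsub (hP.conv.addHaar_frontier volume)]
  rfl

lemma int_of {P : Set E2} (hP : Body P) {O : E2} {t : ℝ} (h0 : 0 < f P O t)
    (h1 : 0 < f P O (t + π / 2)) (h2 : 0 < f P O (t + π)) (h3 : 0 < f P O (t + 3 * (π / 2))) :
    O ∈ interior P := by
  by_contra hO
  obtain ⟨φ, hφ⟩ := geometric_hahn_banach_open_point hP.conv.interior isOpen_interior hO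
  set g : E2 := !₂[φ (!₂[1, 0]), φ (!₂[0, 1])] with hg
  have hφg : ∀ x : E2, φ x = dot g x := by
    intro x
    have hx : x = x 0 • (!₂[1, 0] : E2) + x 1 • (!₂[0, 1] : E2) := by
      apply ext2 <;> simp
    conv_lhs => rw [hx]
    rw [map_add, map_smul, map_smul]
    simp [dot, hg]
    ring
  have hg' : ∀ x ∈ interior P, dot g x < dot g O := by
    intro x hx
    rw [← hφg, ← hφg]
    exact hφ x hx
  have e1 : u (t + π / 2) = rot (u t) := (rot_u t).symm
  have e2 : u (t + π) = -u t := by
    apply ext2 <;> simp [u, Real.cos_add_pi, Real.sin_add_pi]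
  have e3 : u (t + 3 * (π / 2)) = -rot (u t) := by
    rw [rot_u, show t + 3 * (π / 2) = t + π / 2 + π by ring]
    apply ext2 <;> simp [u, Real.cos_add_pi, Real.sin_add_pi]
  have hneg : ∀ x : E2, dot g (-x) = -dot g x := by intro x; simp [dot]; ring
  have r1 : rot (rot (u t)) = -u t := rot_rot _
  have r2 : rot (-u t) = -rot (u t) := by apply ext2 <;> simp
  have r3 : rot (-rot (u t)) = u t := by apply ext2 <;> simp
  rcases le_total 0 (dot g (u t)) with p | p <;>
    rcases le_total 0 (dot g (rot (u t))) with q | q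
  · exact h0.ne' (f_zero hP hg' p q)
  · apply h3.ne'
    apply f_zero hP hg'
    · rw [e3, hneg]; linarith
    · rw [e3, r3]; exact p
  · apply h1.ne'
    apply f_zero hP hg'
    · rw [e1]; exact q
    · rw [e1, r1, hneg]; linarith
  · apply h2.ne'
    apply f_zero hP hg'
    · rw [e2, hneg]; linarith
    · rw [e2, r2, hneg]; linarith

lemma u_per (t : ℝ) (n : ℤ) : u (t + n * (2 * π)) = u t := by
  unfold u
  rw [Real.cos_add_int_mul_two_pi, Real.sin_add_int_mul_two_pi]

lemma f_per (R : Set E2) (O : E2) (t : ℝ) (n : ℤ) : f R O (t + n * (2 * π)) = f R O t := by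
  unfold f
  rw [u_per]

lemma conf_per {R : Set E2} {O : E2} {t : ℝ} (n : ℤ) (h : Conf R O t) :
    Conf R O (t + n * (2 * π)) := by
  obtain ⟨h1, ⟨h2, h3⟩, h4⟩ := h
  have e1 : t + n * (2 * π) + π / 2 = t + π / 2 + n * (2 * π) := by ring
  have e2 : t + n * (2 * π) + π = t + π + n * (2 * π) := by ring
  refine ⟨h1, ⟨?_, ?_⟩, ?_⟩
  · rw [e1, f_per, f_per]; exact h2
  · rw [e1, e2, f_per, f_per]; exact h3
  · rw [f_per]; exact h4

/-- the deviation from a quadrisection -/
noncomputable def dev (P : Set E2) (z : E2 × ℝ) : ℝ :=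
  |f P z.1 (z.2 + 0) - M P / 4| + |f P z.1 (z.2 + π / 2) - M P / 4| +
    |f P z.1 (z.2 + π) - M P / 4| + |f P z.1 (z.2 + 3 * (π / 2)) - M P / 4|

lemma continuous_dev {P : Set E2} (hP : Body P) : Continuous (dev P) := by
  unfold dev
  have h0 := continuous_f hP 0
  have h1 := continuous_f hP (π / 2)
  have h2 := continuous_f hP π
  have h3 := continuous_f hP (3 * (π / 2))
  exact ((((h0.sub continuous_const).abs).add ((h1.sub continuous_const).abs)).add
    ((h2.sub continuous_const).abs)).add ((h3.sub continuous_const).abs)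

lemma int_of_dev {P : Set E2} (hP : Body P) {O : E2} {t : ℝ} (h : dev P (O, t) < M P / 4) :
    O ∈ interior P := by
  unfold dev at h
  simp only [add_zero] at h
  have n0 := abs_nonneg (f P O t - M P / 4)
  have n1 := abs_nonneg (f P O (t + π / 2) - M P / 4)
  have n2 := abs_nonneg (f P O (t + π) - M P / 4)
  have n3 := abs_nonneg (f P O (t + 3 * (π / 2)) - M P / 4)
  have l0 := neg_abs_le (f P O t - M P / 4)
  have l1 := neg_abs_le (f P O (t + π / 2) - M P / 4)
  have l2 := neg_abs_le (f P O (t + π) - M P / 4)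
  have l3 := neg_abs_le (f P O (t + 3 * (π / 2)) - M P / 4)
  exact int_of (t := t) hP (by linarith) (by linarith) (by linarith) (by linarith)

lemma conf_of_dev {P : Set E2} (hP : Body P) {O : E2} {t : ℝ} (h : dev P (O, t) = 0) :
    Conf P O t := by
  have hM := M_pos hP
  have hi := int_of_dev hP (O := O) (t := t) (by rw [h]; positivity)
  unfold dev at h
  simp only [add_zero] at h
  have n0 := abs_nonneg (f P O t - M P / 4)
  have n1 := abs_nonneg (f P O (t + π / 2) - M P / 4)
  have n2 := abs_nonneg (f P O (t + π) - M P / 4)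
  have n3 := abs_nonneg (f P O (t + 3 * (π / 2)) - M P / 4)
  have z0 : f P O t - M P / 4 = 0 := abs_eq_zero.1 (by linarith)
  have z1 : f P O (t + π / 2) - M P / 4 = 0 := abs_eq_zero.1 (by linarith)
  have z2 : f P O (t + π) - M P / 4 = 0 := abs_eq_zero.1 (by linarith)
  exact ⟨hi, ⟨by linarith, by linarith⟩, by linarith⟩

lemma M_real (R : Set E2) : M R = volume.real (R ∩ univ) := by
  unfold M mu
  rw [measureReal_restrict_apply MeasurableSet.univ, univ_inter, inter_univ]

end ModStab

open ModStab in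
theorem stab (h : StmtArea) : StmtStab := by
  intro P hP h0 δ hδ
  have hM := M_pos hP
  set K : Set (E2 × ℝ) := (P ×ˢ Icc (0 : ℝ) (2 * π)) ∩
    {z | ∀ (O' : E2) (t' : ℝ), Conf P O' t' → ¬ (dist z.1 O' < δ ∧ |z.2 - t'| < δ)} with hK
  have hKc : IsCompact K := by
    apply (hP.comp.prod isCompact_Icc).inter_right
    have : {z : E2 × ℝ | ∀ (O' : E2) (t' : ℝ), Conf P O' t' →
        ¬ (dist z.1 O' < δ ∧ |z.2 - t'| < δ)} =
        ⋂ (O' : E2), ⋂ (t' : ℝ), ⋂ (_ : Conf P O' t'),
          {z : E2 × ℝ | dist z.1 O' < δ ∧ |z.2 - t'| < δ}ᶜ := by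
      ext z
      simp only [mem_ofPred_eq, mem_iInter, mem_compl_iff]
    rw [this]
    refine isClosed_iInter fun O' => isClosed_iInter fun t' => isClosed_iInter fun _ => ?_
    rw [isClosed_compl_iff]
    exact (isOpen_lt (continuous_fst.dist continuous_const) continuous_const).inter
      (isOpen_lt ((continuous_snd.sub continuous_const).abs) continuous_const)
  obtain ⟨c, hc, hcK⟩ : ∃ c : ℝ, 0 < c ∧ ∀ z ∈ K, c ≤ dev P z := by
    rcases K.eq_empty_or_nonempty with hKe | hKn
    · exact ⟨1, one_pos, fun z hz => by rw [hKe] at hz; exact absurd hz (notMem_empty z)⟩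
    · obtain ⟨z0, hz0, hmin⟩ := hKc.exists_isMinOn hKn (continuous_dev hP).continuousOn
      refine ⟨dev P z0, ?_, fun z hz => hmin hz⟩
      have hnn : 0 ≤ dev P z0 := by unfold dev; positivity
      refine lt_of_le_of_ne hnn fun he => ?_
      have hconf : Conf P z0.1 z0.2 := conf_of_dev hP he.symm
      apply hz0.2 z0.1 z0.2 hconf
      simp [hδ]
  obtain ⟨c', hc'⟩ : ∃ c', c' = min c (M P / 4) := ⟨_, rfl⟩
  have hc'0 : 0 < c' := by rw [hc']; positivity
  have hc'1 : c' ≤ c := by rw [hc']; exact min_le_left _ _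
  have hc'2 : c' ≤ M P / 4 := by rw [hc']; exact min_le_right _ _
  obtain ⟨δ', hδ', hA⟩ := h P hP h0 (c' / 16) (by positivity)
  refine ⟨δ', hδ', ?_⟩
  intro R hR hS O t hconf
  -- the areas of the quadrants
  obtain ⟨_, ⟨b1, b2⟩, b3⟩ := hconf
  have bs := sum_f hR O t
  have hA0 := hA R hR hS univ MeasurableSet.univ
  rw [← M_real, ← M_real] at hA0
  have q0 := hA R hR hS _ (quad_meas O t)
  have q1 := hA R hR hS _ (quad_meas O (t + π / 2))
  have q2 := hA R hR hS _ (quad_meas O (t + π))
  have q3 := hA R hR hS _ (quad_meas O (t + 3 * (π / 2)))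
  change |f R O t - f P O t| < _ at q0
  change |f R O (t + π / 2) - f P O (t + π / 2)| < _ at q1
  change |f R O (t + π) - f P O (t + π)| < _ at q2
  change |f R O (t + 3 * (π / 2)) - f P O (t + 3 * (π / 2))| < _ at q3
  have hdev : dev P (O, t) < c' := by
    unfold dev
    simp only [add_zero]
    have g : ∀ x y : ℝ, x = M R / 4 → |x - y| < c' / 16 → |y - M P / 4| ≤ c' / 8 := by
      intro x y hx hxy
      rw [abs_lt] at hxy hA0
      rw [abs_le]
      constructor <;> linarith [hxy.1, hxy.2, hA0.1, hA0.2]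
    have g0 := g _ _ b3 q0
    have g1 := g _ _ (by linarith) q1
    have g2 := g _ _ (by linarith) q2
    have g3 := g _ _ (by linarith) q3
    linarith
  have hOP : O ∈ interior P := int_of_dev (t := t) hP (by linarith)
  -- reduction of `t`
  obtain ⟨n, hn⟩ : ∃ n : ℤ, n = ⌊t / (2 * π)⌋ := ⟨_, rfl⟩
  obtain ⟨s, hs⟩ : ∃ s, s = t - n * (2 * π) := ⟨_, rfl⟩
  have hpi := Real.pi_pos
  have hs0 : 0 ≤ s := by
    have := Int.floor_le (t / (2 * π))
    rw [← hn, le_div_iff₀ (by positivity)] at this
    linarith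
  have hs1 : s ≤ 2 * π := by
    have := Int.lt_floor_add_one (t / (2 * π))
    rw [← hn, div_lt_iff₀ (by positivity)] at this
    linarith
  have hts : t = s + n * (2 * π) := by rw [hs]; ring
  have hdev2 : dev P (O, s) = dev P (O, t) := by
    unfold dev
    simp only [add_zero]
    rw [hts, f_per, show s + n * (2 * π) + π / 2 = s + π / 2 + n * (2 * π) by ring, f_per,
      show s + n * (2 * π) + π = s + π + n * (2 * π) by ring, f_per,
      show s + n * (2 * π) + 3 * (π / 2) = s + 3 * (π / 2) + n * (2 * π) by ring, f_per]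
  have hnK : (O, s) ∉ K := by
    intro hmem
    have := hcK _ hmem
    linarith
  have : ∃ (O' : E2) (t' : ℝ), Conf P O' t' ∧ dist O O' < δ ∧ |s - t'| < δ := by
    by_contra hcon
    push Not at hcon
    apply hnK
    refine ⟨⟨interior_subset hOP, hs0, hs1⟩, ?_⟩
    rintro O' t' hc1 ⟨hc2, hc3⟩
    exact absurd hc3 (not_lt.2 (hcon O' t' hc1 hc2))
  obtain ⟨O', t', k1, k2, k3⟩ := this
  refine ⟨O', t' + n * (2 * π), conf_per n k1, k2, ?_⟩
  rw [hts, add_sub_add_right_eq_sub]
  exact k3

end Pool.Agent.T6.H7.QS
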