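import Pool.Agent.T6.H7.QS.Defs

set_option autoImplicit false

namespace Pool.Agent.T6.H7.QS

open MeasureTheory Set Pool.V11275.Quad Pool.Agent.Helper717.Hull1 Pool.Agent.Helper717.Hull2
open scoped Real

namespace ModSYM

lemma u0 (t : ℝ) : u t 0 = Real.cos t := rfl
lemma u1 (t : ℝ) : u t 1 = Real.sin t := rfl

lemma u_ne (t : ℝ) : u t ≠ 0 := by
  intro h
  have h0 : Real.cos t = 0 := by
    have := congrArg (fun x : E2 => x 0) h
    simpa [u0] using this
  have h1 : Real.sin t = 0 := by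
    have := congrArg (fun x : E2 => x 1) h
    simpa [u1] using this
  have := Real.sin_sq_add_cos_sq t
  rw [h0, h1] at this
  norm_num at this

lemma u_half (t : ℝ) : u (t + π / 2) = rot (u t) := by
  apply ext2
  · rw [u0, rot_zero, u1, Real.cos_add_pi_div_two]
  · rw [u1, rot_one, u0, Real.sin_add_pi_div_two]

lemma u_pi (t : ℝ) : u (t + π) = -u t := by
  apply ext2
  · rw [u0, Real.cos_add_pi]; rfl
  · rw [u1, Real.sin_add_pi]; rfl

lemma u_two_pi (t : ℝ) : u (t + 2 * π) = u t := by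
  apply ext2
  · rw [u0, Real.cos_add_two_pi]; rfl
  · rw [u1, Real.sin_add_two_pi]; rfl

/-- the rotation by `α` -/
noncomputable def Rt (α : ℝ) : E2 ≃ₗᵢ[ℝ] E2 where
  toFun x := !₂[Real.cos α * x 0 - Real.sin α * x 1, Real.sin α * x 0 + Real.cos α * x 1]
  invFun x := !₂[Real.cos α * x 0 + Real.sin α * x 1, -Real.sin α * x 0 + Real.cos α * x 1]
  map_add' := by intro x y; apply ext2 <;> simp <;> ring
  map_smul' := by intro r x; apply ext2 <;> simp <;> ring
  left_inv := by
    intro x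
    have h := Real.sin_sq_add_cos_sq α
    apply ext2
    · simp only [Matrix.cons_val_zero, Matrix.cons_val_one, PiLp.toLp_apply]
      linear_combination x 0 * h
    · simp only [Matrix.cons_val_zero, Matrix.cons_val_one, PiLp.toLp_apply]
      linear_combination x 1 * h
  right_inv := by
    intro x
    have h := Real.sin_sq_add_cos_sq α
    apply ext2
    · simp only [Matrix.cons_val_zero, Matrix.cons_val_one, PiLp.toLp_apply]
      linear_combination x 0 * h
    · simp only [Matrix.cons_val_zero, Matrix.cons_val_one, PiLp.toLp_apply]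
      linear_combination x 1 * h
  norm_map' := by
    intro x
    rw [EuclideanSpace.norm_eq, EuclideanSpace.norm_eq]
    congr 1
    rw [Fin.sum_univ_two, Fin.sum_univ_two]
    have h := Real.sin_sq_add_cos_sq α
    simp only [Real.norm_eq_abs, sq_abs]
    show (Real.cos α * x 0 - Real.sin α * x 1) ^ 2 + (Real.sin α * x 0 + Real.cos α * x 1) ^ 2 = _
    linear_combination (x 0 ^ 2 + x 1 ^ 2) * h

lemma Rt0 (α : ℝ) (x : E2) : Rt α x 0 = Real.cos α * x 0 - Real.sin α * x 1 := rfl
lemma Rt1 (α : ℝ) (x : E2) : Rt α x 1 = Real.sin α * x 0 + Real.cos α * x 1 := rfl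

lemma Rt_u (α t : ℝ) : Rt α (u t) = u (t + α) := by
  apply ext2
  · rw [Rt0, u0, u1, u0, Real.cos_add]; ring
  · rw [Rt1, u0, u1, u1, Real.sin_add]; ring

lemma Rt_rot (α : ℝ) (x : E2) : Rt α (rot x) = rot (Rt α x) := by
  apply ext2
  · rw [Rt0, rot_zero, rot_zero, rot_one, Rt1]; ring
  · rw [Rt1, rot_zero, rot_one, rot_one, Rt0]; ring

lemma Rt_neg (α : ℝ) (x : E2) : Rt α (Rt (-α) x) = x := by
  have h := Real.sin_sq_add_cos_sq α
  apply ext2
  · rw [Rt0, Rt0, Rt1, Real.cos_neg, Real.sin_neg]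
    linear_combination x 0 * h
  · rw [Rt1, Rt0, Rt1, Real.cos_neg, Real.sin_neg]
    linear_combination x 1 * h

lemma dot_Rt (α a : ℝ) (x : E2) : dot (u (a + α)) (Rt α x) = dot (u a) x := by
  have h := Real.sin_sq_add_cos_sq α
  simp only [dot, u0, u1, Rt0, Rt1, Real.cos_add, Real.sin_add]
  linear_combination (Real.cos a * x 0 + Real.sin a * x 1) * h

/-- invariance of a set under the rotation by `α` -/
def Inv (P : Set E2) (α : ℝ) : Prop := ∀ x, Rt α x ∈ P ↔ x ∈ P

lemma Inv.neg {P : Set E2} {α : ℝ} (h : Inv P α) : Inv P (-α) := by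
  intro x
  rw [← h (Rt (-α) x), Rt_neg]

lemma quad_Rt (α : ℝ) (O v x : E2) : Rt α x ∈ quad (Rt α O) (Rt α v) ↔ x ∈ quad O v := by
  constructor
  · rintro ⟨a, b, ha, hb, h⟩
    refine ⟨a, b, ha, hb, ?_⟩
    apply (Rt α).injective
    rw [h, map_add, map_add, map_smul, map_smul, Rt_rot]
  · rintro ⟨a, b, ha, hb, rfl⟩
    exact ⟨a, b, ha, hb, by rw [map_add, map_add, map_smul, map_smul, Rt_rot]⟩

variable {P : Set E2} {α : ℝ}

lemma f_Rt (hP : Body P) (h : Inv P α) (O : E2) (t : ℝ) : f P (Rt α O) (t + α) = f P O t := by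
  unfold f
  have hm : MeasurableSet (P ∩ quad (Rt α O) (u (t + α))) :=
    hP.comp.isClosed.measurableSet.inter (quad_meas _ _ (u_ne _))
  have h1 : (Rt α) ⁻¹' (P ∩ quad (Rt α O) (u (t + α))) = P ∩ quad O (u t) := by
    ext x
    rw [mem_preimage, mem_inter_iff, mem_inter_iff, h x, ← Rt_u, quad_Rt]
  rw [Measure.real, Measure.real, ← h1,
    (LinearIsometryEquiv.measurePreserving (Rt α)).measure_preimage hm.nullMeasurableSet]

lemma rho_Rt (h : Inv P α) (O : E2) (t : ℝ) : rho P (Rt α O) (t + α) = rho P O t := by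
  unfold rho
  congr 1
  ext r
  have : Rt α O + r • u (t + α) = Rt α (O + r • u t) := by
    rw [map_add, map_smul, Rt_u]
  simp only [mem_ofPred_eq]
  rw [this, h]

lemma int_Rt (h : Inv P α) {O : E2} (hO : O ∈ interior P) : Rt α O ∈ interior P := by
  have h1 : (Rt α) ⁻¹' P = P := by
    ext x
    exact h x
  have h2 : (Rt α) ⁻¹' (interior P) = interior P := by
    have := (Rt α).toHomeomorph.preimage_interior P
    have h3 : (Rt α).toHomeomorph ⁻¹' P = P := h1
    rw [h3] at this
    exact this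
  have : O ∈ (Rt α) ⁻¹' (interior P) := by rw [h2]; exact hO
  exact this

lemma Bis_Rt (hP : Body P) (h : Inv P α) {O : E2} {t : ℝ} (hb : Bis P O t) :
    Bis P (Rt α O) (t + α) := by
  unfold Bis at hb ⊢
  rw [show t + α + π / 2 = t + π / 2 + α by ring, show t + α + π = t + π + α by ring,
    f_Rt hP h, f_Rt hP h, f_Rt hP h]
  exact hb

lemma ND_Rt (h : Inv P α) {O : E2} {t : ℝ} (hb : ND P O t) : ND P (Rt α O) (t + α) := by
  unfold ND at hb ⊢
  rw [show t + α + π / 2 = t + π / 2 + α by ring, show t + α + π = t + π + α by ring,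
    show t + α + 3 * (π / 2) = t + 3 * (π / 2) + α by ring,
    rho_Rt h, rho_Rt h, rho_Rt h, rho_Rt h]
  exact hb

/-! ### the quarter turn -/

lemma f_two_pi (P : Set E2) (O : E2) (t : ℝ) : f P O (t + 2 * π) = f P O t := by
  unfold f
  rw [u_two_pi]

lemma rho_two_pi (P : Set E2) (O : E2) (t : ℝ) : rho P O (t + 2 * π) = rho P O t := by
  unfold rho
  rw [u_two_pi]

lemma f_sum (hP : Body P) (O : E2) (t : ℝ) :
    f P O t + f P O (t + π / 2) + f P O (t + π) + f P O (t + π / 2 + π) = M P := by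
  have h1 := vol_quads P O (u t) (u_ne t)
  have hfin : volume P ≠ ⊤ := hP.comp.measure_lt_top.ne
  have hf : ∀ S : Set E2, volume (P ∩ S) ≠ ⊤ := fun S =>
    ne_top_of_le_ne_top hfin (measure_mono inter_subset_left)
  have h2 : M P = (volume P).toReal := by
    unfold M mu
    rw [Measure.real, Measure.restrict_apply MeasurableSet.univ, univ_inter]
  rw [h2, h1, ENNReal.toReal_add (ENNReal.add_ne_top.2 ⟨ENNReal.add_ne_top.2 ⟨hf _, hf _⟩, hf _⟩)
    (hf _), ENNReal.toReal_add (ENNReal.add_ne_top.2 ⟨hf _, hf _⟩) (hf _),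
    ENNReal.toReal_add (hf _) (hf _)]
  unfold f
  rw [u_pi, u_pi, u_half]
  rfl

lemma Bis_facts (hP : Body P) {O : E2} {t : ℝ} (hb : Bis P O t) :
    f P O (t + π) = f P O t ∧ f P O (t + π / 2 + π) = f P O (t + π / 2) ∧
    f P O (t + π / 2) = M P / 2 - f P O t := by
  have h := f_sum hP O t
  obtain ⟨h1, h2⟩ := hb
  refine ⟨by linarith, by linarith, by linarith⟩

lemma Bis_half (hP : Body P) {O : E2} {t : ℝ} (hb : Bis P O t) : Bis P O (t + π / 2) := by
  obtain ⟨h1, h2, h3⟩ := Bis_facts hP hb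
  unfold Bis
  rw [show t + π / 2 + π / 2 = t + π by ring, h1, h2, h3]
  constructor <;> ring

lemma Bis_half' (hP : Body P) {O : E2} {t : ℝ} (hb : Bis P O t) : Bis P O (t - π / 2) := by
  have h := Bis_half hP (Bis_half hP (Bis_half hP hb))
  have e : t + π / 2 + π / 2 + π / 2 = t - π / 2 + 2 * π := by ring
  rw [e] at h
  unfold Bis at h ⊢
  rw [show t - π / 2 + 2 * π + π / 2 = t - π / 2 + π / 2 + 2 * π by ring,
    show t - π / 2 + 2 * π + π = t - π / 2 + π + 2 * π by ring, f_two_pi, f_two_pi, f_two_pi] at h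
  exact h

lemma f_half (hP : Body P) {O : E2} {t : ℝ} (hb : Bis P O t) :
    f P O (t + π / 2) - M P / 4 = -(f P O t - M P / 4) := by
  rw [(Bis_facts hP hb).2.2]; ring

lemma f_half' (hP : Body P) {O : E2} {t : ℝ} (hb : Bis P O t) :
    f P O (t - π / 2) - M P / 4 = -(f P O t - M P / 4) := by
  have h := f_half hP (Bis_half' hP hb)
  rw [sub_add_cancel] at h
  linarith

lemma ND_half {O : E2} {t : ℝ} (hb : ND P O t) : ND P O (t + π / 2) := by
  unfold ND at hb ⊢
  rw [show t + π / 2 + π / 2 = t + π by ring, show t + π / 2 + 3 * (π / 2) = t + 2 * π by ring,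
    rho_two_pi, show t + π / 2 + π = t + 3 * (π / 2) by ring]
  intro h
  apply hb
  rw [h]
  ring

lemma ND_half' {O : E2} {t : ℝ} (hb : ND P O t) : ND P O (t - π / 2) := by
  have h := ND_half (ND_half (ND_half hb))
  have e : t + π / 2 + π / 2 + π / 2 = t - π / 2 + 2 * π := by ring
  rw [e] at h
  unfold ND at h ⊢
  rw [show t - π / 2 + 2 * π + π / 2 = t - π / 2 + π / 2 + 2 * π by ring,
    show t - π / 2 + 2 * π + π = t - π / 2 + π + 2 * π by ring,
    show t - π / 2 + 2 * π + 3 * (π / 2) = t - π / 2 + 3 * (π / 2) + 2 * π by ring,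
    rho_two_pi, rho_two_pi, rho_two_pi, rho_two_pi] at h
  exact h

/-! ### induction -/

lemma int_ind (m : ℕ) (ho : Odd m) (Pr : ℤ → Prop) (h0 : Pr 0) (h4 : ∀ k, Pr k → Pr (k + 4))
    (h4' : ∀ k, Pr k → Pr (k - 4)) (hm : ∀ k, Pr k → Pr (k + m)) (hm' : ∀ k, Pr k → Pr (k - m))
    (k : ℤ) : Pr k := by
  have g4 : ∀ a : ℤ, ∀ k, Pr k → Pr (k + 4 * a) := by
    intro a
    induction a using Int.induction_on with
    | zero => intro k hk; simpa using hk
    | succ a ih =>
      intro k hk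
      have := h4 _ (ih k hk)
      rwa [show k + 4 * (a : ℤ) + 4 = k + 4 * (a + 1) by ring] at this
    | pred a ih =>
      intro k hk
      have := h4' _ (ih k hk)
      rwa [show k + 4 * (-(a : ℤ)) - 4 = k + 4 * (-(a : ℤ) - 1) by ring] at this
  have gm : ∀ a : ℤ, ∀ k, Pr k → Pr (k + m * a) := by
    intro a
    induction a using Int.induction_on with
    | zero => intro k hk; simpa using hk
    | succ a ih =>
      intro k hk
      have := hm _ (ih k hk)
      rwa [show k + m * (a : ℤ) + m = k + m * (a + 1) by ring] at this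
    | pred a ih =>
      intro k hk
      have := hm' _ (ih k hk)
      rwa [show k + m * (-(a : ℤ)) - m = k + m * (-(a : ℤ) - 1) by ring] at this
  have hc : IsCoprime (4 : ℤ) (m : ℤ) := by
    have h1 : Nat.Coprime 4 m := by
      have := Nat.Coprime.pow_left 2 (Nat.coprime_two_left.2 ho)
      simpa using this
    exact_mod_cast Nat.Coprime.isCoprime h1
  obtain ⟨a, b, hab⟩ := hc
  have := gm (b * k) _ (g4 (a * k) 0 h0)
  have e : 0 + 4 * (a * k) + (m : ℤ) * (b * k) = k := by
    calc 0 + 4 * (a * k) + (m : ℤ) * (b * k) = (a * 4 + b * m) * k := by ring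
      _ = k := by rw [hab, one_mul]
  rwa [e] at this

end ModSYM

open ModSYM in
theorem sym (h : StmtHrep) : StmtSym := by
  intro m hm5 ho hC hB
  obtain ⟨hP, hbody, _, _⟩ := h m (by omega) ho
  have hm0 : (m : ℝ) ≠ 0 := by
    have : (5 : ℝ) ≤ m := by exact_mod_cast hm5
    positivity
  have hInv : Inv (P1 m) (2 * (π / m)) := by
    intro x
    rw [hP]
    simp only [mem_ofPred_eq]
    constructor
    · intro hx j
      have := hx (j + 1)
      rw [show (2 * ((j + 1 : ℤ) : ℝ) + 1) * (π / m) = (2 * j + 1) * (π / m) + 2 * (π / m) by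
        push_cast; ring, dot_Rt] at this
      exact this
    · intro hx j
      have := hx (j - 1)
      rw [← dot_Rt (2 * (π / m))] at this
      rwa [show (2 * ((j - 1 : ℤ) : ℝ) + 1) * (π / m) + 2 * (π / m) = (2 * j + 1) * (π / m) by
        push_cast; ring] at this
  have hInv' := hInv.neg
  have z4 : 4 * (π / (2 * m)) = 2 * (π / m) := by field_simp; ring
  have zm : m * (π / (2 * m)) = π / 2 := by field_simp
  constructor
  · refine int_ind m ho (fun k : ℤ => ∀ t : ℝ, k * (π / (2 * m)) < t → t < (k + 1) * (π / (2 * m)) →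
      ∃ O ∈ interior (P1 m), Bis (P1 m) O t ∧ (-1 : ℝ) ^ k * (f (P1 m) O t - M (P1 m) / 4) < 0)
      ?_ ?_ ?_ ?_ ?_
    · intro t h1 h2
      simp only [Int.cast_zero, zero_mul, zero_add, one_mul] at h1 h2
      obtain ⟨O, hO, hb, hf⟩ := hC t h1 h2
      refine ⟨O, hO, hb, ?_⟩
      rw [zpow_zero, one_mul]
      linarith
    · intro k ih t h1 h2
      push_cast at h1 h2
      obtain ⟨O, hO, hb, hf⟩ := ih (t - 2 * (π / m)) (by rw [← z4]; linarith)
        (by rw [← z4]; linarith)
      refine ⟨Rt (2 * (π / m)) O, int_Rt hInv hO, ?_, ?_⟩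
      · have := Bis_Rt hbody hInv hb
        rwa [sub_add_cancel] at this
      · have := f_Rt hbody hInv O (t - 2 * (π / m))
        rw [sub_add_cancel] at this
        rw [this, zpow_add₀ (by norm_num)]
        norm_num
        exact hf
    · intro k ih t h1 h2
      push_cast at h1 h2
      obtain ⟨O, hO, hb, hf⟩ := ih (t + 2 * (π / m)) (by rw [← z4]; linarith)
        (by rw [← z4]; linarith)
      refine ⟨Rt (-(2 * (π / m))) O, int_Rt hInv' hO, ?_, ?_⟩
      · have := Bis_Rt hbody hInv' hb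
        rwa [add_neg_cancel_right] at this
      · have := f_Rt hbody hInv' O (t + 2 * (π / m))
        rw [add_neg_cancel_right] at this
        rw [this, zpow_sub₀ (by norm_num)]
        norm_num
        exact hf
    · intro k ih t h1 h2
      push_cast at h1 h2
      obtain ⟨O, hO, hb, hf⟩ := ih (t - π / 2) (by rw [← zm]; linarith) (by rw [← zm]; linarith)
      refine ⟨O, hO, ?_, ?_⟩
      · have := Bis_half hbody hb
        rwa [sub_add_cancel] at this
      · have := f_half hbody hb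
        rw [sub_add_cancel] at this
        rw [this, zpow_add₀ (by norm_num), zpow_natCast, ho.neg_one_pow]
        linarith
    · intro k ih t h1 h2
      push_cast at h1 h2
      obtain ⟨O, hO, hb, hf⟩ := ih (t + π / 2) (by rw [← zm]; linarith) (by rw [← zm]; linarith)
      refine ⟨O, hO, ?_, ?_⟩
      · have := Bis_half' hbody hb
        rwa [add_sub_cancel_right] at this
      · have := f_half' hbody hb
        rw [add_sub_cancel_right] at this
        rw [this, zpow_sub₀ (by norm_num), zpow_natCast, ho.neg_one_pow]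
        linarith
  · refine int_ind m ho (fun k : ℤ => ∃ O : E2, Conf (P1 m) O (k * (π / (2 * m))) ∧
      ND (P1 m) O (k * (π / (2 * m)))) ?_ ?_ ?_ ?_ ?_
    · obtain ⟨O, h1, h2⟩ := hB
      refine ⟨O, ?_, ?_⟩
      · simpa using h1
      · simpa using h2
    · rintro k ⟨O, ⟨h1, h2, h3⟩, h4⟩
      have e : ((k + 4 : ℤ) : ℝ) * (π / (2 * m)) = k * (π / (2 * m)) + 2 * (π / m) := by
        rw [← z4]; push_cast; ring
      refine ⟨Rt (2 * (π / m)) O, ⟨int_Rt hInv h1, ?_, ?_⟩, ?_⟩
      · rw [e]; exact Bis_Rt hbody hInv h2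
      · rw [e, f_Rt hbody hInv]; exact h3
      · rw [e]; exact ND_Rt hInv h4
    · rintro k ⟨O, ⟨h1, h2, h3⟩, h4⟩
      have e : ((k - 4 : ℤ) : ℝ) * (π / (2 * m)) = k * (π / (2 * m)) + -(2 * (π / m)) := by
        rw [← z4]; push_cast; ring
      refine ⟨Rt (-(2 * (π / m))) O, ⟨int_Rt hInv' h1, ?_, ?_⟩, ?_⟩
      · rw [e]; exact Bis_Rt hbody hInv' h2
      · rw [e, f_Rt hbody hInv']; exact h3
      · rw [e]; exact ND_Rt hInv' h4
    · rintro k ⟨O, ⟨h1, h2, h3⟩, h4⟩
      have e : ((k + m : ℤ) : ℝ) * (π / (2 * m)) = k * (π / (2 * m)) + π / 2 := by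
        rw [← zm]; push_cast; ring
      refine ⟨O, ⟨h1, ?_, ?_⟩, ?_⟩
      · rw [e]; exact Bis_half hbody h2
      · have := f_half hbody h2
        rw [e]; linarith
      · rw [e]; exact ND_half h4
    · rintro k ⟨O, ⟨h1, h2, h3⟩, h4⟩
      have e : ((k - m : ℤ) : ℝ) * (π / (2 * m)) = k * (π / (2 * m)) - π / 2 := by
        rw [← zm]; push_cast; ring
      refine ⟨O, ⟨h1, ?_, ?_⟩, ?_⟩
      · rw [e]; exact Bis_half' hbody h2
      · have := f_half' hbody h2
        rw [e]; linarith
      · rw [e]; exact ND_half' h4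

end Pool.Agent.T6.H7.QS
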