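import Pool.Agent.T6.H7.QS.Defs

set_option autoImplicit false

/-! Project QS, module UPPER. -/

namespace Pool.Agent.T6.H7.QS.ModUpper

open MeasureTheory Set Pool.V11275.Quad Pool.Agent.Helper717.Hull1 Pool.Agent.Helper717.Hull2
open Pool.Agent.T6.H7.QS
open scoped Real

theorem upper (h1 : StmtLoc) (h2 : StmtStab) (h3 : StmtBr) (h4 : StmtUniq) : StmtUpper := by
  intro P hP h0 m hm hk hnd
  have hm0 : 0 < m := hm.pos
  have hmR : (0 : ℝ) < m := by exact_mod_cast hm0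
  obtain ⟨z, hz⟩ : ∃ z : ℝ, z = π / (2 * m) := ⟨_, rfl⟩
  rw [← hz] at hk hnd
  have hz0 : 0 < z := by rw [hz]; positivity
  have hzm : m * z / 2 = π / 4 := by rw [hz]; field_simp; ring
  have key : ∀ k : ℤ, ∃ δ : ℝ, 0 < δ ∧ ∀ O0, Conf P O0 (k * z) →
      ∀ R : Set E2, Body R → Sand δ P R → ∀ (O O' : E2) (t t' : ℝ), dist O O0 < δ →
      |t - k * z| < δ → dist O' O0 < δ → |t' - k * z| < δ →
      Conf R O t → Conf R O' t' → O = O' ∧ t = t' := by
    intro k
    by_cases h : ∃ O0, Conf P O0 (k * z)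
    · obtain ⟨O0, hO0⟩ := h
      obtain ⟨δ, hδ, H⟩ := h1 P hP h0 O0 hO0.1 (k * z) (hnd O0 k hO0)
      refine ⟨δ, hδ, fun O1 hO1 => ?_⟩
      have : O1 = O0 := h4 P hP O1 O0 (k * z) hO1.1 hO0.1 hO1.2.1 hO0.2.1
      subst this; exact H
    · exact ⟨1 / 2, by norm_num, fun O0 hO0 => absurd ⟨O0, hO0⟩ h⟩
  choose D hD0 hD using key
  obtain ⟨n, hn⟩ := hm
  set K : Finset ℤ := Finset.Icc (-(n : ℤ)) n with hK
  have hKne : K.Nonempty := ⟨0, by rw [hK, Finset.mem_Icc]; omega⟩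
  have hKc : K.card = m := by rw [hK, Int.card_Icc, hn]; omega
  set δ0 : ℝ := min (K.inf' hKne D) (z / 4) with hδ0
  have hδ0K : ∀ k ∈ K, δ0 ≤ D k := fun k hk' => (min_le_left _ _).trans (Finset.inf'_le _ hk')
  have hδ0p : 0 < δ0 := by
    apply lt_min _ (by positivity)
    rw [Finset.lt_inf'_iff]
    exact fun k _ => hD0 k
  obtain ⟨δ', hδ', hS⟩ := h2 P hP h0 δ0 hδ0p
  refine ⟨min δ' δ0, lt_min hδ' hδ0p, fun R hR hRS => ?_⟩
  have hS' : Sand δ' P R := hRS.mono (min_le_left _ _)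
  have hSk : ∀ k ∈ K, Sand (D k) P R := fun k hk' =>
    hRS.mono ((min_le_right _ _).trans (hδ0K k hk'))
  have ex : ∀ q : Set (Set E2), q ∈ {q | IsQuadrisection R q} → ∃ k : ℤ, k ∈ K ∧
      ∃ (O : E2) (t : ℝ) (O0 : E2), Conf R O t ∧ q = {line O (u t), line O (u (t + π / 2))} ∧
        Conf P O0 (k * z) ∧ dist O O0 < D k ∧ |t - k * z| < D k := by
    intro q hq
    obtain ⟨O, t, ht1, ht2, hC, hq'⟩ := (h3 R hR).2 q hq
    obtain ⟨O', t', hC', hd, ht⟩ := hS R hR hS' O t hC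
    obtain ⟨k, rfl⟩ := hk O' t' hC'
    have hkK : k ∈ K := by
      have h5 : |t - k * z| < z / 4 := ht.trans_le (min_le_right _ _)
      rw [abs_lt] at h5
      have e1 : (k : ℝ) * z < (m / 2 + 1 / 4) * z := by linarith
      have e2 : -((m : ℝ) / 2 + 1 / 4) * z < k * z := by linarith
      have e3 := lt_of_mul_lt_mul_right e1 hz0.le
      have e4 := lt_of_mul_lt_mul_right e2 hz0.le
      rw [hn] at e3 e4
      push_cast at e3 e4
      have e5 : (k : ℝ) < n + 1 := by linarith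
      have e6 : -(n : ℝ) - 1 < k := by linarith
      have e7 : k < (n : ℤ) + 1 := by exact_mod_cast e5
      have e8 : -(n : ℤ) - 1 < k := by exact_mod_cast e6
      rw [hK, Finset.mem_Icc]
      omega
    exact ⟨k, hkK, O, t, O', hC, hq', hC', hd.trans_le (hδ0K k hkK), ht.trans_le (hδ0K k hkK)⟩
  choose! F hFK hF using ex
  have hle : {q | IsQuadrisection R q}.encard ≤ ((K : Set ℤ)).encard := by
    apply encard_le_encard_of_injOn (f := F)
    · intro q hq
      exact hFK q hq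
    · intro q hq q' hq' he
      obtain ⟨O, t, O0, c1, c2, c3, c4, c5⟩ := hF q hq
      obtain ⟨O', t', O0', c1', c2', c3', c4', c5'⟩ := hF q' hq'
      have he' : F q = F q' := he
      rw [← he'] at c3' c4' c5'
      have : O0' = O0 := h4 P hP O0' O0 _ c3'.1 c3.1 c3'.2.1 c3.2.1
      subst this
      obtain ⟨rfl, rfl⟩ := hD (F q) O0' c3 R hR (hSk _ (hFK q hq)) O O' t t' c4 c5 c4' c5' c1 c1'
      rw [c2, c2']
  rw [encard_coe_eq_coe_finsetCard, hKc] at hle
  exact hle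

end Pool.Agent.T6.H7.QS.ModUpper

namespace Pool.Agent.T6.H7.QS
theorem upper (h1 : StmtLoc) (h2 : StmtStab) (h3 : StmtBr) (h4 : StmtUniq) : StmtUpper :=
  ModUpper.upper h1 h2 h3 h4
end Pool.Agent.T6.H7.QS
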