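import Pool.Agent.V11275.Quad6

set_option autoImplicit false

/-!
Project QS (MP_79dd7e_co, Q2): every convex `(2n+1)`-gon sufficiently close to the regular one has
exactly `2n+1` quadrisections. Definitions and statements of the modules.
-/

namespace Pool.Agent.T6.H7.QS

open MeasureTheory Set Pool.V11275.Quad Pool.Agent.Helper717.Hull1 Pool.Agent.Helper717.Hull2
open scoped Real

/-- The unit vector of direction `t`. -/
noncomputable def u (t : ℝ) : E2 := !₂[Real.cos t, Real.sin t]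

/-- Area of the part of `R` in the quadrant with apex `O` between the directions `u t` and
`u (t + π / 2)`. -/
noncomputable def f (R : Set E2) (O : E2) (t : ℝ) : ℝ := volume.real (R ∩ quad O (u t))

/-- Length of the ray of `R` from `O` in direction `u t`. -/
noncomputable def rho (R : Set E2) (O : E2) (t : ℝ) : ℝ := sSup {r : ℝ | 0 ≤ r ∧ O + r • u t ∈ R}

/-- Both lines through `O` with directions `u t`, `u (t + π / 2)` bisect the area of `R`. -/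
def Bis (R : Set E2) (O : E2) (t : ℝ) : Prop :=
  f R O t + f R O (t + π / 2) = M R / 2 ∧ f R O (t + π / 2) + f R O (t + π) = M R / 2

/-- The two perpendicular lines through `O` with direction `u t`, `u (t + π / 2)` form a
quadrisection. -/
def Conf (R : Set E2) (O : E2) (t : ℝ) : Prop := O ∈ interior R ∧ Bis R O t ∧ f R O t = M R / 4

/-- Non-degeneracy of a cross. -/
def ND (R : Set E2) (O : E2) (t : ℝ) : Prop :=
  rho R O t * rho R O (t + π) ≠ rho R O (t + π / 2) * rho R O (t + 3 * (π / 2))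

/-- `(1 - a) P ⊆ R ⊆ (1 + a) P` for some `0 ≤ a < min δ 1` (monotone in `δ` by definition). -/
def Sand (δ : ℝ) (P R : Set E2) : Prop := ∃ a : ℝ, 0 ≤ a ∧ a < δ ∧ a < 1 ∧
  (∀ x ∈ P, (1 - a) • x ∈ R) ∧ ∀ x ∈ R, ∃ y ∈ P, x = (1 + a) • y

theorem Sand.mono {δ δ' : ℝ} {P R : Set E2} (h : Sand δ P R) (hd : δ ≤ δ') : Sand δ' P R := by
  obtain ⟨a, h0, h1, h2, h3, h4⟩ := h
  exact ⟨a, h0, by linarith, h2, h3, h4⟩

/-! ### General convex bodies -/

/-- RHO -/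
def StmtRho : Prop := ∀ R : Set E2, Body R → ∀ O ∈ interior R, ∀ t : ℝ,
  0 < rho R O t ∧ ∀ r : ℝ, 0 ≤ r → (O + r • u t ∈ R ↔ r ≤ rho R O t)

/-- RHOC -/
def StmtRhoC : Prop := ∀ R : Set E2, Body R →
  ContinuousOn (fun z : E2 × ℝ => rho R z.1 z.2) (interior R ×ˢ univ)

/-- POL: area in polar coordinates -/
def StmtPol : Prop := ∀ R : Set E2, Body R → ∀ O ∈ interior R, ∀ t : ℝ,
  f R O t = ∫ τ in t..(t + π / 2), rho R O τ ^ 2 / 2

/-- SHU: moving the apex along the first side -/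
def StmtShU : Prop := ∀ R : Set E2, Body R → ∀ (O : E2) (t x : ℝ), O ∈ interior R →
  O + x • u t ∈ interior R →
    f R (O + x • u t) t = f R O t - ∫ s in (0 : ℝ)..x, rho R (O + s • u t) (t + π / 2)

/-- SHV: moving the apex along the second side -/
def StmtShV : Prop := ∀ R : Set E2, Body R → ∀ (O : E2) (t y : ℝ), O ∈ interior R →
  O + y • u (t + π / 2) ∈ interior R →
    f R (O + y • u (t + π / 2)) t =
      f R O t - ∫ s in (0 : ℝ)..y, rho R (O + s • u (t + π / 2)) t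

/-- NEAR: closeness of the ray lengths -/
def StmtNear : Prop := ∀ P : Set E2, Body P → (0 : E2) ∈ interior P → ∀ O0 ∈ interior P,
  ∀ t0 η : ℝ, 0 < η → ∃ δ : ℝ, 0 < δ ∧ ∀ R : Set E2, Body R → Sand δ P R → ∀ (O : E2) (t : ℝ),
    dist O O0 < δ → |t - t0| < δ → O ∈ interior R ∧ |rho R O t - rho P O0 t0| < η

/-- LOC: near a non-degenerate cross there is at most one quadrisection -/
def StmtLoc : Prop := ∀ P : Set E2, Body P → (0 : E2) ∈ interior P → ∀ O0 ∈ interior P,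
  ∀ t0 : ℝ, ND P O0 t0 → ∃ δ : ℝ, 0 < δ ∧ ∀ R : Set E2, Body R → Sand δ P R →
    ∀ (O O' : E2) (t t' : ℝ), dist O O0 < δ → |t - t0| < δ → dist O' O0 < δ → |t' - t0| < δ →
      Conf R O t → Conf R O' t' → O = O' ∧ t = t'

/-- AREA: closeness of all areas -/
def StmtArea : Prop := ∀ P : Set E2, Body P → (0 : E2) ∈ interior P → ∀ η : ℝ, 0 < η →
  ∃ δ : ℝ, 0 < δ ∧ ∀ R : Set E2, Body R → Sand δ P R → ∀ S : Set E2, MeasurableSet S →
    |volume.real (R ∩ S) - volume.real (P ∩ S)| < η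

/-- STAB: the quadrisections of `R` are close to those of `P` -/
def StmtStab : Prop := ∀ P : Set E2, Body P → (0 : E2) ∈ interior P → ∀ δ : ℝ, 0 < δ →
  ∃ δ' : ℝ, 0 < δ' ∧ ∀ R : Set E2, Body R → Sand δ' P R → ∀ (O : E2) (t : ℝ), Conf R O t →
    ∃ (O' : E2) (t' : ℝ), Conf P O' t' ∧ dist O O' < δ ∧ |t - t'| < δ

/-- CLOSE: polygons with close vertices are close -/
def StmtClose : Prop := ∀ (m : ℕ) (w : Fin m → E2),
  (0 : E2) ∈ interior (convexHull ℝ (range w)) → ∀ δ : ℝ, 0 < δ → δ < 1 → ∃ ε : ℝ, 0 < ε ∧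
    ∀ v : Fin m → E2, (∀ k, dist (v k) (w k) < ε) →
      Sand δ (convexHull ℝ (range w)) (convexHull ℝ (range v))

/-- BR: quadrisections and crosses -/
def StmtBr : Prop := ∀ R : Set E2, Body R →
  (∀ (O : E2) (t : ℝ), Conf R O t →
    IsQuadrisection R {line O (u t), line O (u (t + π / 2))}) ∧
  ∀ q, IsQuadrisection R q → ∃ (O : E2) (t : ℝ), -(π / 4) ≤ t ∧ t < π / 4 ∧ Conf R O t ∧
    q = {line O (u t), line O (u (t + π / 2))}

/-- SIM: invariance under similarities -/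
def StmtSim : Prop := ∀ (R : Set E2) (c : ℝ) (U : E2 ≃ₗᵢ[ℝ] E2) (b : E2), 0 < c →
  {q | IsQuadrisection ((fun x => c • U x + b) '' R) q}.encard = {q | IsQuadrisection R q}.encard

/-- UNIQ: the bisecting cross of a given direction is unique -/
def StmtUniq : Prop := ∀ R : Set E2, Body R → ∀ (O O' : E2) (t : ℝ), O ∈ interior R →
  O' ∈ interior R → Bis R O t → Bis R O' t → O = O'

/-- UPPER: the upper bound -/
def StmtUpper : Prop := ∀ P : Set E2, Body P → (0 : E2) ∈ interior P → ∀ m : ℕ, Odd m →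
  (∀ (O : E2) (t : ℝ), Conf P O t → ∃ k : ℤ, t = k * (π / (2 * m))) →
  (∀ (O : E2) (k : ℤ), Conf P O (k * (π / (2 * m))) → ND P O (k * (π / (2 * m)))) →
  ∃ δ : ℝ, 0 < δ ∧ ∀ R : Set E2, Body R → Sand δ P R →
    {q | IsQuadrisection R q}.encard ≤ (m : ℕ∞)

/-- LOWER: the lower bound -/
def StmtLower : Prop := ∀ P : Set E2, Body P → (0 : E2) ∈ interior P → ∀ m : ℕ, Odd m →
  (∀ (k : ℤ) (t : ℝ), k * (π / (2 * m)) < t → t < (k + 1) * (π / (2 * m)) →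
    ∃ O ∈ interior P, Bis P O t ∧ (-1 : ℝ) ^ k * (f P O t - M P / 4) < 0) →
  ∃ δ : ℝ, 0 < δ ∧ ∀ R : Set E2, Body R → Sand δ P R →
    (m : ℕ∞) ≤ {q | IsQuadrisection R q}.encard

/-! ### The regular polygon with inradius one -/

/-- The vertices of the regular `m`-gon with inradius 1. -/
noncomputable def W (m : ℕ) (k : Fin m) : E2 :=
  (1 / Real.cos (π / m)) • u (2 * π * (k : ℕ) / m)

/-- The regular `m`-gon with inradius 1. -/
noncomputable def P1 (m : ℕ) : Set E2 := convexHull ℝ (range (W m))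

/-- HREP -/
def StmtHrep : Prop := ∀ m : ℕ, 3 ≤ m → Odd m →
  P1 m = {x | ∀ j : ℤ, dot (u ((2 * j + 1) * (π / m))) x ≤ 1} ∧
  Body (P1 m) ∧ Metric.ball (0 : E2) 1 ⊆ interior (P1 m) ∧
  ∀ (j : ℤ) (Y : E2), dot (u ((2 * j + 1) * (π / m))) Y = 1 →
    |dot (u ((2 * j + 1) * (π / m) + π / 2)) Y| ≤ Real.tan (π / m) → Y ∈ P1 m

/-- RAY: length of a ray which ends on the edge with normal direction `d + γ` -/
def StmtRay : Prop := ∀ m : ℕ, 3 ≤ m → Odd m → ∀ X ∈ interior (P1 m), ∀ (j : ℤ) (d γ : ℝ),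
  d + γ = (2 * j + 1) * (π / m) → 0 < Real.cos γ →
  |dot (u (d + γ + π / 2)) X - (1 - dot (u (d + γ)) X) * Real.tan γ| ≤ Real.tan (π / m) →
    rho (P1 m) X d = (1 - dot (u (d + γ)) X) / Real.cos γ

/-- The displacement of a bisecting line. -/
noncomputable def h (ω ψ : ℝ) : ℝ :=
  Real.sqrt (Real.cos ψ ^ 2 / Real.sin (ω / 2) ^ 2 +
    (Real.cos ψ ^ 2 - Real.cos (ω / 2) ^ 2) / Real.cos ω) - Real.cos ψ / Real.sin (ω / 2)

/-- HF: properties of `h`, `θ + β = ω / 2` -/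
def StmtHF : Prop := ∀ ω θ β : ℝ, 0 < ω → ω ≤ π / 5 → 0 ≤ θ → 0 ≤ β → θ + β = ω / 2 →
  0 ≤ h ω β ∧
  h ω β ^ 2 + 2 * h ω β * Real.cos β / Real.sin (ω / 2) =
    (Real.cos β ^ 2 - Real.cos (ω / 2) ^ 2) / Real.cos ω ∧
  h ω β ≤ Real.sin θ / Real.cos ω ∧ h ω β ≤ 1 / 4

/-- the sign of the displacement of the second line: `m ≡ 1` or `3` modulo `4` -/
noncomputable def sg (m : ℕ) : ℝ := if m % 4 = 1 then 1 else -1

/-- The angles between the four rays and the normals of the edges which they meet. -/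
noncomputable def gam0 (m : ℕ) (θ : ℝ) : ℝ := π / m - θ
noncomputable def gam1 (m : ℕ) (θ : ℝ) : ℝ :=
  if m % 4 = 1 then π / m / 2 - θ else -(π / m / 2 + θ)
noncomputable def gam2 (_m : ℕ) (θ : ℝ) : ℝ := -θ
noncomputable def gam3 (m : ℕ) (θ : ℝ) : ℝ :=
  if m % 4 = 1 then -(π / m / 2 + θ) else π / m / 2 - θ

/-- The displacements of the two bisecting lines. -/
noncomputable def Ad (m : ℕ) (θ : ℝ) : ℝ := h (π / m) (π / m / 2 - θ)
noncomputable def Bd (m : ℕ) (θ : ℝ) : ℝ := h (π / m) θ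

/-- RAYS: the four rays from the points of the box between the centre and the centre of the
bisecting cross -/
def StmtRays : Prop := ∀ m : ℕ, 5 ≤ m → Odd m → ∀ θ : ℝ, 0 ≤ θ → θ ≤ π / m / 2 →
  ∀ a y : ℝ, 0 ≤ a → a ≤ Bd m θ → -Ad m θ ≤ y → y ≤ 0 →
    (sg m * a) • u θ + y • u (θ + π / 2) ∈ interior (P1 m) ∧
    rho (P1 m) ((sg m * a) • u θ + y • u (θ + π / 2)) θ =
      (1 - (sg m * a) * Real.cos (gam0 m θ) - y * Real.sin (gam0 m θ)) / Real.cos (gam0 m θ) ∧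
    rho (P1 m) ((sg m * a) • u θ + y • u (θ + π / 2)) (θ + π / 2) =
      (1 + (sg m * a) * Real.sin (gam1 m θ) - y * Real.cos (gam1 m θ)) / Real.cos (gam1 m θ) ∧
    rho (P1 m) ((sg m * a) • u θ + y • u (θ + π / 2)) (θ + π) =
      (1 + (sg m * a) * Real.cos (gam2 m θ) + y * Real.sin (gam2 m θ)) / Real.cos (gam2 m θ) ∧
    rho (P1 m) ((sg m * a) • u θ + y • u (θ + π / 2)) (θ + 3 * (π / 2)) =
      (1 - (sg m * a) * Real.sin (gam3 m θ) + y * Real.cos (gam3 m θ)) / Real.cos (gam3 m θ)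

/-- the area of the quadrant with apex at the centre, from the angles at its two sides -/
noncomputable def q0 (m : ℕ) (g g' : ℝ) : ℝ :=
  ((g' - g + π / 2) * (Real.tan (π / m) / (π / m)) - Real.tan g' + Real.tan g) / 2

/-- AR0: the quadrants with apex at the centre -/
def StmtAr0 : Prop := ∀ m : ℕ, 5 ≤ m → Odd m → ∀ θ : ℝ, 0 ≤ θ → θ ≤ π / m / 2 →
  f (P1 m) 0 θ = q0 m (gam0 m θ) (gam1 m θ) ∧
  f (P1 m) 0 (θ + π / 2) = q0 m (gam1 m θ) (gam2 m θ) ∧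
  f (P1 m) 0 (θ + π) = q0 m (gam2 m θ) (gam3 m θ) ∧
  M (P1 m) = m * Real.tan (π / m)

/-- The centre of the bisecting cross of direction `θ`. -/
noncomputable def Oc (m : ℕ) (θ : ℝ) : E2 :=
  (sg m * Bd m θ) • u θ + (-Ad m θ) • u (θ + π / 2)

/-- FORM: the quadrants of the bisecting cross -/
def StmtForm : Prop := ∀ m : ℕ, 5 ≤ m → Odd m → ∀ θ : ℝ, 0 ≤ θ → θ ≤ π / m / 2 →
  ∀ x y : ℝ, x = sg m * Bd m θ → y = -Ad m θ →
  Oc m θ ∈ interior (P1 m) ∧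
  f (P1 m) (Oc m θ) θ = q0 m (gam0 m θ) (gam1 m θ) -
    (x + x ^ 2 * Real.sin (gam1 m θ) / 2) / Real.cos (gam1 m θ) -
    (y - y ^ 2 * Real.sin (gam0 m θ) / 2) / Real.cos (gam0 m θ) + x * y ∧
  f (P1 m) (Oc m θ) (θ + π / 2) = q0 m (gam1 m θ) (gam2 m θ) -
    (y + y ^ 2 * Real.sin (gam2 m θ) / 2) / Real.cos (gam2 m θ) +
    (x + x ^ 2 * Real.sin (gam1 m θ) / 2) / Real.cos (gam1 m θ) - x * y ∧
  f (P1 m) (Oc m θ) (θ + π) = q0 m (gam2 m θ) (gam3 m θ) +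
    (x - x ^ 2 * Real.sin (gam3 m θ) / 2) / Real.cos (gam3 m θ) +
    (y + y ^ 2 * Real.sin (gam2 m θ) / 2) / Real.cos (gam2 m θ) + x * y

/-- BISF: the cross with centre `Oc` bisects, and the area of its first quadrant -/
def StmtBisF : Prop := ∀ m : ℕ, 5 ≤ m → Odd m → ∀ θ : ℝ, 0 ≤ θ → θ ≤ π / m / 2 →
  Bis (P1 m) (Oc m θ) θ ∧
  f (P1 m) (Oc m θ) θ - M (P1 m) / 4 =
    Real.sin (π / m / 2) * Real.sin (π / m / 2 - θ) * Real.sin θ / Real.cos (π / m) -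
    (Ad m θ * Real.sin (π / m / 2 - θ) + Bd m θ * Real.sin θ) / Real.sin (π / m / 2) -
    sg m * Ad m θ * Bd m θ

/-- INEQ -/
def StmtIneq : Prop := ∀ ω θ β : ℝ, 0 < ω → ω ≤ π / 5 → 0 < θ → 0 < β → θ + β = ω / 2 →
  Real.sin (ω / 2) * Real.sin β * Real.sin θ / Real.cos ω -
    (h ω β * Real.sin β + h ω θ * Real.sin θ) / Real.sin (ω / 2) + h ω β * h ω θ < 0

/-- NDE: non-degeneracy at direction `0`; `x = h ω 0` -/
def StmtNde : Prop := ∀ ω x σ : ℝ, 0 < ω → ω ≤ π / 5 → 0 ≤ x →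
  x ^ 2 + 2 * x / Real.sin (ω / 2) = Real.sin (ω / 2) ^ 2 / Real.cos ω → (σ = 1 ∨ σ = -1) →
  ((1 + x * Real.sin (ω / 2)) / Real.cos (ω / 2)) ^ 2 <
    (1 / Real.cos ω - σ * x) * (1 + σ * x)

/-- The facts for directions between `0` and `π / (2 m)`. -/
def BaseC (m : ℕ) : Prop := ∀ θ : ℝ, 0 < θ → θ < π / (2 * m) →
  ∃ O ∈ interior (P1 m), Bis (P1 m) O θ ∧ f (P1 m) O θ < M (P1 m) / 4

/-- The facts for direction `0`. -/
def BaseB (m : ℕ) : Prop := ∃ O : E2, Conf (P1 m) O 0 ∧ ND (P1 m) O 0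

/-- SYM: all directions, by symmetry -/
def StmtSym : Prop := ∀ m : ℕ, 5 ≤ m → Odd m → BaseC m → BaseB m →
  (∀ (k : ℤ) (t : ℝ), k * (π / (2 * m)) < t → t < (k + 1) * (π / (2 * m)) →
    ∃ O ∈ interior (P1 m), Bis (P1 m) O t ∧ (-1 : ℝ) ^ k * (f (P1 m) O t - M (P1 m) / 4) < 0) ∧
  ∀ k : ℤ, ∃ O : E2, Conf (P1 m) O (k * (π / (2 * m))) ∧ ND (P1 m) O (k * (π / (2 * m)))

end Pool.Agent.T6.H7.QS
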