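import Pool.Agent.T6.H7.QS.Stab

set_option autoImplicit false

/-! Project QS: the bisecting cross of a given direction is unique. -/

namespace Pool.Agent.T6.H7.QS

open MeasureTheory Set Pool.V11275.Quad Pool.Agent.Helper717.Hull1 Pool.Agent.Helper717.Hull2
open scoped Real

namespace Uniq7

lemma dneg (a x : E2) : dot (-a) x = -dot a x := by simp [dot]; ring

lemma H_inj {R : Set E2} (hR : Body R) (a : E2) {c c' : ℝ} (h : H R a c = M R / 2)
    (h' : H R a c' = M R / 2) : c = c' := by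
  have hM := M_pos hR
  by_contra hne
  rcases lt_or_gt_of_ne hne with hlt | hlt
  · have := H_strict hR a hlt (by rw [h']; linarith) (by rw [h]; linarith)
    rw [h, h'] at this
    exact lt_irrefl _ this
  · have := H_strict hR a hlt (by rw [h]; linarith) (by rw [h']; linarith)
    rw [h, h'] at this
    exact lt_irrefl _ this

lemma levels {R : Set E2} (hR : Body R) {O : E2} {t : ℝ} (h : Bis R O t) :
    H R (u t) (dot (u t) O) = M R / 2 ∧ H R (rot (u t)) (dot (rot (u t)) O) = M R / 2 := by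
  have ha := ModStab.u_ne t
  have hb := rot_ne ha
  have r1 : u (t + π / 2) = rot (u t) := (ModStab.rot_u t).symm
  have r2 : u (t + π) = -(u t) := by
    apply ext2 <;> simp [u, Real.cos_add_pi, Real.sin_add_pi]
  have e0 := ModStab.f_eq R O t
  have e1 := ModStab.f_eq R O (t + π / 2)
  have e2 := ModStab.f_eq R O (t + π)
  rw [r1, rot_rot] at e1
  have r3 : rot (-(u t)) = -(rot (u t)) := by
    apply ext2 <;> simp
  rw [r2, r3] at e2
  simp only [dneg, neg_le_neg_iff] at e1 e2
  obtain ⟨h1, h2⟩ := h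
  have s1 := split hR {x | dot (rot (u t)) O ≤ dot (rot (u t)) x} (u t) ha (dot (u t) O)
  have s2 := split hR {x | dot (u t) x ≤ dot (u t) O} (rot (u t)) hb (dot (rot (u t)) O)
  have s3 := split hR univ (u t) ha (dot (u t) O)
  rw [univ_inter, univ_inter] at s3
  have q0 : {x : E2 | dot (u t) O ≤ dot (u t) x ∧ dot (rot (u t)) O ≤ dot (rot (u t)) x} =
      {x | dot (rot (u t)) O ≤ dot (rot (u t)) x} ∩ {x | dot (u t) O ≤ dot (u t) x} := by
    ext x; exact and_comm
  have q1 : {x : E2 | dot (rot (u t)) O ≤ dot (rot (u t)) x ∧ dot (u t) x ≤ dot (u t) O} =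
      {x | dot (rot (u t)) O ≤ dot (rot (u t)) x} ∩ {x | dot (u t) x ≤ dot (u t) O} := rfl
  have q1' : {x : E2 | dot (rot (u t)) O ≤ dot (rot (u t)) x ∧ dot (u t) x ≤ dot (u t) O} =
      {x | dot (u t) x ≤ dot (u t) O} ∩ {x | dot (rot (u t)) O ≤ dot (rot (u t)) x} := by
    ext x; exact and_comm
  have q2 : {x : E2 | dot (u t) x ≤ dot (u t) O ∧ dot (rot (u t)) x ≤ dot (rot (u t)) O} =
      {x | dot (u t) x ≤ dot (u t) O} ∩ {x | dot (rot (u t)) x ≤ dot (rot (u t)) O} := rfl
  have t1 : H R (rot (u t)) (dot (rot (u t)) O) = M R / 2 := by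
    unfold H
    rw [s1, ← q0, ← q1, ← e0, ← e1]
    exact h1
  refine ⟨?_, t1⟩
  have t2 : (mu R).real {x : E2 | dot (u t) x ≤ dot (u t) O} = M R / 2 := by
    rw [s2, ← q1', ← q2, ← e1, ← e2]
    exact h2
  unfold H
  unfold M at t2 ⊢
  linarith

end Uniq7

theorem uniq7 : StmtUniq := by
  intro R hR O O' t _ _ h h'
  obtain ⟨h1, h2⟩ := Uniq7.levels hR h
  obtain ⟨h1', h2'⟩ := Uniq7.levels hR h'
  have e1 := Uniq7.H_inj hR _ h1 h1'
  have e2 := Uniq7.H_inj hR _ h2 h2'
  simp only [dot, u, rot_zero, rot_one] at e1 e2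
  simp at e1 e2
  have hcs := Real.sin_sq_add_cos_sq t
  apply ext2
  · linear_combination Real.cos t * e1 - Real.sin t * e2 + (O' 0 - O 0) * hcs
  · linear_combination Real.sin t * e1 + Real.cos t * e2 + (O' 1 - O 1) * hcs

end Pool.Agent.T6.H7.QS
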